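import Pool.Agent.H833.Tw.Voi

/-!
# Balanced characters
-/

set_option autoImplicit false
set_option linter.unusedSectionVars false

namespace Pool.Agent.H833.Tw

open FF Pool.Agent.Y107.VC Module Equiv
open Pool.Agent.W603.LV (deg_one Ge exists_const)

section

variable (k : Type) [Field k] [CharZero k] {L K : Type} [Field L]
  [Field K] [Algebra k L] [Algebra k K] [Algebra L K] [IsScalarTower k L K]

open Classical in
/-- The character `χ` of the Galois group of the cover of curves given by `K / L` is balanced with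
`p` pairs of branch points: there is a nonzero function `y` on the cover, with `σ y = χ(σ) y` for
all `σ` and `y ^ m = f` a function on the base, such that
`div f ≡ ∑ i, e i * (a i - b i)` modulo `m`, for `2 p` different points `a i`, `b i` of the base and
numbers `e i` which are not divisible by `m`. -/
def Balanced (χ : (K ≃ₐ[L] K) →* kˣ) (p : ℕ) : Prop :=
  ∃ (y : K) (m : ℕ) (f : L) (a b : Fin p → Place k L) (e : Fin p → ℤ),
    y ≠ 0 ∧ (∀ σ : K ≃ₐ[L] K, σ y = algebraMap k K (χ σ) * y) ∧ 0 < m ∧
    algebraMap L K f = y ^ m ∧ Function.Injective (Sum.elim a b) ∧ (∀ i, ¬(m : ℤ) ∣ e i) ∧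
    ∀ v : Place k L, (m : ℤ) ∣
      v.ord f - ∑ i, e i * ((if a i = v then 1 else 0) - (if b i = v then 1 else 0))

end

section

variable {k : Type} [Field k] [CharZero k] [IsAlgClosed k] {L K : Type} [Field L]
  [Field K] [Algebra k L] [Algebra k K] [Algebra L K] [IsScalarTower k L K]
  [IsFF k K] [IsFF k L] [FiniteDimensional L K] [IsGalois L K]

theorem Balanced.symVan {χ : (K ≃ₐ[L] K) →* kˣ} {p : ℕ} (hp : 0 < p) (h : Balanced k χ p) :
    SymVan k χ (genus k L + p - 1) := by
  classical
  obtain ⟨y, m, f, a, b, e, hy, hyχ, hm, hf, hinj, he, hdiv⟩ := h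
  have haa : ∀ i j, a i = a j ↔ i = j := fun i j =>
    ⟨fun h => by simpa using hinj (a₁ := Sum.inl i) (a₂ := Sum.inl j) h, fun h => by rw [h]⟩
  have hbb : ∀ i j, b i = b j ↔ i = j := fun i j =>
    ⟨fun h => by simpa using hinj (a₁ := Sum.inr i) (a₂ := Sum.inr j) h, fun h => by rw [h]⟩
  have hab : ∀ i j, a i ≠ b j := fun i j h => by
    simpa using hinj (a₁ := Sum.inl i) (a₂ := Sum.inr j) h
  have hordA : ∀ i, (m : ℤ) ∣ (a i).ord f - e i := by
    intro i
    have h1 := hdiv (a i)
    have h2 : ∑ j, e j * ((if a j = a i then 1 else 0) - (if b j = a i then 1 else 0)) = e i := by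
      rw [Finset.sum_eq_single i]
      · rw [if_pos rfl, if_neg (hab i i).symm, sub_zero, mul_one]
      · intro j _ hj
        rw [if_neg (fun h => hj ((haa j i).1 h)), if_neg (hab i j).symm, sub_zero, mul_zero]
      · intro h
        exact absurd (Finset.mem_univ _) h
    rwa [h2] at h1
  have hordB : ∀ i, (m : ℤ) ∣ (b i).ord f + e i := by
    intro i
    have h1 := hdiv (b i)
    have h2 : ∑ j, e j * ((if a j = b i then 1 else 0) - (if b j = b i then 1 else 0)) = -e i := by
      rw [Finset.sum_eq_single i]
      · rw [if_pos rfl, if_neg (hab i i), zero_sub, mul_neg, mul_one]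
      · intro j _ hj
        rw [if_neg (hab j i), if_neg (fun h => hj ((hbb j i).1 h)), sub_zero, mul_zero]
      · intro h
        exact absurd (Finset.mem_univ _) h
    rwa [h2, sub_neg_eq_add] at h1
  have hordO : ∀ v, (∀ i, a i ≠ v) → (∀ i, b i ≠ v) → (m : ℤ) ∣ v.ord f := by
    intro v h1 h2
    have h3 := hdiv v
    have h4 : ∑ j, e j * ((if a j = v then 1 else 0) - (if b j = v then 1 else 0)) = 0 := by
      refine Finset.sum_eq_zero fun j _ => ?_
      rw [if_neg (h1 j), if_neg (h2 j), sub_zero, mul_zero]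
    rwa [h4, sub_zero] at h3
  let R : Finset (Place k L) := Finset.univ.image a ∪ Finset.univ.image b
  have hRa : ∀ i, a i ∈ R := fun i =>
    Finset.mem_union_left _ (Finset.mem_image_of_mem _ (Finset.mem_univ i))
  have hRb : ∀ i, b i ∈ R := fun i =>
    Finset.mem_union_right _ (Finset.mem_image_of_mem _ (Finset.mem_univ i))
  have hRc : ∀ v ∈ R, (∃ i, a i = v) ∨ ∃ i, b i = v := by
    intro v hv
    rcases Finset.mem_union.1 hv with h | h
    · obtain ⟨i, -, hi⟩ := Finset.mem_image.1 h
      exact Or.inl ⟨i, hi⟩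
    · obtain ⟨i, -, hi⟩ := Finset.mem_image.1 h
      exact Or.inr ⟨i, hi⟩
  have hR : ∀ v : Place k L, v ∈ R ↔ ¬(m : ℤ) ∣ v.ord f := by
    intro v
    constructor
    · intro hv h1
      rcases hRc v hv with ⟨i, rfl⟩ | ⟨i, rfl⟩
      · exact he i ((dvd_sub_right h1).1 (hordA i))
      · exact he i ((dvd_add_right h1).1 (hordB i))
    · intro hv
      by_contra hcon
      exact hv (hordO v (fun i h => hcon (h ▸ hRa i)) (fun i h => hcon (h ▸ hRb i)))
  let z : Fin p := ⟨0, hp⟩
  let cl : Place k L → Place k L := fun v => if h : ∃ i, i ≠ z ∧ b i = v then a h.choose else v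
  have hclb : ∀ i, i ≠ z → cl (b i) = a i := by
    intro i hi
    have h1 : ∃ j, j ≠ z ∧ b j = b i := ⟨i, hi, rfl⟩
    have h2 : cl (b i) = a h1.choose := dif_pos h1
    rw [h2, (hbb _ _).1 h1.choose_spec.2]
  have hcla : ∀ i, cl (a i) = a i := by
    intro i
    refine dif_neg ?_
    rintro ⟨j, -, hj⟩
    exact hab i j hj.symm
  have hclb0 : cl (b z) = b z := by
    refine dif_neg ?_
    rintro ⟨j, hj, hj'⟩
    exact hj ((hbb _ _).1 hj')
  have hfa : R.filter (fun v => cl v = a z) = {a z} := by
    ext v
    rw [Finset.mem_filter, Finset.mem_singleton]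
    constructor
    · rintro ⟨hv, hc⟩
      rcases hRc v hv with ⟨i, rfl⟩ | ⟨i, rfl⟩
      · rwa [hcla] at hc
      · by_cases hi : i = z
        · rw [hi, hclb0] at hc
          exact absurd hc.symm (hab z z)
        · rw [hclb i hi] at hc
          exact absurd ((haa _ _).1 hc) hi
    · rintro rfl
      exact ⟨hRa z, hcla z⟩
  have hfb : R.filter (fun v => cl v = b z) = {b z} := by
    ext v
    rw [Finset.mem_filter, Finset.mem_singleton]
    constructor
    · rintro ⟨hv, hc⟩
      rcases hRc v hv with ⟨i, rfl⟩ | ⟨i, rfl⟩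
      · rw [hcla] at hc
        exact absurd hc (hab i z)
      · by_cases hi : i = z
        · rw [hi]
        · rw [hclb i hi] at hc
          exact absurd hc (hab i z)
    · rintro rfl
      exact ⟨hRb z, hclb0⟩
  intro A i1 i2 hA x
  refine zc_mem χ hy hyχ hm hf hR cl (a := a z) (b := b z) (hab z z) ⟨b z, hRb z, hclb0⟩
    (fun q hqa hqb => ?_) ?_ id (fun v hv => ?_) (R' := (Finset.univ.erase z).image b)
    (fun v hv => ?_) (fun v hv => ?_) ?_ x
  · -- the sums over the classes
    by_cases hq : ∃ i, a i = q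
    · obtain ⟨i, rfl⟩ := hq
      have hi : i ≠ z := fun h => hqa (by rw [h])
      have h1 : R.filter (fun v => cl v = a i) = {a i, b i} := by
        ext v
        rw [Finset.mem_filter, Finset.mem_insert, Finset.mem_singleton]
        constructor
        · rintro ⟨hv, hc⟩
          rcases hRc v hv with ⟨j, rfl⟩ | ⟨j, rfl⟩
          · rw [hcla] at hc
            exact Or.inl hc
          · by_cases hj : j = z
            · rw [hj, hclb0] at hc
              exact absurd hc.symm (hab i z)
            · rw [hclb j hj] at hc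
              right
              rw [(haa _ _).1 hc]
        · rintro (rfl | rfl)
          · exact ⟨hRa i, hcla i⟩
          · exact ⟨hRb i, hclb i hi⟩
      rw [h1, Finset.sum_pair (hab i i)]
      have h2 := dvd_add (hordA i) (hordB i)
      have h3 : (a i).ord f - e i + ((b i).ord f + e i) = (a i).ord f + (b i).ord f := by ring
      rwa [h3] at h2
    · have h1 : R.filter (fun v => cl v = q) = ∅ := by
        rw [Finset.filter_eq_empty_iff]
        intro v hv hc
        rcases hRc v hv with ⟨j, rfl⟩ | ⟨j, rfl⟩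
        · rw [hcla] at hc
          exact hq ⟨j, hc⟩
        · by_cases hj : j = z
          · rw [hj, hclb0] at hc
            exact hqb hc.symm
          · rw [hclb j hj] at hc
            exact hq ⟨j, hc⟩
      rw [h1, Finset.sum_empty]
      exact dvd_zero _
  · rw [hfa, hfb, Finset.sum_singleton, Finset.sum_singleton]
    have h2 := dvd_add (hordA z) (hordB z)
    have h3 : (a z).ord f - e z + ((b z).ord f + e z) = (a z).ord f + (b z).ord f := by ring
    rwa [h3] at h2
  · change cl v ∈ R
    rcases hRc v hv with ⟨j, rfl⟩ | ⟨j, rfl⟩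
    · rw [hcla]
      exact hRa j
    · by_cases hj : j = z
      · rw [hj, hclb0]
        exact hRb z
      · rw [hclb j hj]
        exact hRa j
  · rcases hRc v hv with ⟨j, rfl⟩ | ⟨j, rfl⟩
    · exact Or.inr (hcla j)
    · by_cases hj : j = z
      · right
        rw [hj]
        exact hclb0
      · left
        exact Finset.mem_image_of_mem _ (Finset.mem_erase.2 ⟨hj, Finset.mem_univ _⟩)
  · obtain ⟨j, -, rfl⟩ := Finset.mem_image.1 hv
    exact hRb j
  · rw [Finset.card_image_of_injective _ (fun i j h => (hbb i j).1 h),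
      Finset.card_erase_of_mem (Finset.mem_univ z), Finset.card_univ, Fintype.card_fin, hA]
    omega

end

end Pool.Agent.H833.Tw
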