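import Pool.Agent.H833.Tw.Stab

/-!
# Cycles with coefficients in the ground field
-/

set_option autoImplicit false
set_option linter.unusedSectionVars false

namespace Pool.Agent.H833.Tw

open FF Pool.Agent.Y107.VC

section

variable {k : Type} [Field k] [CharZero k] {X Y : Type}

/-- Extension of the coefficients. -/
noncomputable def toK (k : Type) [Field k] [CharZero k] {X : Type} : (X →₀ ℚ) →ₗ[ℚ] (X →₀ k) :=
  Finsupp.mapRange.linearMap (Algebra.linearMap ℚ k)

theorem toK_single (x : X) (r : ℚ) :
    toK k (Finsupp.single x r) = Finsupp.single x (algebraMap ℚ k r) := by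
  unfold toK
  rw [Finsupp.mapRange.linearMap_apply]
  exact Finsupp.mapRange_single

theorem toK_apply (c : X →₀ ℚ) (x : X) : toK k c x = algebraMap ℚ k (c x) := rfl

theorem toK_mapDomain (f : X → Y) (c : X →₀ ℚ) :
    toK k (Finsupp.mapDomain f c) = Finsupp.mapDomain f (toK k c) := by
  induction c using Finsupp.induction_linear with
  | zero => rw [Finsupp.mapDomain_zero, map_zero, map_zero, Finsupp.mapDomain_zero]
  | add a b ha hb => rw [Finsupp.mapDomain_add, map_add, ha, hb, map_add, Finsupp.mapDomain_add]
  | single x r => rw [Finsupp.mapDomain_single, toK_single, toK_single, Finsupp.mapDomain_single]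

/-- The span with coefficients in `k`. -/
noncomputable def up (k : Type) [Field k] [CharZero k] {X : Type} (R : Submodule ℚ (X →₀ ℚ)) :
    Submodule k (X →₀ k) :=
  Submodule.span k (toK k '' (R : Set (X →₀ ℚ)))

theorem toK_mem_up {R : Submodule ℚ (X →₀ ℚ)} {c : X →₀ ℚ} (hc : c ∈ R) : toK k c ∈ up k R :=
  Submodule.subset_span ⟨c, hc, rfl⟩

/-- Descent of the coefficients. -/
theorem mem_of_up {R : Submodule ℚ (X →₀ ℚ)} {c : X →₀ ℚ} (hc : toK k c ∈ up k R) : c ∈ R := by
  obtain ⟨r, hr⟩ : ∃ r : k →ₗ[ℚ] ℚ, r 1 = 1 := by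
    have h1 : LinearMap.ker (Algebra.linearMap ℚ k) = ⊥ :=
      LinearMap.ker_eq_bot.2 (algebraMap ℚ k).injective
    obtain ⟨r, hr⟩ := LinearMap.exists_leftInverse_of_injective (Algebra.linearMap ℚ k) h1
    refine ⟨r, ?_⟩
    have h2 := LinearMap.congr_fun hr 1
    rw [LinearMap.comp_apply, Algebra.linearMap_apply, map_one] at h2
    exact h2
  let ρ : (X →₀ k) →ₗ[ℚ] (X →₀ ℚ) := Finsupp.mapRange.linearMap r
  have hρ : ∀ (c : k) (z : X →₀ ℚ), ρ (c • toK k z) = r c • z := by
    intro c z
    ext x
    change r (c * algebraMap ℚ k (z x)) = r c * z x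
    rw [mul_comm, ← Algebra.smul_def, map_smul, smul_eq_mul, mul_comm]
  have h1 : ∀ z ∈ up k R, ρ z ∈ R := by
    intro z hz
    unfold up at hz
    induction hz using Submodule.span_induction with
    | zero => rw [map_zero]; exact R.zero_mem
    | add x y _ _ hx hy => rw [map_add]; exact R.add_mem hx hy
    | mem x hx =>
      obtain ⟨y, hy, rfl⟩ := hx
      have h2 := hρ 1 y
      rw [one_smul, hr, one_smul] at h2
      rw [h2]
      exact hy
    | smul a x hx ih =>
      have h3 : ∀ z ∈ Submodule.span k (toK k '' (R : Set (X →₀ ℚ))), ∀ a : k, ρ (a • z) ∈ R := by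
        intro z hz
        induction hz using Submodule.span_induction with
        | zero => intro a; rw [smul_zero, map_zero]; exact R.zero_mem
        | add x y _ _ hx hy => intro a; rw [smul_add, map_add]; exact R.add_mem (hx a) (hy a)
        | mem x hx =>
          intro a
          obtain ⟨y, hy, rfl⟩ := hx
          rw [hρ]
          exact R.smul_mem _ hy
        | smul b x _ hx => intro a; rw [smul_smul]; exact hx (a * b)
      exact h3 x hx a
  have h2 := h1 _ hc
  have h3 := hρ 1 c
  rw [one_smul, hr, one_smul] at h3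
  rwa [h3] at h2

theorem up_map {R : Submodule ℚ (X →₀ ℚ)} {R' : Submodule ℚ (Y →₀ ℚ)} {f : X → Y}
    (hf : ∀ c ∈ R, Finsupp.mapDomain f c ∈ R') {c : X →₀ k} (hc : c ∈ up k R) :
    Finsupp.mapDomain f c ∈ up k R' := by
  unfold up at hc
  induction hc using Submodule.span_induction with
  | zero => rw [Finsupp.mapDomain_zero]; exact Submodule.zero_mem _
  | add x y _ _ hx hy => rw [Finsupp.mapDomain_add]; exact Submodule.add_mem _ hx hy
  | smul r x _ hx => rw [Finsupp.mapDomain_smul]; exact Submodule.smul_mem _ _ hx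
  | mem x hx =>
    obtain ⟨y, hy, rfl⟩ := hx
    rw [← toK_mapDomain]
    exact toK_mem_up (hf y hy)

end

section

variable {k : Type} [Field k] [CharZero k] {K : Type} [Field K] [Algebra k K] {A : Type}

/-- The zero-cycles with coefficients in `k` which are rationally equivalent to zero. -/
noncomputable def RatK (k : Type) [Field k] [CharZero k] (K : Type) [Field K] [Algebra k K]
    (A : Type) : Submodule k ((A → Place k K) →₀ k) :=
  up k (Rat k fun _ : A => K)

/-- The relation given by a function. -/
theorem rel_mem {F : Type} [Field F] [Algebra k F] [hF : IsFF k F] {h : F} (hh : h ≠ 0)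
    (t : Place k F → A → Place k K) (ht : ∀ a, IsMor fun w => t w a) :
    ∑ w ∈ (divisor k h).support, (w.ord h : k) • Finsupp.single (t w) (1 : k) ∈ RatK k K A := by
  have h1 : toK k (pd (k := k) h t) ∈ RatK k K A :=
    toK_mem_up (Submodule.subset_span ⟨F, inferInstance, inferInstance, hF, h, t, hh, ht, rfl⟩)
  have h2 : toK k (pd (k := k) h t) =
      ∑ w ∈ (divisor k h).support, (w.ord h : k) • Finsupp.single (t w) (1 : k) := by
    unfold pd Finsupp.sum
    rw [map_sum]
    refine Finset.sum_congr rfl fun w _ => ?_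
    rw [toK_single, Finsupp.smul_single, smul_eq_mul, mul_one, divisor_apply, map_intCast]
  rwa [← h2]

end

end Pool.Agent.H833.Tw
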