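import Pool.Agent.H833.Tw.Fin1

/-!
# Abelian covers of curves, bundled
-/

set_option autoImplicit false
set_option linter.unusedSectionVars false

namespace Pool.Agent.H833.Tw

open FF Pool.Agent.Y107.VC Module Equiv

/-- A Galois cover `C → B` of smooth projective curves over `k` with abelian Galois group, given by
the extension `K / L` of the function fields. -/
structure Cov (k : Type) [Field k] where
  /-- the function field of the base -/
  L : Type
  /-- the function field of the cover -/
  K : Type
  [fieldL : Field L]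
  [fieldK : Field K]
  [algL : Algebra k L]
  [algK : Algebra k K]
  [algLK : Algebra L K]
  [tower : IsScalarTower k L K]
  [ffL : IsFF k L]
  [ffK : IsFF k K]
  [fin : FiniteDimensional L K]
  [gal : IsGalois L K]
  comm : ∀ σ τ : K ≃ₐ[L] K, σ * τ = τ * σ

attribute [instance] Cov.fieldL Cov.fieldK Cov.algL Cov.algK Cov.algLK Cov.tower Cov.ffL Cov.ffK
  Cov.fin Cov.gal

namespace Cov

section

variable {k : Type} [Field k] (C : Cov k)

/-- The Galois group. -/
abbrev G : Type := C.K ≃ₐ[C.L] C.K

/-- The characters of the Galois group. -/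
abbrev Chr : Type := C.G →* kˣ

/-- The points of the cover. -/
abbrev Pt : Type := Place k C.K

/-- The points of the base. -/
abbrev Bt : Type := Place k C.L

variable {C}

/-- The action of the Galois group on the points of the cover. -/
noncomputable def mv (g : C.G) (w : C.Pt) : C.Pt := w.comp (g.restrictScalars k)

/-- The point `w` of the cover lies over the point `v` of the base. -/
def Above (w : C.Pt) (v : C.Bt) : Prop := Lies (IsScalarTower.toAlgHom k C.L C.K) w v

/-- The branch points of the character `χ`: the points `v` of the base such that `χ` is not trivial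
on the stabilizer of a point `w` over `v`. -/
def br (χ : C.Chr) : Set C.Bt := {v | ∃ w : C.Pt, Above w v ∧ ∃ g : C.G, mv g w = w ∧ χ g ≠ 1}

/-- The divisor of `f` is congruent modulo `m` to `∑ i, e i * (a i - b i)`. -/
def DivMod (f : C.L) (m : ℕ) {p : ℕ} (a b : Fin p → C.Bt) (e : Fin p → ℤ) : Prop :=
  ∀ v : C.Bt, (m : ℤ) ∣ v.ord f - (∑ i, (Finsupp.single (a i) (e i) -
    Finsupp.single (b i) (e i)) : C.Bt →₀ ℤ) v

/-- The character `χ` is balanced: there are `p > 0` and `2 p` different points `a i`, `b i` of the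
base, and a nonzero function `y` on the cover with `g y = χ(g) y` for all `g`, such that `y ^ m` is
a function `f` on the base with `div f ≡ ∑ i, e i * (a i - b i)` modulo `m`, where no `e i` is
divisible by `m`. -/
def Bal (χ : C.Chr) : Prop :=
  ∃ (p : ℕ) (y : C.K) (m : ℕ) (f : C.L) (a b : Fin p → C.Bt) (e : Fin p → ℤ), 0 < p ∧ 0 < m ∧
    y ≠ 0 ∧ (∀ g : C.G, g y = algebraMap k C.K (χ g) * y) ∧ algebraMap C.L C.K f = y ^ m ∧
    Function.Injective (Sum.elim a b) ∧ (∀ i, ¬(m : ℤ) ∣ e i) ∧ DivMod f m a b e

open Classical in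
/-- The dimension of the `χ`-eigenspace of the space of holomorphic differentials for a balanced
character (Chevalley-Weil): the genus of the base if `χ = 1`, and `g - 1 + r / 2` if `χ ≠ 1` has
`r` branch points. -/
noncomputable def h [CharZero k] [IsAlgClosed k] (χ : C.Chr) : ℕ :=
  if χ = 1 then genus k C.L else genus k C.L + (br χ).ncard / 2 - 1

end

end Cov

section

variable {k : Type} [Field k] {T : Type} {C : T → Cov k}

/-- The points of the product of the covers. -/
abbrev PtX (C : T → Cov k) : Type := ∀ t, (C t).Pt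

/-- The product of the Galois groups. -/
abbrev GX (C : T → Cov k) : Type := ∀ t, (C t).G

/-- The action of the product of the Galois groups on the product of the covers. -/
noncomputable def mvX (g : GX C) (x : PtX C) : PtX C := fun t => Cov.mv (g t) (x t)

/-- The zero-cycle on the product of the covers is invariant under `Γ`. -/
def InvX (Γ : Subgroup (GX C)) (a : PtX C →₀ ℚ) : Prop :=
  ∀ γ ∈ Γ, Finsupp.mapDomain (mvX γ) a = a

/-- The push forwards of the zero-cycle on the product of the covers to the products with one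
factor less are rationally equivalent to zero. -/
def PrimX [CharZero k] (a : PtX C →₀ ℚ) : Prop :=
  ∀ e : T, Finsupp.mapDomain (fun x (t : {t // t ≠ e}) => x t.1) a ∈
    Rat k fun t : {t // t ≠ e} => (C t.1).K

/-- The character `(η t)` of the product of the groups is trivial on `Γ`. -/
def TrivX [Fintype T] (Γ : Subgroup (GX C)) (η : ∀ t, (C t).Chr) : Prop :=
  ∀ γ ∈ Γ, ∏ t, η t (γ t) = 1

/-- The dimension of the space of the holomorphic forms of top degree on the quotient of the
product of the covers by `Γ`: the sum, over the characters of the product of the groups which are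
trivial on `Γ`, of the products of the dimensions of the eigenspaces. -/
noncomputable def pgX [CharZero k] [IsAlgClosed k] [Fintype T] (Γ : Subgroup (GX C)) : ℕ :=
  ∑ᶠ η : {η : ∀ t, (C t).Chr // TrivX Γ η}, ∏ t, Cov.h (η.1 t)

/-- The sum of the `sgn(σ)^(|T|+1) a_σ(1) × ... × a_σ(n)`. -/
noncomputable def altX [Fintype T] {n : ℕ} (a : Fin n → PtX C →₀ ℚ) :
    (∀ p : Fin n × T, (C p.2).Pt) →₀ ℚ :=
  ∑ σ : Perm (Fin n), ((Perm.sign σ : ℤ) : ℚ) ^ (Fintype.card T + 1) •
    ext (P := fun t => (C t).Pt) fun j => a (σ j)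

/-- The zero-cycle on a product of the covers is rationally equivalent to zero. -/
def RatX [CharZero k] {J : Type} (q : J → T) (z : (∀ j, (C (q j)).Pt) →₀ ℚ) : Prop :=
  z ∈ Rat k fun j => (C (q j)).K

theorem Cov.Bal.balanced [CharZero k] {C : Cov k} {χ : C.Chr} (h : Cov.Bal χ) :
    ∃ p, 0 < p ∧ Balanced k χ p := by
  classical
  obtain ⟨p, y, m, f, a, b, e, hp, hm, hy, hyχ, hf, hinj, he, hdiv⟩ := h
  refine ⟨p, hp, y, m, f, a, b, e, hy, hyχ, hm, hf, hinj, he, fun v => ?_⟩
  have h1 := hdiv v
  have h2 : (∑ i, (Finsupp.single (a i) (e i) - Finsupp.single (b i) (e i)) : C.Bt →₀ ℤ) v =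
      ∑ i, e i * ((if a i = v then 1 else 0) - (if b i = v then 1 else 0)) := by
    rw [Finsupp.finsetSum_apply]
    refine Finset.sum_congr rfl fun i _ => ?_
    rw [Finsupp.sub_apply, Finsupp.single_apply, Finsupp.single_apply]
    split_ifs <;> ring
  rwa [h2] at h1

theorem voisin_cov [CharZero k] [IsAlgClosed k] [Fintype T] [DecidableEq T]
    (hbal : ∀ t, ∀ χ : (C t).Chr, χ ≠ 1 → Cov.Bal χ) (Γ : Subgroup (GX C)) {n : ℕ}
    (hn : pgX Γ < n) (a : Fin n → PtX C →₀ ℚ) (hinv : ∀ j, InvX Γ (a j))
    (hprim : ∀ j, PrimX (a j)) : RatX (fun p : Fin n × T => p.2) (altX a) := by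
  have h0 : ∀ (C : Cov k) (χ : C.Chr), Cov.br χ = branch (L := C.L) (K := C.K) χ :=
    fun C χ => rfl
  have h1 : ∀ (C : Cov k) (χ : C.Chr), Cov.h χ = hdim (L := C.L) (K := C.K) χ := by
    intro C χ
    by_cases hχ : χ = 1
    · rw [Cov.h, hdim, if_pos hχ, if_pos hχ]
    · rw [Cov.h, hdim, if_neg hχ, if_neg hχ, h0]
  have h2 : pgX Γ = pgen k (L := fun t => (C t).L) (K := fun t => (C t).K) Γ := by
    unfold pgX pgen TrivX
    simp only [h1]
  rw [h2] at hn
  have h3 := voisin_balanced (L := fun t => (C t).L) (K := fun t => (C t).K)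
    (fun t => (C t).comm) (fun t χ hχ => (hbal t χ hχ).balanced) Γ hn a
    (fun j γ hγ => hinv j γ hγ) (fun j e => hprim j e)
  exact h3

end

end Pool.Agent.H833.Tw
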