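import Pool.Agent.H833.Tw.Kap2

/-!
# The decomposition into eigenspaces
-/

set_option autoImplicit false
set_option linter.unusedSectionVars false
set_option maxHeartbeats 1000000

namespace Pool.Agent.H833.Tw

open FF Pool.Agent.Y107.VC Module Equiv
open Pool.Agent.H204R3.SP (permsOf mem_permsOf)

section

variable {k : Type} [Field k] [CharZero k] [IsAlgClosed k] {G : Type} [Group G] [Finite G]

theorem exists_chr (hcomm : ∀ a b : G, a * b = b * a) {g : G} (hg : g ≠ 1) :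
    ∃ χ : G →* kˣ, χ g ≠ 1 := by
  let _ : CommGroup G := { (inferInstance : Group G) with mul_comm := hcomm }
  have h1 : NeZero (Monoid.exponent G : k) := ⟨by
    have h2 : Monoid.exponent G ≠ 0 := Monoid.exponent_ne_zero_of_finite
    exact_mod_cast h2⟩
  have h2 : HasEnoughRootsOfUnity k (Monoid.exponent G) := inferInstance
  exact CommGroup.exists_apply_ne_one_of_hasEnoughRootsOfUnity G k hg

theorem sum_chr [Fintype (G →* kˣ)] (hcomm : ∀ a b : G, a * b = b * a) {g : G} (hg : g ≠ 1) :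
    ∑ χ : G →* kˣ, ((χ g : kˣ) : k)⁻¹ = 0 := by
  obtain ⟨χ0, hχ0⟩ := exists_chr (k := k) hcomm hg
  let e : (G →* kˣ) ≃ (G →* kˣ) := Equiv.mulLeft χ0
  have h1 : ∑ χ : G →* kˣ, ((χ g : kˣ) : k)⁻¹ =
      ((χ0 g : kˣ) : k)⁻¹ * ∑ χ : G →* kˣ, ((χ g : kˣ) : k)⁻¹ := by
    conv_lhs => rw [← Equiv.sum_comp e]
    rw [Finset.mul_sum]
    refine Finset.sum_congr rfl fun χ _ => ?_
    have h2 : e χ g = χ0 g * χ g := rfl
    rw [h2, Units.val_mul, mul_inv]
  have h2 : (1 - ((χ0 g : kˣ) : k)⁻¹) * ∑ χ : G →* kˣ, ((χ g : kˣ) : k)⁻¹ = 0 := by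
    rw [sub_mul, one_mul, ← h1, sub_self]
  refine (mul_eq_zero.1 h2).resolve_left fun h3 => hχ0 ?_
  rw [sub_eq_zero] at h3
  apply Units.ext
  rw [Units.val_one]
  have h4 := congrArg (fun x => x⁻¹) h3
  simp only [inv_one, inv_inv] at h4
  exact h4.symm

end

section

variable {k : Type} [Field k] [CharZero k] [IsAlgClosed k] {T κ : Type} [Fintype κ]
  [DecidableEq κ] [Fintype T] [DecidableEq T]
  {L K : T → Type} [∀ t, Field (L t)] [∀ t, Field (K t)] [∀ t, Algebra k (L t)]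
  [∀ t, Algebra k (K t)] [∀ t, Algebra (L t) (K t)] [∀ t, IsScalarTower k (L t) (K t)]
  [∀ t, IsFF k (L t)] [∀ t, IsFF k (K t)] [∀ t, FiniteDimensional (L t) (K t)]
  [∀ t, IsGalois (L t) (K t)]

/-- The types given by a family of characters. -/
def ty (q : κ → T) (S : ∀ c, ((K (q c) ≃ₐ[L (q c)] K (q c)) →* kˣ)) (c : κ) : Ty k L K :=
  ⟨q c, S c⟩

theorem sum_EE [∀ t, Fintype ((K t ≃ₐ[L t] K t) →* kˣ)] (q : κ → T)
    (hcomm : ∀ t, ∀ σ τ : K t ≃ₐ[L t] K t, σ * τ = τ * σ) :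
    ∃ N : k, N ≠ 0 ∧ ∀ z : (κ → Σ t, Place k (K t)) →₀ k,
      (∀ x ∈ z.support, ∀ c, (x c).1 = q c) →
      ∑ S : ∀ c, ((K (q c) ≃ₐ[L (q c)] K (q c)) →* kˣ), EE (ty q S) z = N • z := by
  classical
  let C : κ → ℕ := fun c => Fintype.card ((K (q c) ≃ₐ[L (q c)] K (q c)) →* kˣ)
  let W : Finset (κ → ∀ t, K t ≃ₐ[L t] K t) := Finset.univ.filter fun g => ∀ c, g c (q c) = 1
  have hC : ∀ c, C c ≠ 0 := fun c => Fintype.card_ne_zero
  have hW : W.Nonempty := ⟨1, Finset.mem_filter.2 ⟨Finset.mem_univ _, fun c => rfl⟩⟩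
  have hN : ((W.card * ∏ c, C c : ℕ) : k) ≠ 0 := by
    have h1 : W.card * ∏ c, C c ≠ 0 :=
      mul_ne_zero (Finset.card_pos.2 hW).ne' (Finset.prod_ne_zero_iff.2 fun c _ => hC c)
    exact_mod_cast h1
  refine ⟨_, hN, fun z hz => ?_⟩
  have hsingle : ∀ x : κ → Σ t, Place k (K t), (∀ c, (x c).1 = q c) →
      ∑ S : ∀ c, ((K (q c) ≃ₐ[L (q c)] K (q c)) →* kˣ), EE (ty q S) (Finsupp.single x (1 : k)) =
        ((W.card * ∏ c, C c : ℕ) : k) • Finsupp.single x 1 := by
    intro x hx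
    have h1 : ∑ S : ∀ c, ((K (q c) ≃ₐ[L (q c)] K (q c)) →* kˣ),
        EE (ty q S) (Finsupp.single x (1 : k)) =
        ∑ g : κ → ∀ t, K t ≃ₐ[L t] K t, (∑ S : ∀ c, ((K (q c) ≃ₐ[L (q c)] K (q c)) →* kˣ),
          ∏ c, (((S c (g c (q c)) : kˣ) : k))⁻¹) • Finsupp.single (actk g x) (1 : k) := by
      simp only [EE_apply, Finset.sum_smul, Finsupp.mapDomain_single]
      rw [Finset.sum_comm]
      rfl
    rw [h1]
    have h2 : ∀ g : κ → ∀ t, K t ≃ₐ[L t] K t,
        ∑ S : ∀ c, ((K (q c) ≃ₐ[L (q c)] K (q c)) →* kˣ),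
          ∏ c, (((S c (g c (q c)) : kˣ) : k))⁻¹ = if g ∈ W then ((∏ c, C c : ℕ) : k) else 0 := by
      intro g
      have h3 : ∑ S : ∀ c, ((K (q c) ≃ₐ[L (q c)] K (q c)) →* kˣ),
          ∏ c, (((S c (g c (q c)) : kˣ) : k))⁻¹ =
          ∏ c, ∑ χ : ((K (q c) ≃ₐ[L (q c)] K (q c)) →* kˣ), ((χ (g c (q c)) : kˣ) : k)⁻¹ := by
        rw [Finset.prod_univ_sum, Fintype.piFinset_univ]
      rw [h3]
      split_ifs with hg
      · rw [Nat.cast_prod]
        refine Finset.prod_congr rfl fun c _ => ?_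
        have h4 := (Finset.mem_filter.1 hg).2 c
        rw [h4]
        simp only [map_one, Units.val_one, inv_one, Finset.sum_const, Finset.card_univ,
          nsmul_eq_mul, mul_one, C]
      · have h4 : ∃ c, g c (q c) ≠ 1 := by
          by_contra hcon
          push Not at hcon
          exact hg (Finset.mem_filter.2 ⟨Finset.mem_univ _, hcon⟩)
        obtain ⟨c, hc⟩ := h4
        exact Finset.prod_eq_zero (Finset.mem_univ c) (sum_chr (hcomm (q c)) hc)
    simp only [h2]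
    have h3 : ∀ g : κ → ∀ t, K t ≃ₐ[L t] K t, (if g ∈ W then ((∏ c, C c : ℕ) : k) else 0) •
        Finsupp.single (actk g x) (1 : k) =
        if g ∈ W then ((∏ c, C c : ℕ) : k) • Finsupp.single x 1 else 0 := by
      intro g
      split_ifs with hg
      · have h4 : actk g x = x := by
          funext c
          have h5 := (Finset.mem_filter.1 hg).2 c
          have h6 := hx c
          unfold actk act
          rw [← h6] at h5
          rw [h5, tw_one]
        rw [h4]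
      · rw [zero_smul]
    rw [Finset.sum_congr rfl fun g _ => h3 g, Finset.sum_ite_mem, Finset.univ_inter,
      Finset.sum_const, ← Nat.cast_smul_eq_nsmul k, smul_smul, Nat.cast_mul]
  have h5 : z = ∑ x ∈ z.support, z x • Finsupp.single x (1 : k) := by
    conv_lhs => rw [← Finsupp.sum_single z]
    unfold Finsupp.sum
    exact Finset.sum_congr rfl fun x _ => by rw [Finsupp.smul_single, smul_eq_mul, mul_one]
  conv_lhs => rw [h5]
  conv_rhs => rw [h5]
  simp only [map_sum, map_smul]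
  rw [Finset.sum_comm, Finset.smul_sum]
  refine Finset.sum_congr rfl fun x hx => ?_
  rw [← Finset.smul_sum, hsingle x (hz x hx), smul_comm]

/-- The main theorem for an indexed family of permutations. -/
theorem mainIK {H : Ty k L K → ℕ} (hH : IsDim H) {J : Type} (Js : Finset J) (P : J → Perm κ)
    (ζ : J → k) (s : κ → Ty k L K)
    (b : ∀ t, Place k (K t)) (hz : ∀ j ∈ Js, ∀ c, s (P j c) = s c)
    (hvan : ∀ c : κ → Σ s : Ty k L K, Fin (H s), (∀ j, (c j).1 = s j) →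
      ∀ Y : (Σ s : Ty k L K, Fin (H s)) → κ → k,
        ∑ j ∈ Js, (((Perm.sign (P j) : ℤ) : k) * ζ j) * ∏ i, Y (c i) (P j i) = 0)
    (a : (κ → Σ t, Place k (K t)) →₀ k) (ha : ∀ x ∈ a.support, ∀ c, (x c).1 = (s c).1)
    (hprim : ∀ c ∈ triv s, Finsupp.mapDomain (rp s b {c}) a ∈ RU k κ K) :
    ∑ j ∈ Js, ζ j • pmK (P j) (EE s a) ∈ RU k κ K := by
  classical
  have h1 := mainK hH s b (fun π => ∑ j ∈ Js, if P j = π then ζ j else 0) (by
    intro π hπ c
    obtain ⟨j, hj, hs⟩ := Finset.exists_ne_zero_of_sum_ne_zero hπ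
    by_cases h2 : P j = π
    · rw [← h2]
      exact hz j hj c
    · rw [if_neg h2] at hs
      exact absurd rfl hs) (by
    intro c hc Y
    refine Eq.trans ?_ (hvan c hc Y)
    simp only [Finset.mul_sum, Finset.sum_mul]
    rw [Finset.sum_comm]
    refine Finset.sum_congr rfl fun j _ => ?_
    rw [Finset.sum_eq_single (P j)]
    · rw [if_pos rfl]
    · intro π _ hπ
      rw [if_neg hπ.symm, mul_zero, zero_mul]
    · intro h
      exact absurd (Finset.mem_univ _) h) a ha hprim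
  refine (Eq.subst (motive := fun x => x ∈ RU k κ K) ?_ h1)
  simp only [Finset.sum_smul]
  rw [Finset.sum_comm]
  refine Finset.sum_congr rfl fun j _ => ?_
  rw [Finset.sum_eq_single (P j)]
  · rw [if_pos rfl]
  · intro π _ hπ
    rw [if_neg hπ.symm, zero_smul]
  · intro h
    exact absurd (Finset.mem_univ _) h

end

end Pool.Agent.H833.Tw
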