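import Pool.Agent.H833.Tw.Coef

/-!
# The twisted symmetric cycles
-/

set_option autoImplicit false
set_option linter.unusedSectionVars false

namespace Pool.Agent.H833.Tw

open FF Pool.Agent.Y107.VC Equiv

section

variable {k : Type} [Field k] [CharZero k] {L K : Type} [Field L] [Field K] [Algebra k L]
  [Algebra k K] [Algebra L K] [IsScalarTower k L K] [FiniteDimensional L K] {A : Type} [Fintype A]
  [DecidableEq A]

theorem isMor_tw (σ : K ≃ₐ[L] K) : IsMor (k := k) fun w : Place k K => tw w σ := by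
  refine Or.inr ⟨(σ.restrictScalars k : K ≃ₐ[k] K).toAlgHom, fun w => ⟨1, Nat.one_pos, fun f => ?_⟩⟩
  rw [Nat.cast_one, one_mul]
  rfl

/-- The twisted symmetric cycle of a word: the projection to the eigenspace of the character `χ`
in each variable of the symmetric cycle. -/
noncomputable def zc (χ : (K ≃ₐ[L] K) →* kˣ) (x : A → Place k K) : (A → Place k K) →₀ k :=
  ∑ τ : Perm A, ∑ g : A → (K ≃ₐ[L] K),
    Finsupp.single (fun a => tw (x (τ a)) (g a)) (∏ a, (((χ (g a))⁻¹ : kˣ) : k))

theorem zc_perm (χ : (K ≃ₐ[L] K) →* kˣ) (x : A → Place k K) (σ : Perm A) :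
    zc χ (fun a => x (σ a)) = zc χ x := by
  unfold zc
  exact Fintype.sum_equiv (Equiv.mulLeft σ) _ _ fun τ => rfl

theorem zc_tw (χ : (K ≃ₐ[L] K) →* kˣ) (x : A → Place k K) (h : A → (K ≃ₐ[L] K)) :
    zc χ (fun a => tw (x a) (h a)) = (∏ a, ((χ (h a) : kˣ) : k)) • zc χ x := by
  unfold zc
  rw [Finset.smul_sum]
  refine Finset.sum_congr rfl fun τ _ => ?_
  rw [Finset.smul_sum]
  refine Fintype.sum_equiv (Equiv.piCongrRight fun a => Equiv.mulLeft (h (τ a))) _ _ fun g => ?_
  rw [Finsupp.smul_single, smul_eq_mul]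
  have h1 : (fun a => tw (tw (x (τ a)) (h (τ a))) (g a)) = fun a =>
      tw (x (τ a)) ((Equiv.piCongrRight fun a => Equiv.mulLeft (h (τ a))) g a) := by
    funext a
    rw [← tw_mul]
    rfl
  rw [h1]
  congr 1
  rw [← Equiv.prod_comp τ fun a => ((χ (h a) : kˣ) : k), ← Finset.prod_mul_distrib]
  refine Finset.prod_congr rfl fun a _ => ?_
  have h2 : (Equiv.piCongrRight fun a => Equiv.mulLeft (h (τ a))) g a = h (τ a) * g a := rfl
  rw [h2, map_mul, mul_inv, Units.val_mul, ← mul_assoc, ← Units.val_mul, mul_inv_cancel,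
    Units.val_one, one_mul]

theorem zc_eq_zero (χ : (K ≃ₐ[L] K) →* kˣ) (x : A → Place k K) (a : A) (σ : K ≃ₐ[L] K)
    (h : tw (x a) σ = x a) (hσ : χ σ ≠ 1) : zc χ x = 0 := by
  have h1 := zc_tw χ x (Function.update 1 a σ)
  have h2 : (fun b => tw (x b) (Function.update (1 : A → (K ≃ₐ[L] K)) a σ b)) = x := by
    funext b
    by_cases hb : b = a
    · rw [hb, Function.update_self, h]
    · rw [Function.update_of_ne hb]
      exact tw_one _
  have h3 : ∏ b, ((χ (Function.update (1 : A → (K ≃ₐ[L] K)) a σ b) : kˣ) : k) = χ σ := by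
    rw [Finset.prod_eq_single a]
    · rw [Function.update_self]
    · intro b _ hb
      rw [Function.update_of_ne hb, Pi.one_apply, map_one, Units.val_one]
    · intro h
      exact absurd (Finset.mem_univ _) h
  rw [h2, h3] at h1
  have h4 : (1 - ((χ σ : kˣ) : k)) • zc χ x = 0 := by
    rw [sub_smul, one_smul, ← h1, sub_self]
  refine (smul_eq_zero.1 h4).resolve_left fun h5 => hσ ?_
  rw [sub_eq_zero] at h5
  exact Units.ext h5.symm

/-- The relation given by a function. -/
theorem zc_rel {F : Type} [Field F] [Algebra k F] [IsFF k F] {φ : F} (hφ : φ ≠ 0)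
    (χ : (K ≃ₐ[L] K) →* kˣ) (t : Place k F → A → Place k K) (ht : ∀ a, IsMor fun w => t w a) :
    ∑ w ∈ (divisor k φ).support, (w.ord φ : k) • zc χ (t w) ∈ RatK k K A := by
  have h1 : ∑ w ∈ (divisor k φ).support, (w.ord φ : k) • zc χ (t w) =
      ∑ τ : Perm A, ∑ g : A → (K ≃ₐ[L] K), (∏ a, (((χ (g a))⁻¹ : kˣ) : k)) •
        ∑ w ∈ (divisor k φ).support, (w.ord φ : k) •
          Finsupp.single (fun a => tw (t w (τ a)) (g a)) (1 : k) := by
    unfold zc
    simp only [Finset.smul_sum]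
    rw [Finset.sum_comm]
    refine Finset.sum_congr rfl fun τ _ => ?_
    rw [Finset.sum_comm]
    refine Finset.sum_congr rfl fun g _ => ?_
    refine Finset.sum_congr rfl fun w _ => ?_
    rw [smul_smul, Finsupp.smul_single, Finsupp.smul_single, smul_eq_mul, smul_eq_mul]
    congr 1
    ring
  rw [h1]
  refine Submodule.sum_mem _ fun τ _ => Submodule.sum_mem _ fun g _ => Submodule.smul_mem _ _ ?_
  refine rel_mem hφ (fun w a => tw (t w (τ a)) (g a)) fun a => ?_
  exact (isMor_tw (g a)).comp (ht (τ a))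

end

end Pool.Agent.H833.Tw
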