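import Pool.Agent.H833.Tw.Phi
import Pool.Agent.H833.Tw.Word

/-!
# Embeddings of a Galois extension of the function field of the base curve
-/

set_option autoImplicit false
set_option linter.unusedSectionVars false

namespace Pool.Agent.H833.Tw

open FF Pool.Agent.Y107.VC IntermediateField Module

section

variable {E L K F : Type} [Field E] [Field L] [Field K] [Field F] [Algebra E L] [Algebra E K]
  [Algebra E F] [Algebra L K] [IsScalarTower E L K]

/-- Two embeddings in a normal extension are conjugate. -/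
theorem exists_conj_emb [Normal E F] (j j0 : L →ₐ[E] F) :
    ∃ γ : F ≃ₐ[E] F, ∀ x, γ (j0 x) = j x := by
  let χ : j0.fieldRange ≃ₐ[E] j.fieldRange :=
    (AlgEquiv.ofInjectiveField j0).symm.trans (AlgEquiv.ofInjectiveField j)
  refine ⟨χ.liftNormal F, fun x => ?_⟩
  have h1 := χ.liftNormal_commutes F (AlgEquiv.ofInjectiveField j0 x)
  have h2 : χ (AlgEquiv.ofInjectiveField j0 x) = AlgEquiv.ofInjectiveField j x := by
    change (AlgEquiv.ofInjectiveField j) ((AlgEquiv.ofInjectiveField j0).symm
      (AlgEquiv.ofInjectiveField j0 x)) = _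
    rw [AlgEquiv.symm_apply_apply]
  rw [h2] at h1
  exact h1

theorem exists_lift_emb [Normal E F] (i0 : K →ₐ[E] F) (j : L →ₐ[E] F) :
    ∃ φ : K →ₐ[E] F, ∀ x : L, φ (algebraMap L K x) = j x := by
  obtain ⟨γ, hγ⟩ := exists_conj_emb j (i0.comp (IsScalarTower.toAlgHom E L K))
  exact ⟨γ.toAlgHom.comp i0, hγ⟩

/-- Two embeddings which agree on `L` differ by an element of the Galois group. -/
theorem exists_torsor [Normal L K] (φ ψ : K →ₐ[E] F)
    (h : ∀ x : L, φ (algebraMap L K x) = ψ (algebraMap L K x)) :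
    ∃ σ : K ≃ₐ[L] K, ∀ x, φ x = ψ (σ x) := by
  let _ : Algebra L F := (ψ.toRingHom.comp (algebraMap L K)).toAlgebra
  let _ : Algebra K F := ψ.toRingHom.toAlgebra
  have : IsScalarTower L K F := IsScalarTower.of_algebraMap_eq fun x => rfl
  let φ' : K →ₐ[L] F := { φ.toRingHom with commutes' := fun x => h x }
  let σ : K ≃ₐ[L] K := AlgHom.restrictNormal' φ' K
  refine ⟨σ, fun x => ?_⟩
  have h1 := AlgHom.restrictNormal_commutes φ' K x
  have h2 : algebraMap K F (AlgHom.restrictNormal φ' K x) = ψ (σ x) := rfl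
  rw [← h2, h1]
  rfl

theorem card_emb [FiniteDimensional E L] [IsGalois E F] [CharZero E] (j0 : L →ₐ[E] F) :
    Fintype.card (L →ₐ[E] F) = finrank E L := by
  refine AlgHom.card_of_splits E L F fun x => ?_
  have h1 : minpoly E (j0 x) = minpoly E x := minpoly.algHom_eq j0 j0.injective x
  rw [← h1]
  exact Normal.splits (inferInstance : Normal E F) (j0 x)

end

section

variable {k : Type} [Field k] [CharZero k] [IsAlgClosed k] {E L K F : Type} [Field E] [Field L]
  [Field K] [Field F] [Algebra k E] [Algebra k L] [Algebra k K] [Algebra k F] [Algebra E L]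
  [Algebra E K] [Algebra E F] [Algebra L K] [IsScalarTower k E L] [IsScalarTower k E K]
  [IsScalarTower k E F] [IsScalarTower k L K] [IsScalarTower E L K]

theorem adjoin_sub_const (f : L) (τ : k) : k⟮f - algebraMap k L τ⟯ = k⟮f⟯ := by
  apply le_antisymm
  · rw [adjoin_simple_le_iff]
    exact IntermediateField.sub_mem _ (mem_adjoin_simple_self k f)
      (IntermediateField.algebraMap_mem _ _)
  · rw [adjoin_simple_le_iff]
    have h1 : f = (f - algebraMap k L τ) + algebraMap k L τ := by ring
    have h2 : f ∈ k⟮f - algebraMap k L τ⟯ := by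
      have h3 := IntermediateField.add_mem k⟮f - algebraMap k L τ⟯
        (mem_adjoin_simple_self k (f - algebraMap k L τ)) (IntermediateField.algebraMap_mem _ τ)
      rwa [← h1] at h3
    exact h2

theorem finrank_adjoin {t : E} (htop : ∀ u : E, u ∈ k⟮t⟯) :
    finrank k⟮algebraMap E L t⟯ L = finrank E L := by
  let i : E →ₐ[k] L := IsScalarTower.toAlgHom k E L
  have h1 : i.fieldRange = k⟮algebraMap E L t⟯ := by
    have h2 : i.fieldRange = (⊤ : IntermediateField k E).map i := AlgHom.fieldRange_eq_map i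
    have h3 : (⊤ : IntermediateField k E) = k⟮t⟯ := by
      apply le_antisymm
      · exact fun u _ => htop u
      · exact le_top
    rw [h2, h3, adjoin_map, Set.image_singleton]
    rfl
  rw [← h1]
  symm
  exact Algebra.finrank_eq_of_equiv_equiv (AlgEquiv.ofInjectiveField i).toRingEquiv
    (RingEquiv.refl L) (by ext; rfl)

variable [IsFF k F] [FiniteDimensional E F] [IsGalois E F]

theorem conj_val {t : E} (ht : Transcendental k t) (htop : ∀ u : E, u ∈ k⟮t⟯) {τ : k}
    {w w' : Place k F} (hw : 0 < w.ord (algebraMap E F t - algebraMap k F τ))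
    (hw' : 0 < w'.ord (algebraMap E F t - algebraMap k F τ)) :
    ∃ γ : F ≃ₐ[E] F, w' = w.comp (γ.restrictScalars k) := by
  have hTt : Transcendental k (algebraMap E F t) := fun h =>
    ht ((isAlgebraic_algebraMap_iff (algebraMap E F).injective).1 h)
  have hT := sub_ne_zero_of_transcendental hTt
  refine exists_conj' (E := E) w w' fun u hu => ?_
  by_cases hu0 : u = 0
  · rw [hu0, map_zero, w'.ord_zero]
  obtain ⟨c, n, hc, hcn, -⟩ := exists_fac (F := F) ht htop hu0
  rw [hcn, ord_fac hT hw hc] at hu
  rw [hcn, ord_fac hT hw' hc, (mul_eq_zero.1 hu).resolve_right hw.ne', zero_mul]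

theorem conj_pole {t : E} (ht : Transcendental k t) (htop : ∀ u : E, u ∈ k⟮t⟯)
    {w w' : Place k F} (hw : w.ord (algebraMap E F t) < 0)
    (hw' : w'.ord (algebraMap E F t) < 0) :
    ∃ γ : F ≃ₐ[E] F, w' = w.comp (γ.restrictScalars k) := by
  have hTt : Transcendental k (algebraMap E F t) := fun h =>
    ht ((isAlgebraic_algebraMap_iff (algebraMap E F).injective).1 h)
  have hT := sub_ne_zero_of_transcendental hTt
  refine exists_conj' (E := E) w w' fun u hu => ?_
  by_cases hu0 : u = 0
  · rw [hu0, map_zero, w'.ord_zero]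
  obtain ⟨c, n, hc, hcn, -⟩ := exists_fac (F := F) ht htop hu0
  have h1 : ∀ w : Place k F, w.ord (algebraMap E F t) < 0 →
      w.ord (algebraMap E F u) = (∑ τ ∈ n.support, n τ) * w.ord (algebraMap E F t) := by
    intro w hw
    rw [hcn, w.ord_mul (by rw [Ne, map_eq_zero]; exact hc) (fac_ne_zero hT n),
      w.ord_const hc, zero_add]
    unfold fac Finsupp.prod
    rw [ord_prod _ _ _ fun τ _ => zpow_ne_zero _ (hT τ), Finset.sum_mul]
    refine Finset.sum_congr rfl fun τ _ => ?_
    rw [w.ord_zpow, ord_sub_const_of_neg hw]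
  rw [h1 w hw] at hu
  rw [h1 w' hw', (mul_eq_zero.1 hu).resolve_right (by omega), zero_mul]

variable [IsFF k L] [FiniteDimensional E L]

/-- The number of embeddings under which `w` lies over `v`. -/
noncomputable def cntE (w : Place k F) (v : Place k L) : ℤ :=
  ∑ j : L →ₐ[E] F, (open Classical in if Lies (j.restrictScalars k) w v then (1 : ℤ) else 0)

theorem cntE_comp (w : Place k F) (γ : F ≃ₐ[E] F) (v : Place k L) :
    cntE (E := E) (w.comp (γ.restrictScalars k)) v = cntE (E := E) w v := by
  classical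
  unfold cntE
  let π : (L →ₐ[E] F) ≃ (L →ₐ[E] F) :=
    { toFun := fun i => γ.toAlgHom.comp i
      invFun := fun i => γ.symm.toAlgHom.comp i
      left_inv := fun i => AlgHom.ext fun x => γ.symm_apply_apply _
      right_inv := fun i => AlgHom.ext fun x => γ.apply_symm_apply _ }
  refine Fintype.sum_equiv π _ _ fun i => ?_
  have h3 : Lies (i.restrictScalars k) (w.comp (γ.restrictScalars k)) v ↔
    Lies ((π i).restrictScalars k) w v := Iff.rfl
  rw [if_congr h3 rfl rfl]

theorem cntE_aux (f : L) (hf : Transcendental k f) (g : E)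
    (hg : algebraMap E L g = f) (hfin : finrank k⟮f⟯ L = finrank E L) (j0 : L →ₐ[E] F)
    (hconj : ∀ w w' : Place k F, 0 < w.ord (algebraMap E F g) → 0 < w'.ord (algebraMap E F g) →
      ∃ γ : F ≃ₐ[E] F, w' = w.comp (γ.restrictScalars k))
    (w : Place k F) (hw : 0 < w.ord (algebraMap E F g)) (v : Place k L) :
    cntE (E := E) w v = max (v.ord f) 0 := by
  have hchar : CharZero E := charZero_of_injective_algebraMap (algebraMap k E).injective
  refine count (fun j : L →ₐ[E] F => j.restrictScalars k) f (algebraMap E F g) hf (fun j => ?_)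
    (finrank E F) (fun j => ?_) ?_ (cntE (E := E)) (fun _ _ => rfl) (fun w w' v h h' => ?_) w hw v
  · rw [← hg]
    exact j.commutes g
  · rw [card_emb j0]
    exact finrank_hom j
  · rw [card_emb j0, hfin]
  · obtain ⟨γ, rfl⟩ := hconj w w' h h'
    exact (cntE_comp w γ v).symm

theorem cntE_val {t : E} (ht : Transcendental k t) (htop : ∀ u : E, u ∈ k⟮t⟯) (j0 : L →ₐ[E] F)
    {τ : k} {w : Place k F} (hw : 0 < w.ord (algebraMap E F t - algebraMap k F τ))
    (v : Place k L) :
    cntE (E := E) w v = max (v.ord (algebraMap E L t - algebraMap k L τ)) 0 := by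
  have htL : Transcendental k (algebraMap E L t) := fun h =>
    ht ((isAlgebraic_algebraMap_iff (algebraMap E L).injective).1 h)
  have hF : algebraMap E F (t - algebraMap k E τ) = algebraMap E F t - algebraMap k F τ := by
    rw [map_sub, ← IsScalarTower.algebraMap_apply]
  refine cntE_aux _ ?_ (t - algebraMap k E τ) ?_ ?_ j0 (fun w w' h h' => ?_) w ?_ v
  · intro h
    have h1 := h.add (isAlgebraic_algebraMap (R := k) (A := L) τ)
    rw [sub_add_cancel] at h1
    exact htL h1
  · rw [map_sub, ← IsScalarTower.algebraMap_apply]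
  · rw [adjoin_sub_const, finrank_adjoin htop]
  · rw [hF] at h h'
    exact conj_val ht htop h h'
  · rw [hF]
    exact hw

theorem cntE_pole {t : E} (ht : Transcendental k t) (htop : ∀ u : E, u ∈ k⟮t⟯)
    (j0 : L →ₐ[E] F) {w : Place k F} (hw : w.ord (algebraMap E F t) < 0) (v : Place k L) :
    cntE (E := E) w v = max (-v.ord (algebraMap E L t)) 0 := by
  have htL : Transcendental k (algebraMap E L t) := fun h =>
    ht ((isAlgebraic_algebraMap_iff (algebraMap E L).injective).1 h)
  have h1 := cntE_aux (k := k) (F := F) (algebraMap E L t)⁻¹ (fun h1 => htL (by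
    simpa using h1.inv)) t⁻¹ (by rw [map_inv₀]) (by rw [adjoin_inv, finrank_adjoin htop]) j0
    (fun w w' h h' => by
      rw [map_inv₀, Place.ord_inv] at h h'
      exact conj_pole ht htop (by omega) (by omega)) w (by
      rw [map_inv₀, w.ord_inv]
      omega) v
  rw [h1, v.ord_inv]

end

end Pool.Agent.H833.Tw
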