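import Pool.Agent.H833.Tw.Phi

/-!
# The existence of the functions defining the pencils
-/

set_option autoImplicit false
set_option linter.unusedSectionVars false

namespace Pool.Agent.H833.Tw

open FF Pool.Agent.Y107.VC IntermediateField Module
open Pool.Agent.W603.LV

section

variable {k : Type} [Field k] [CharZero k] [IsAlgClosed k] {L : Type} [Field L] [Algebra k L]

theorem const_of_algebraic {z : L} (h : IsAlgebraic k z) : ∃ c : k, z = algebraMap k L c := by
  obtain ⟨c', hc'⟩ := minpoly.mem_range_of_degree_eq_one k z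
    (IsAlgClosed.degree_eq_one_of_irreducible k (minpoly.irreducible h.isIntegral))
  exact ⟨c', hc'.symm⟩

variable [IsFF k L]

theorem const_unique {v : Place k L} {f : L} {c c' : k} (h : Ge v 1 (f - algebraMap k L c))
    (h' : Ge v 1 (f - algebraMap k L c')) : c = c' := by
  by_contra hne
  have h1 := h'.sub h
  have h2 : f - algebraMap k L c' - (f - algebraMap k L c) = algebraMap k L (c - c') := by
    rw [map_sub]
    ring
  rw [h2] at h1
  rcases h1 with h1 | h1
  · rw [map_eq_zero, sub_eq_zero] at h1
    exact hne h1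
  · rw [v.ord_const (sub_ne_zero.2 hne)] at h1
    omega

open Classical in
/-- The value of a function at a point. -/
noncomputable def vl (v : Place k L) (f : L) : k :=
  if h : Ge v 0 f then (exists_const v h).choose else 0

theorem vl_spec {v : Place k L} {f : L} (h : Ge v 0 f) : Ge v 1 (f - algebraMap k L (vl v f)) := by
  unfold vl
  rw [dif_pos h]
  exact (exists_const v h).choose_spec

theorem vl_add {v : Place k L} {f g : L} (hf : Ge v 0 f) (hg : Ge v 0 g) :
    vl v (f + g) = vl v f + vl v g := by
  refine const_unique (vl_spec (hf.add hg)) ?_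
  have h1 := (vl_spec hf).add (vl_spec hg)
  rw [map_add]
  convert h1 using 1
  ring

theorem vl_smul {v : Place k L} {f : L} (hf : Ge v 0 f) (c : k) :
    vl v (c • f) = c * vl v f := by
  have h0 : Ge v 0 (c • f) := by
    rw [Algebra.smul_def]
    have h1 := (Ge.const (P := v) c).mul hf
    rwa [zero_add] at h1
  refine const_unique (vl_spec h0) ?_
  have h1 := (Ge.const (P := v) c).mul (vl_spec hf)
  rw [zero_add] at h1
  rw [map_mul, Algebra.smul_def, ← mul_sub]
  exact h1

/-- The evaluation at a point outside of the support of an effective divisor. -/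
noncomputable def evl (D : Place k L →₀ ℤ) (v : Place k L) (hv : D v = 0) : LL D →ₗ[k] k where
  toFun f := vl v (f : L)
  map_add' f g := by
    have hr : ∀ f : LL D, Ge v 0 (f : L) := fun f => by
      rcases mem_LL.1 f.2 with h | h
      · exact Or.inl h
      · right
        have := h v
        omega
    exact vl_add (hr f) (hr g)
  map_smul' c f := by
    have hr : Ge v 0 (f : L) := by
      rcases mem_LL.1 f.2 with h | h
      · exact Or.inl h
      · right
        have := h v
        omega
    exact vl_smul hr c

theorem evl_apply (D : Place k L →₀ ℤ) (v : Place k L) (hv : D v = 0) (f : LL D) :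
    evl D v hv f = vl v (f : L) := rfl

variable {A : Type} [Fintype A] [DecidableEq A]

/-- The divisor of a word. -/
noncomputable def wdiv (x : A → Place k L) : Place k L →₀ ℤ := ∑ a, Finsupp.single (x a) 1

theorem wdiv_apply (x : A → Place k L) (v : Place k L) : wdiv x v = cnt x v := by
  classical
  simp only [wdiv, Finsupp.finsetSum_apply, Finsupp.single_apply, cnt]

theorem ddeg_wdiv (x : A → Place k L) : ddeg (wdiv x) = Fintype.card A := by
  classical
  have hddsum : ∀ s : Finset A, ddeg (∑ a ∈ s, Finsupp.single (x a) (1 : ℤ)) = s.card := by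
    intro s
    induction s using Finset.induction_on with
    | empty => rw [Finset.sum_empty, ddeg_zero, Finset.card_empty]; rfl
    | insert a s ha ih =>
      rw [Finset.sum_insert ha, ddeg_add, ih, ddeg_single, deg_one, Finset.card_insert_of_notMem ha]
      push_cast
      ring
  unfold wdiv
  rw [hddsum, Finset.card_univ]

/-- The pencil. -/
theorem exists_pencil_fun (x : A → Place k L) {R : Finset (Place k L)}
    (hxR : ∀ a, x a ∉ R) {Q : Type} (cl : Place k L → Q) (ρ : Q → Place k L)
    (hρ : ∀ v ∈ R, ρ (cl v) ∈ R) {N : ℕ} {R' : Finset (Place k L)}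
    (hR' : ∀ v ∈ R, v ∈ R' ∨ ρ (cl v) = v) (hR'R : R' ⊆ R) (hN : R'.card = N)
    (hcard : genus k L + N + 1 ≤ Fintype.card A) :
    ∃ (h : L) (val : Q → k), Transcendental k h ∧
      (∀ v ∈ R, 0 < v.ord (h - algebraMap k L (val (cl v)))) ∧
      ∀ v, max (-v.ord h) 0 ≤ cnt x v := by
  classical
  let D := wdiv x
  have hD : ∀ v ∈ R, D v = 0 := by
    intro v hv
    rw [wdiv_apply]
    unfold cnt
    refine Finset.sum_eq_zero fun a _ => if_neg ?_
    rintro rfl
    exact hxR a hv
  let Φ : LL D →ₗ[k] ({v // v ∈ R'} → k) := LinearMap.pi fun v =>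
    evl D v (hD v (hR'R v.2)) - evl D (ρ (cl v)) (hD _ (hρ v (hR'R v.2)))
  have h1 : (N : ℤ) + 2 ≤ finrank k (LL D) := by
    have h2 := genus_spec D
    rw [ddeg_wdiv] at h2
    have h3 : ell D = (finrank k (LL D) : ℤ) := rfl
    have h4 : ((genus k L + N + 1 : ℕ) : ℤ) ≤ (Fintype.card A : ℕ) := by exact_mod_cast hcard
    push_cast at h4
    linarith
  have h2 : finrank k (LinearMap.ker Φ) + finrank k (LinearMap.range Φ) = finrank k (LL D) := by
    rw [add_comm]
    exact LinearMap.finrank_range_add_finrank_ker Φ
  have h3 : finrank k (LinearMap.range Φ) ≤ N := by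
    have h4 := Submodule.finrank_le (LinearMap.range Φ)
    rw [finrank_fintype_fun_eq_card, Fintype.card_coe, hN] at h4
    exact h4
  have h4 : 1 < finrank k (LinearMap.ker Φ) := by omega
  -- the constant functions
  have h5 : ∃ f ∈ LinearMap.ker Φ, ∀ c : k, (f : L) ≠ algebraMap k L c := by
    by_contra hcon
    push Not at hcon
    have h6 : finrank k (LinearMap.ker Φ) ≤ 1 := by
      have h8 : ∀ z : LinearMap.ker Φ, ∃ c : k, ((z : LL D) : L) = algebraMap k L c := fun z =>
        hcon z.1 z.2
      by_cases h9 : ∀ z : LinearMap.ker Φ, z = 0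
      · have : Subsingleton (LinearMap.ker Φ) := ⟨fun a b => by rw [h9 a, h9 b]⟩
        rw [finrank_zero_of_subsingleton]
        exact Nat.zero_le 1
      · push Not at h9
        obtain ⟨z0, hz0⟩ := h9
        obtain ⟨c0, hc0⟩ := h8 z0
        have hc0' : c0 ≠ 0 := by
          rintro rfl
          apply hz0
          apply Subtype.ext
          apply Subtype.ext
          rw [hc0, map_zero]
          rfl
        refine finrank_le_one z0 fun z => ?_
        obtain ⟨c, hc⟩ := h8 z
        refine ⟨c / c0, ?_⟩
        apply Subtype.ext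
        apply Subtype.ext
        change (c / c0) • ((z0 : LL D) : L) = ((z : LL D) : L)
        rw [hc0, hc, Algebra.smul_def, ← map_mul, div_mul_cancel₀ _ hc0']
    omega
  obtain ⟨f, hf, hfc⟩ := h5
  have hft : Transcendental k (f : L) := fun h => by
    obtain ⟨c, hc⟩ := const_of_algebraic h
    exact hfc c hc
  have hf0 : (f : L) ≠ 0 := by
    intro h
    exact hfc 0 (by rw [h, map_zero])
  have hfD : ∀ v, -D v ≤ v.ord (f : L) := (mem_LL.1 f.2).resolve_left hf0
  refine ⟨f, fun q => vl (ρ q) (f : L), hft, fun v hv => ?_, fun v => ?_⟩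
  · have hreg : Ge v 0 (f : L) := by
      right
      have := hfD v
      rw [hD v hv] at this
      omega
    have h6 : vl v (f : L) = vl (ρ (cl v)) (f : L) := by
      rcases hR' v hv with h | h
      · have h7 := congrFun (LinearMap.mem_ker.1 hf) ⟨v, h⟩
        change vl v (f : L) - vl (ρ (cl v)) (f : L) = 0 at h7
        exact sub_eq_zero.1 h7
      · rw [h]
    have h7 := vl_spec hreg
    rw [h6] at h7
    rcases h7 with h7 | h7
    · exact absurd (sub_eq_zero.1 h7) (hfc _)
    · change 0 < v.ord ((f : L) - algebraMap k L (vl (ρ (cl v)) (f : L)))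
      omega
  · have h6 := hfD v
    rw [wdiv_apply] at h6
    have h7 : (0 : ℤ) ≤ cnt x v := by
      unfold cnt
      exact Finset.sum_nonneg fun a _ => by split_ifs <;> omega
    exact max_le (by omega) h7

/-- Riemann's inequality: an effective divisor of degree greater than the genus can be moved to
pass through a given point. -/
theorem exists_move_fun (hA : genus k L + 1 ≤ Fintype.card A) (x : A → Place k L)
    (x0 : Place k L) :
    ∃ (y : A → Place k L) (f : L), f ≠ 0 ∧ (∃ a, y a = x0) ∧
      ∀ v, cnt y v = cnt x v + v.ord f := by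
  classical
  let D : Place k L →₀ ℤ := wdiv x - Finsupp.single x0 1
  have hDv : ∀ v, D v = cnt x v - (if x0 = v then 1 else 0) := by
    intro v
    simp only [D, Finsupp.sub_apply, Finsupp.single_apply, wdiv_apply]
  have hD : (genus k L : ℤ) ≤ ddeg D := by
    have h1 : ddeg D = ddeg (wdiv x) - ddeg (Finsupp.single x0 (1 : ℤ)) := ddeg_sub _ _
    rw [h1, ddeg_wdiv, ddeg_single, deg_one]
    push_cast
    have h2 : ((genus k L + 1 : ℕ) : ℤ) ≤ (Fintype.card A : ℕ) := by exact_mod_cast hA
    push_cast at h2
    linarith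
  have hell : 0 < ell D := by
    have := genus_spec D
    linarith
  obtain ⟨f, hf, hf0⟩ := exists_ne_zero_of_ell_pos hell
  rw [mem_LL] at hf
  have hf' := hf.resolve_left hf0
  let M0 : Place k L →₀ ℤ := wdiv x + divisor k f
  have hM0v : ∀ v, M0 v = cnt x v + v.ord f := by
    intro v
    simp only [M0, Finsupp.add_apply, divisor_apply, wdiv_apply]
  have hM0 : ∀ v, (if x0 = v then 1 else 0) ≤ M0 v := by
    intro v
    have h1 := hf' v
    rw [hDv] at h1
    rw [hM0v]
    linarith
  have hM0' : ∀ v, 0 ≤ M0 v := by
    intro v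
    have := hM0 v
    split_ifs at this <;> omega
  let M : Place k L →₀ ℕ := M0.mapRange Int.toNat rfl
  have hMv : ∀ v, (M v : ℤ) = M0 v := fun v => Int.toNat_of_nonneg (hM0' v)
  have hsupp : M.support = M0.support := by
    ext v
    rw [Finsupp.mem_support_iff, Finsupp.mem_support_iff]
    have := hMv v
    omega
  have hMs : ∑ v ∈ M.support, M v = Fintype.card A := by
    have h1 : ddeg M0 = Fintype.card A := by
      have h2 : ddeg M0 = ddeg (wdiv x) + ddeg (divisor k f) := ddeg_add _ _
      rw [h2, ddeg_wdiv, ddeg_divisor, add_zero]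
    have h2 : ((∑ v ∈ M.support, M v : ℕ) : ℤ) = ddeg M0 := by
      unfold ddeg Finsupp.sum
      rw [hsupp]
      push_cast
      refine Finset.sum_congr rfl fun v _ => ?_
      change (M v : ℤ) = M0 v * (v.deg : ℤ)
      rw [hMv, deg_one]
      push_cast
      rw [mul_one]
    rw [h1] at h2
    exact_mod_cast h2
  obtain ⟨y, hy⟩ := exists_word (A := A) M hMs
  refine ⟨y, f, hf0, ?_, fun v => by rw [hy, hMv, hM0v]⟩
  by_contra hcon
  push Not at hcon
  have h1 : cnt y x0 = 0 := by
    unfold cnt
    exact Finset.sum_eq_zero fun a _ => if_neg (hcon a)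
  rw [hy, hMv] at h1
  have h2 := hM0 x0
  rw [if_pos rfl, h1] at h2
  omega

end

end Pool.Agent.H833.Tw
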