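import Pool.Agent.H833.Tw.Bal

/-!
# The number of branch points, and the generalised Voisin conjecture for balanced abelian covers
-/

set_option autoImplicit false
set_option linter.unusedSectionVars false

namespace Pool.Agent.H833.Tw

open FF Pool.Agent.Y107.VC Module Equiv
open Pool.Agent.W603.LV (deg_one Ge exists_const)

section

variable {k : Type} [Field k] [CharZero k] {L K : Type} [Field L]
  [Field K] [Algebra k L] [Algebra k K] [Algebra L K] [IsScalarTower k L K]

/-- The branch points of the character `χ` of the Galois group of the cover given by `K / L`: the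
points `v` of the base such that `χ` is not trivial on the stabilizer of a point `w` over `v`. -/
def branch (χ : (K ≃ₐ[L] K) →* kˣ) : Set (Place k L) :=
  {v | ∃ w : Place k K, Lies (IsScalarTower.toAlgHom k L K) w v ∧
    ∃ σ : K ≃ₐ[L] K, w.comp (σ.restrictScalars k) = w ∧ χ σ ≠ 1}

open Classical in
/-- The dimension `h(χ)` of the `χ`-eigenspace of the space of holomorphic differentials
(Chevalley-Weil) for a balanced character `χ`: the genus of the base if `χ = 1`, and
`g - 1 + r / 2` if `χ ≠ 1` has `r` branch points. -/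
noncomputable def hdim [IsAlgClosed k] [IsFF k L] (χ : (K ≃ₐ[L] K) →* kˣ) : ℕ :=
  if χ = 1 then genus k L else genus k L + (branch χ).ncard / 2 - 1

end

section

variable {k : Type} [Field k] [CharZero k] [IsAlgClosed k] {L K : Type} [Field L]
  [Field K] [Algebra k L] [Algebra k K] [Algebra L K] [IsScalarTower k L K]
  [IsFF k K] [IsFF k L] [FiniteDimensional L K] [IsGalois L K]

/-- If the order of `f` is divisible by `m`, then `χ` is trivial on the stabilizers. -/
theorem chi_eq_one_of_dvd (χ : (K ≃ₐ[L] K) →* kˣ) {y : K} (hy : y ≠ 0)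
    (hyχ : ∀ σ : K ≃ₐ[L] K, σ y = algebraMap k K (χ σ) * y) {m : ℕ} (hm : 0 < m) {f : L}
    (hf : algebraMap L K f = y ^ m) {w : Place k K} {v : Place k L}
    (hwv : Lies (IsScalarTower.toAlgHom k L K) w v) (hdvd : (m : ℤ) ∣ v.ord f)
    {σ : K ≃ₐ[L] K} (hσ : tw w σ = w) : χ σ = 1 := by
  obtain ⟨c, hc⟩ := hdvd
  obtain ⟨π, hπ0, hπ⟩ := v.surj
  obtain ⟨e, he, hwv⟩ := hwv
  have hwv' : ∀ u : L, w.ord (algebraMap L K u) = e * v.ord u := hwv
  let u : L := π ^ c
  have hu0 : u ≠ 0 := zpow_ne_zero _ hπ0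
  have hu : v.ord u = c := by
    change v.ord (π ^ c) = c
    rw [v.ord_zpow, hπ, mul_one]
  have huK : algebraMap L K u ≠ 0 := by rw [Ne, map_eq_zero]; exact hu0
  let y' : K := y / algebraMap L K u
  have hy'0 : y' ≠ 0 := div_ne_zero hy huK
  have hy'ord : w.ord y' = 0 := by
    have h1 : w.ord (y ^ m) = m * w.ord y := w.ord_pow _ _
    rw [← hf, hwv', hc] at h1
    have h2 : w.ord y' = w.ord y - w.ord (algebraMap L K u) := w.ord_div hy huK
    rw [h2, hwv', hu]
    have hm0 : (m : ℤ) ≠ 0 := by exact_mod_cast hm.ne'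
    refine mul_left_cancel₀ hm0 ?_
    linear_combination -h1
  have hσy' : σ y' = algebraMap k K (χ σ) * y' := by
    change σ (y / algebraMap L K u) = _
    rw [map_div₀, σ.commutes, hyχ, mul_div_assoc]
  obtain ⟨c0, hc0⟩ := exists_const w (f := y') (Or.inr hy'ord.ge)
  have h1 : Ge w 1 (σ y' - algebraMap k K c0) := by
    have h2 : σ (y' - algebraMap k K c0) = σ y' - algebraMap k K c0 := by
      rw [map_sub, IsScalarTower.algebraMap_apply k L K, σ.commutes]
    rw [← h2]
    exact ge_tw (by rw [hσ]; exact hc0)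
  have h2 : Ge w 1 (algebraMap k K ((χ σ : kˣ) - 1 : k) * y') := by
    have h3 := h1.sub hc0
    have h4 : σ y' - algebraMap k K c0 - (y' - algebraMap k K c0) =
        algebraMap k K ((χ σ : kˣ) - 1 : k) * y' := by
      rw [hσy', map_sub, map_one]
      ring
    rwa [h4] at h3
  by_contra hne
  have h3 : ((χ σ : kˣ) - 1 : k) ≠ 0 := by
    intro h4
    rw [sub_eq_zero] at h4
    exact hne (Units.ext h4)
  have h4 : algebraMap k K ((χ σ : kˣ) - 1 : k) ≠ 0 := by rw [Ne, map_eq_zero]; exact h3
  rcases h2 with h2 | h2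
  · exact mul_ne_zero h4 hy'0 h2
  · rw [w.ord_mul h4 hy'0, w.ord_const h3, hy'ord] at h2
    omega

theorem mem_branch_iff {χ : (K ≃ₐ[L] K) →* kˣ} {y : K} (hy : y ≠ 0)
    (hyχ : ∀ σ : K ≃ₐ[L] K, σ y = algebraMap k K (χ σ) * y) {m : ℕ} (hm : 0 < m) {f : L}
    (hf : algebraMap L K f = y ^ m) (v : Place k L) : v ∈ branch χ ↔ ¬(m : ℤ) ∣ v.ord f := by
  constructor
  · rintro ⟨w, hw, σ, hσ, hne⟩ hdvd
    exact hne (chi_eq_one_of_dvd χ hy hyχ hm hf hw hdvd hσ)
  · intro h
    obtain ⟨w, hw⟩ := exists_above (k := k) (K := K) v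
    have hw' : Lies (IsScalarTower.toAlgHom k L K) w v := by
      rw [← hw]
      exact lies_dn w
    by_contra hcon
    apply h
    refine dvd_of_stab χ hy hyχ hf hw' fun σ hσ => ?_
    by_contra hne
    exact hcon ⟨w, hw', σ, hσ, hne⟩

theorem Balanced.ncard_branch {χ : (K ≃ₐ[L] K) →* kˣ} {p : ℕ} (h : Balanced k χ p) :
    (branch χ).ncard = 2 * p := by
  classical
  obtain ⟨y, m, f, a, b, e, hy, hyχ, hm, hf, hinj, he, hdiv⟩ := h
  have h1 : branch χ = Set.range (Sum.elim a b) := by
    ext v
    rw [mem_branch_iff hy hyχ hm hf]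
    constructor
    · intro hv
      by_contra hcon
      apply hv
      have h3 := hdiv v
      have h4 : ∑ j, e j * ((if a j = v then 1 else 0) - (if b j = v then 1 else 0)) = 0 := by
        refine Finset.sum_eq_zero fun j _ => ?_
        have h5 : a j ≠ v := fun h => hcon ⟨Sum.inl j, h⟩
        have h6 : b j ≠ v := fun h => hcon ⟨Sum.inr j, h⟩
        rw [if_neg h5, if_neg h6, sub_zero, mul_zero]
      rwa [h4, sub_zero] at h3
    · rintro ⟨i, rfl⟩ hdvd
      have h3 := hdiv (Sum.elim a b i)
      rcases i with i | i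
      · have h4 : ∑ j, e j * ((if a j = a i then 1 else 0) -
            (if b j = a i then 1 else 0)) = e i := by
          rw [Finset.sum_eq_single i]
          · rw [if_pos rfl, if_neg, sub_zero, mul_one]
            intro h
            simpa using hinj (a₁ := Sum.inr i) (a₂ := Sum.inl i) h
          · intro j _ hj
            rw [if_neg, if_neg, sub_zero, mul_zero]
            · intro h
              simpa using hinj (a₁ := Sum.inr j) (a₂ := Sum.inl i) h
            · intro h
              exact hj (by simpa using hinj (a₁ := Sum.inl j) (a₂ := Sum.inl i) h)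
          · intro h
            exact absurd (Finset.mem_univ _) h
        rw [Sum.elim_inl, h4] at h3
        exact he i ((dvd_sub_right hdvd).1 h3)
      · have h4 : ∑ j, e j * ((if a j = b i then 1 else 0) -
            (if b j = b i then 1 else 0)) = -e i := by
          rw [Finset.sum_eq_single i]
          · rw [if_neg, if_pos rfl, zero_sub, mul_neg, mul_one]
            intro h
            simpa using hinj (a₁ := Sum.inl i) (a₂ := Sum.inr i) h
          · intro j _ hj
            rw [if_neg, if_neg, sub_zero, mul_zero]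
            · intro h
              exact hj (by simpa using hinj (a₁ := Sum.inr j) (a₂ := Sum.inr i) h)
            · intro h
              simpa using hinj (a₁ := Sum.inl j) (a₂ := Sum.inr i) h
          · intro h
            exact absurd (Finset.mem_univ _) h
        rw [Sum.elim_inr, h4, sub_neg_eq_add] at h3
        exact he i ((dvd_add_right hdvd).1 h3)
  rw [h1, ← Set.image_univ, Set.ncard_image_of_injective _ hinj, Set.ncard_univ]
  rw [Nat.card_eq_fintype_card, Fintype.card_sum, Fintype.card_fin]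
  ring

end

section

variable {k : Type} [Field k] [CharZero k] [IsAlgClosed k] {T : Type} [Fintype T]
  [DecidableEq T]
  {L K : T → Type} [∀ t, Field (L t)] [∀ t, Field (K t)] [∀ t, Algebra k (L t)]
  [∀ t, Algebra k (K t)] [∀ t, Algebra (L t) (K t)] [∀ t, IsScalarTower k (L t) (K t)]
  [∀ t, IsFF k (L t)] [∀ t, IsFF k (K t)] [∀ t, FiniteDimensional (L t) (K t)]
  [∀ t, IsGalois (L t) (K t)]

/-- The dimension of the space of the holomorphic forms of top degree on the quotient of the
product of the curves by `Γ`: the sum of the products of the dimensions of the eigenspaces over the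
characters of the product of the groups which are trivial on `Γ`. -/
noncomputable def pgen (k : Type) [Field k] [CharZero k] [IsAlgClosed k] {T : Type} [Fintype T]
    {L K : T → Type} [∀ t, Field (L t)] [∀ t, Field (K t)] [∀ t, Algebra k (L t)]
    [∀ t, Algebra k (K t)] [∀ t, Algebra (L t) (K t)] [∀ t, IsScalarTower k (L t) (K t)]
    [∀ t, IsFF k (L t)] (Γ : Subgroup (∀ t, K t ≃ₐ[L t] K t)) : ℕ :=
  ∑ᶠ η : {η : ∀ t, ((K t ≃ₐ[L t] K t) →* kˣ) // ∀ γ ∈ Γ, ∏ t, η t (γ t) = 1},
    ∏ t, hdim (η.1 t)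

theorem voisin_balanced (hcomm : ∀ t, ∀ σ τ : K t ≃ₐ[L t] K t, σ * τ = τ * σ)
    (hbal : ∀ t, ∀ χ : (K t ≃ₐ[L t] K t) →* kˣ, χ ≠ 1 → ∃ p, 0 < p ∧ Balanced k χ p)
    (Γ : Subgroup (∀ t, K t ≃ₐ[L t] K t)) {n : ℕ} (hn : pgen k Γ < n)
    (a : Fin n → (∀ t, Place k (K t)) →₀ ℚ)
    (hinv : ∀ (j : Fin n), ∀ γ ∈ Γ, Finsupp.mapDomain (actX γ) (a j) = a j)
    (hprim : ∀ (j : Fin n) (e : T),
      Finsupp.mapDomain (fun x (t : {t // t ≠ e}) => x t.1) (a j) ∈
        Rat k fun t : {t // t ≠ e} => K t.1) :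
    ∑ σ : Perm (Fin n), ((Perm.sign σ : ℤ) : ℚ) ^ (Fintype.card T + 1) •
      ext (P := fun t => Place k (K t)) (fun j => a (σ j)) ∈
        Rat k fun p : Fin n × T => K p.2 := by
  classical
  let _ : ∀ t, Fintype ((K t ≃ₐ[L t] K t) →* kˣ) := fun t => Fintype.ofFinite _
  have hH : IsDim (fun s : Ty k L K => hdim s.2) := by
    intro s
    refine ⟨fun h => if_pos h, fun h => ?_⟩
    obtain ⟨p, hp, hbp⟩ := hbal s.1 s.2 h
    have h1 : hdim s.2 = genus k (L s.1) + p - 1 := by
      unfold hdim
      rw [if_neg h, hbp.ncard_branch]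
      congr 2
      omega
    change SymVan k s.2 (hdim s.2)
    rw [h1]
    exact hbp.symVan hp
  refine voisin_quotient hcomm hH Γ ?_ a hinv hprim
  have h1 : ∑ η : Chs k L K, (if TrivOn Γ η then ∏ t, hdim (η t) else 0) = pgen k Γ := by
    unfold pgen
    rw [finsum_eq_sum_of_fintype, ← Finset.sum_filter]
    symm
    refine (Finset.sum_subtype _ (fun η => ?_) fun η : Chs k L K => ∏ t, hdim (η t)).symm
    rw [Finset.mem_filter]
    exact ⟨fun h => h.2, fun h => ⟨Finset.mem_univ _, h⟩⟩
  change ∑ η : Chs k L K, (if TrivOn Γ η then ∏ t, hdim (η t) else 0) < n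
  rw [h1]
  exact hn

end

end Pool.Agent.H833.Tw
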