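import Pool.Agent.H833.Tw.Main2
import Pool.Graph.R_pool_sql_team_seeded_1acbe0a2.Y107.VC.Main

/-!
# Products of abelian covers
-/

set_option autoImplicit false
set_option linter.unusedSectionVars false
set_option maxHeartbeats 1000000

namespace Pool.Agent.H833.Tw

open FF Pool.Agent.Y107.VC Module Equiv
open Pool.Agent.H204R3.SP (permsOf mem_permsOf)

section

variable {k : Type} [Field k] [CharZero k] [IsAlgClosed k] {T κ : Type} [Fintype κ]
  [DecidableEq κ] [Fintype T] [DecidableEq T]
  {L K : T → Type} [∀ t, Field (L t)] [∀ t, Field (K t)] [∀ t, Algebra k (L t)]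
  [∀ t, Algebra k (K t)] [∀ t, Algebra (L t) (K t)] [∀ t, IsScalarTower k (L t) (K t)]
  [∀ t, IsFF k (L t)] [∀ t, IsFF k (K t)] [∀ t, FiniteDimensional (L t) (K t)]
  [∀ t, IsGalois (L t) (K t)]

/-- The zero-cycles on the powers of the disjoint union of the curves, with coefficients in `k`,
which are rationally equivalent to zero. -/
noncomputable def RU (k : Type) [Field k] [CharZero k] {T : Type} (κ : Type) (K : T → Type)
    [∀ t, Field (K t)] [∀ t, Algebra k (K t)] : Submodule k ((κ → Σ t, Place k (K t)) →₀ k) :=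
  up k (RatU k κ K)

/-- The action of the product of the Galois groups on the disjoint union of the curves. -/
noncomputable def act (g : ∀ t, K t ≃ₐ[L t] K t) (u : Σ t, Place k (K t)) :
    Σ t, Place k (K t) := ⟨u.1, tw u.2 (g u.1)⟩

/-- The action on the words. -/
noncomputable def actk (g : κ → ∀ t, K t ≃ₐ[L t] K t) (x : κ → Σ t, Place k (K t)) :
    κ → Σ t, Place k (K t) := fun c => act (g c) (x c)

theorem act_act (g h : ∀ t, K t ≃ₐ[L t] K t) (u : Σ t, Place k (K t)) :
    act g (act h u) = act (h * g) u := by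
  unfold act
  rw [Pi.mul_apply, tw_mul]

theorem act_one (u : Σ t, Place k (K t)) : act (1 : ∀ t, K t ≃ₐ[L t] K t) u = u := by
  unfold act
  rw [Pi.one_apply, tw_one]

theorem actk_actk (g h : κ → ∀ t, K t ≃ₐ[L t] K t) (x : κ → Σ t, Place k (K t)) :
    actk g (actk h x) = actk (h * g) x :=
  funext fun c => act_act _ _ _

theorem actk_mem (g : κ → ∀ t, K t ≃ₐ[L t] K t) {c : (κ → Σ t, Place k (K t)) →₀ ℚ}
    (hc : c ∈ RatU k κ K) : Finsupp.mapDomain (actk g) c ∈ RatU k κ K := by
  unfold RatU at hc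
  induction hc using Submodule.span_induction with
  | zero => rw [Finsupp.mapDomain_zero]; exact Submodule.zero_mem _
  | add x y _ _ hx hy => rw [Finsupp.mapDomain_add]; exact Submodule.add_mem _ hx hy
  | smul r x _ hx => rw [Finsupp.mapDomain_smul]; exact Submodule.smul_mem _ _ hx
  | mem x hx =>
    obtain ⟨F, i1, i2, i3, h, φ, hh, hφ, rfl⟩ := hx
    refine Submodule.subset_span ⟨F, i1, i2, i3, h, fun w => actk g (φ w), hh, fun j => ?_,
      map_pd _ _ _⟩
    obtain ⟨t, ψ, hψ, hψ'⟩ := hφ j
    refine ⟨t, fun w => tw (ψ w) (g j t), (isMor_tw (g j t)).comp hψ, fun w => ?_⟩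
    change act (g j) (φ w j) = _
    rw [hψ' w]
    rfl

/-- The types: a curve and a character of its Galois group. -/
abbrev Ty (k : Type) [Field k] {T : Type} (L K : T → Type) [∀ t, Field (L t)]
    [∀ t, Field (K t)] [∀ t, Algebra (L t) (K t)] : Type :=
  Σ t, ((K t ≃ₐ[L t] K t) →* kˣ)

/-- The character of the product of the groups. -/
def om (s : Ty k L K) (g : ∀ t, K t ≃ₐ[L t] K t) : k := ((s.2 (g s.1) : kˣ) : k)

theorem om_ne_zero (s : Ty k L K) (g : ∀ t, K t ≃ₐ[L t] K t) : om s g ≠ 0 := Units.ne_zero _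

theorem om_mul (s : Ty k L K) (g h : ∀ t, K t ≃ₐ[L t] K t) :
    om s (g * h) = om s g * om s h := by
  unfold om
  rw [Pi.mul_apply, map_mul, Units.val_mul]

theorem om_one (s : Ty k L K) : om s (1 : ∀ t, K t ≃ₐ[L t] K t) = 1 := by
  unfold om
  rw [Pi.one_apply, map_one, Units.val_one]

/-- The projection to the eigenspaces. -/
noncomputable def EE (s : κ → Ty k L K) :
    ((κ → Σ t, Place k (K t)) →₀ k) →ₗ[k] ((κ → Σ t, Place k (K t)) →₀ k) :=
  ∑ g : κ → ∀ t, K t ≃ₐ[L t] K t, (∏ c, (om (s c) (g c))⁻¹) • Finsupp.lmapDomain k k (actk g)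

theorem EE_apply (s : κ → Ty k L K) (z : (κ → Σ t, Place k (K t)) →₀ k) :
    EE s z = ∑ g : κ → ∀ t, K t ≃ₐ[L t] K t, (∏ c, (om (s c) (g c))⁻¹) •
      Finsupp.mapDomain (actk g) z := by
  unfold EE
  rw [LinearMap.sum_apply]
  rfl

theorem EE_act (s : κ → Ty k L K) (h : κ → ∀ t, K t ≃ₐ[L t] K t)
    (z : (κ → Σ t, Place k (K t)) →₀ k) :
    EE s (Finsupp.mapDomain (actk h) z) = (∏ c, om (s c) (h c)) • EE s z := by
  rw [EE_apply, EE_apply, Finset.smul_sum]
  refine Fintype.sum_equiv (Equiv.mulLeft h) _ _ fun g => ?_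
  rw [← Finsupp.mapDomain_comp, smul_smul]
  have h1 : actk (k := k) (K := K) g ∘ actk h = actk (Equiv.mulLeft h g) :=
    funext fun x => actk_actk g h x
  rw [h1]
  congr 1
  rw [← Finset.prod_mul_distrib]
  refine Finset.prod_congr rfl fun c _ => ?_
  have h2 : (Equiv.mulLeft h g) c = h c * g c := rfl
  rw [h2, om_mul, mul_inv, ← mul_assoc, mul_inv_cancel₀ (om_ne_zero _ _), one_mul]

theorem EE_mem (s : κ → Ty k L K) {z : (κ → Σ t, Place k (K t)) →₀ k} (hz : z ∈ RU k κ K) :
    EE s z ∈ RU k κ K := by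
  rw [EE_apply]
  exact Submodule.sum_mem _ fun g _ => Submodule.smul_mem _ _
    (up_map (fun c hc => actk_mem g hc) hz)

section base

variable (s : κ → Ty k L K) (b : ∀ t, Place k (K t))

/-- Replacing the coordinates in `S` by the base points. -/
noncomputable def rp (S : Finset κ) (x : κ → Σ t, Place k (K t)) : κ → Σ t, Place k (K t) :=
  rep (fun c => (s c).1) b S x

theorem rp_mem {z : (κ → Σ t, Place k (K t)) →₀ k} (S : Finset κ) (hz : z ∈ RU k κ K) :
    Finsupp.mapDomain (rp s b S) z ∈ RU k κ K :=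
  up_map (fun _ hc => rep_mem (fun c => (s c).1) b S hc) hz

open Classical in
/-- The coordinates with trivial character. -/
noncomputable def triv : Finset κ := Finset.univ.filter fun c => (s c).2 = 1

theorem mem_triv {c : κ} : c ∈ triv s ↔ (s c).2 = 1 := by
  simp only [triv, Finset.mem_filter, Finset.mem_univ, true_and]

/-- The projection to the primitive part. -/
noncomputable def PP1 :
    ((κ → Σ t, Place k (K t)) →₀ k) →ₗ[k] ((κ → Σ t, Place k (K t)) →₀ k) :=
  ∑ S ∈ (triv s).powerset, ((-1 : k) ^ S.card) • Finsupp.lmapDomain k k (rp s b S)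

theorem PP1_apply (z : (κ → Σ t, Place k (K t)) →₀ k) :
    PP1 s b z = ∑ S ∈ (triv s).powerset, ((-1 : k) ^ S.card) •
      Finsupp.mapDomain (rp s b S) z := by
  unfold PP1
  rw [LinearMap.sum_apply]
  rfl

theorem PP1_mem {z : (κ → Σ t, Place k (K t)) →₀ k} (hz : z ∈ RU k κ K) :
    PP1 s b z ∈ RU k κ K := by
  rw [PP1_apply]
  exact Submodule.sum_mem _ fun S _ => Submodule.smul_mem _ _ (rp_mem s b S hz)

/-- The projection to the primitive part of the eigenspaces. -/
noncomputable def Pi1 :
    ((κ → Σ t, Place k (K t)) →₀ k) →ₗ[k] ((κ → Σ t, Place k (K t)) →₀ k) :=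
  (EE s).comp (PP1 s b)

theorem Pi1_mem {z : (κ → Σ t, Place k (K t)) →₀ k} (hz : z ∈ RU k κ K) :
    Pi1 s b z ∈ RU k κ K := EE_mem s (PP1_mem s b hz)

theorem Pi1_act (h : κ → ∀ t, K t ≃ₐ[L t] K t) (z : (κ → Σ t, Place k (K t)) →₀ k) :
    Pi1 s b (Finsupp.mapDomain (actk h) z) = (∏ c, om (s c) (h c)) • Pi1 s b z := by
  unfold Pi1
  rw [LinearMap.comp_apply, LinearMap.comp_apply, PP1_apply, PP1_apply, map_sum, map_sum,
    Finset.smul_sum]
  refine Finset.sum_congr rfl fun S hS => ?_
  rw [map_smul, map_smul, smul_comm]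
  congr 1
  let h' : κ → ∀ t, K t ≃ₐ[L t] K t := fun c => if c ∈ S then 1 else h c
  have h1 : rp s b S ∘ actk (k := k) (K := K) h = actk h' ∘ rp s b S := by
    funext x c
    change rep (fun c => (s c).1) b S (actk h x) c =
      act (h' c) (rep (fun c => (s c).1) b S x c)
    unfold rep
    by_cases hc : c ∈ S
    · rw [if_pos hc, if_pos hc]
      have h2 : h' c = 1 := if_pos hc
      rw [h2, act_one]
    · rw [if_neg hc, if_neg hc]
      have h2 : h' c = h c := if_neg hc
      rw [h2]
      rfl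
  rw [← Finsupp.mapDomain_comp, h1, Finsupp.mapDomain_comp, EE_act]
  congr 1
  refine Finset.prod_congr rfl fun c _ => ?_
  by_cases hc : c ∈ S
  · have h2 : h' c = 1 := if_pos hc
    rw [h2, om_one]
    have h3 : (s c).2 = 1 := (mem_triv s).1 (Finset.mem_powerset.1 hS hc)
    unfold om
    rw [h3, MonoidHom.one_apply, Units.val_one]
  · have h2 : h' c = h c := if_neg hc
    rw [h2]

theorem PP1_single_eq_zero {x : κ → Σ t, Place k (K t)} {c : κ} (hc : c ∈ triv s)
    (hx : x c = ⟨(s c).1, b (s c).1⟩) : PP1 s b (Finsupp.single x 1) = 0 := by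
  rw [PP1_apply]
  refine Finset.sum_involution (fun S _ => if c ∈ S then S.erase c else insert c S) ?_ ?_ ?_ ?_
  · intro S _
    have hrep : rp s b (if c ∈ S then S.erase c else insert c S) x = rp s b S x := by
      funext d
      unfold rp rep
      by_cases hd : d = c
      · subst hd
        rw [hx]
        split_ifs <;> rfl
      · by_cases hS : c ∈ S
        · rw [if_pos hS]
          simp only [Finset.mem_erase, hd, ne_eq, not_false_eq_true, true_and]
        · rw [if_neg hS]
          simp only [Finset.mem_insert, hd, false_or]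
    rw [Finsupp.mapDomain_single, Finsupp.mapDomain_single, hrep, ← add_smul]
    have hcard : ((-1 : k) ^ S.card + (-1) ^ (if c ∈ S then S.erase c else insert c S).card) = 0 := by
      by_cases hS : c ∈ S
      · rw [if_pos hS]
        have h1 : S.card = (S.erase c).card + 1 := (Finset.card_erase_add_one hS).symm
        rw [h1, pow_succ]
        ring
      · rw [if_neg hS, Finset.card_insert_of_notMem hS, pow_succ]
        ring
    rw [hcard, zero_smul]
  · intro S _ _ h
    by_cases hS : c ∈ S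
    · rw [if_pos hS] at h
      rw [← h] at hS
      exact Finset.notMem_erase c _ hS
    · rw [if_neg hS] at h
      apply hS
      rw [← h]
      exact Finset.mem_insert_self c S
  · intro S hS
    rw [Finset.mem_powerset] at hS ⊢
    split_ifs
    · exact (Finset.erase_subset _ _).trans hS
    · exact Finset.insert_subset hc hS
  · intro S _
    by_cases hS : c ∈ S
    · rw [if_pos hS, if_neg (Finset.notMem_erase c S), Finset.insert_erase hS]
    · rw [if_neg hS, if_pos (Finset.mem_insert_self c S), Finset.erase_insert hS]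

theorem sub_PP1_mem {z : (κ → Σ t, Place k (K t)) →₀ k}
    (hz : ∀ c ∈ triv s, Finsupp.mapDomain (rp s b {c}) z ∈ RU k κ K) :
    z - PP1 s b z ∈ RU k κ K := by
  rw [PP1_apply, ← Finset.add_sum_erase _ _ (Finset.empty_mem_powerset (triv s))]
  have h1 : rp s b (∅ : Finset κ) = (id : (κ → Σ t, Place k (K t)) → _) := by
    funext x c
    unfold rp rep
    rw [if_neg (Finset.notMem_empty c)]
    rfl
  rw [h1, Finsupp.mapDomain_id, Finset.card_empty, pow_zero, one_smul, sub_add_cancel_left]
  refine Submodule.neg_mem _ (Submodule.sum_mem _ fun S hS => Submodule.smul_mem _ _ ?_)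
  obtain ⟨c, hc⟩ := Finset.nonempty_iff_ne_empty.2 (Finset.ne_of_mem_erase hS)
  have h2 : rp s b S = fun x => rp s b S (rp s b {c} x) := by
    funext x d
    unfold rp rep
    by_cases hd : d ∈ S
    · rw [if_pos hd, if_pos hd]
    · rw [if_neg hd, if_neg hd, if_neg]
      rw [Finset.mem_singleton]
      rintro rfl
      exact hd hc
  rw [h2]
  have h3 : Finsupp.mapDomain (fun x => rp s b S (rp s b {c} x)) z =
      Finsupp.mapDomain (rp s b S) (Finsupp.mapDomain (rp s b {c}) z) :=
    Finsupp.mapDomain_comp (f := rp s b {c}) (g := rp s b S)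
  rw [h3]
  exact rp_mem s b S (hz c (Finset.mem_powerset.1 (Finset.mem_of_mem_erase hS) hc))

end base

end

end Pool.Agent.H833.Tw
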