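import Pool.Agent.H833.Tw.Kap

/-!
# Permutation correspondences on the eigenspaces
-/

set_option autoImplicit false
set_option linter.unusedSectionVars false
set_option maxHeartbeats 1000000

namespace Pool.Agent.H833.Tw

open FF Pool.Agent.Y107.VC Module Equiv
open Pool.Agent.H204R3.SP (permsOf mem_permsOf)
open Pool.Agent.TH131.GHC (AntiSet Van mem_anti_of_van)

/-- The symmetric products of more than `H` zero-cycles in the eigenspace of `χ` are rationally
equivalent to zero. -/
def SymVan (k : Type) [Field k] [CharZero k] {L K : Type} [Field L] [Field K] [Algebra k L]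
    [Algebra k K] [Algebra L K] [IsScalarTower k L K] [FiniteDimensional L K]
    (χ : (K ≃ₐ[L] K) →* kˣ) (H : ℕ) : Prop :=
  ∀ (A : Type) [Fintype A] [DecidableEq A], Fintype.card A = H + 1 →
    ∀ x : A → Place k K, zc χ x ∈ RatK k K A

section

variable {k : Type} [Field k] [CharZero k] [IsAlgClosed k] {T κ : Type} [Fintype κ]
  [DecidableEq κ] [Fintype T] [DecidableEq T]
  {L K : T → Type} [∀ t, Field (L t)] [∀ t, Field (K t)] [∀ t, Algebra k (L t)]
  [∀ t, Algebra k (K t)] [∀ t, Algebra (L t) (K t)] [∀ t, IsScalarTower k (L t) (K t)]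
  [∀ t, IsFF k (L t)] [∀ t, IsFF k (K t)] [∀ t, FiniteDimensional (L t) (K t)]
  [∀ t, IsGalois (L t) (K t)]

/-- The dimensions of the eigenspaces. -/
def IsDim (H : Ty k L K → ℕ) : Prop :=
  ∀ s : Ty k L K, (s.2 = 1 → H s = genus k (L s.1)) ∧ (s.2 ≠ 1 → SymVan k s.2 (H s))

/-- The words with given letters outside of `A`. -/
def fillA {t : T} {A : Finset κ} (x : κ → Σ t, Place k (K t)) (y : {a // a ∈ A} → Place k (K t)) :
    κ → Σ t, Place k (K t) :=
  fun c => if h : c ∈ A then ⟨t, y ⟨c, h⟩⟩ else x c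

theorem fillA_mem {t : T} {A : Finset κ} (x : κ → Σ t, Place k (K t))
    {z : ({a // a ∈ A} → Place k (K t)) →₀ k} (hz : z ∈ RatK k (K t) {a // a ∈ A}) :
    Finsupp.mapDomain (fillA x) z ∈ RU k κ K := by
  refine up_map (fun c hc => ?_) hz
  refine Rat.toU (k := k) (K := K) (q := fun _ : {a // a ∈ A} => t) (κ := κ) (fillA x) ?_ hc
  intro c
  by_cases hc : c ∈ A
  · exact Or.inr ⟨⟨c, hc⟩, fun u => dif_pos hc⟩
  · exact Or.inl ⟨x c, fun u => dif_neg hc⟩

theorem sum_permsOf (A : Finset κ) {M : Type} [AddCommMonoid M] (f : Perm κ → M) :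
    ∑ τ ∈ permsOf A, f τ = ∑ τ : Perm {a // a ∈ A}, f (Perm.ofSubtype τ) := by
  have h2 : permsOf A = Finset.univ.filter fun σ : Perm κ => ∀ c, ¬c ∈ A → σ c = c := rfl
  rw [h2, ← Finset.sum_subtype_eq_sum_filter]
  have h3 : (Finset.univ : Finset (Perm κ)).subtype (fun σ => ∀ c, ¬c ∈ A → σ c = c) =
    Finset.univ := by
    ext σ
    simp
  rw [h3]
  symm
  exact Fintype.sum_equiv (Perm.subtypeEquivSubtypePerm fun c => c ∈ A) _ _ fun τ => rfl

theorem Pi1_fillA (s : κ → Ty k L K) (b : ∀ t, Place k (K t)) {s0 : Ty k L K} {A : Finset κ}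
    (hA : ∀ a ∈ A, s a = s0) (x : κ → Σ t, Place k (K t)) (y : {a // a ∈ A} → Place k (K s0.1)) :
    Pi1 s b (Finsupp.mapDomain (fillA x) (zc s0.2 y)) =
      (Fintype.card ({a // a ∈ A} → (K s0.1 ≃ₐ[L s0.1] K s0.1)) : k) •
        Pi1 s b (∑ τ ∈ permsOf A, Finsupp.single (fun c => fillA x y (τ c)) (1 : k)) := by
  let gh : ({a // a ∈ A} → (K s0.1 ≃ₐ[L s0.1] K s0.1)) → κ → ∀ t, K t ≃ₐ[L t] K t := fun g c =>
    if h : c ∈ A then Pi.mulSingle s0.1 (g ⟨c, h⟩) else 1
  have h1 : Finsupp.mapDomain (fillA x) (zc s0.2 y) =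
      ∑ g : {a // a ∈ A} → (K s0.1 ≃ₐ[L s0.1] K s0.1), (∏ a, (((s0.2 (g a))⁻¹ : kˣ) : k)) •
        Finsupp.mapDomain (actk (gh g))
          (∑ τ ∈ permsOf A, Finsupp.single (fun c => fillA x y (τ c)) (1 : k)) := by
    unfold zc
    rw [Finsupp.mapDomain_finsetSum]
    simp only [Finsupp.mapDomain_finsetSum, Finsupp.mapDomain_single]
    rw [Finset.sum_comm]
    refine Finset.sum_congr rfl fun g _ => ?_
    rw [sum_permsOf, Finset.smul_sum]
    refine Finset.sum_congr rfl fun τ _ => ?_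
    rw [Finsupp.smul_single, smul_eq_mul, mul_one]
    congr 1
    funext c
    by_cases hc : c ∈ A
    · have h2 : Perm.ofSubtype τ c = τ ⟨c, hc⟩ := Perm.ofSubtype_apply_of_mem τ hc
      have h3 : fillA x (fun a => tw (y (τ a)) (g a)) c =
          ⟨s0.1, tw (y (τ ⟨c, hc⟩)) (g ⟨c, hc⟩)⟩ := dif_pos hc
      have h4 : fillA x y (Perm.ofSubtype τ c) = ⟨s0.1, y (τ ⟨c, hc⟩)⟩ := by
        rw [h2]
        exact dif_pos (τ ⟨c, hc⟩).2
      have h5 : gh g c = Pi.mulSingle s0.1 (g ⟨c, hc⟩) := dif_pos hc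
      change _ = act (gh g c) (fillA x y (Perm.ofSubtype τ c))
      rw [h3, h4, h5]
      unfold act
      rw [Pi.mulSingle_eq_same]
    · have h2 : Perm.ofSubtype τ c = c := Perm.ofSubtype_apply_of_not_mem τ hc
      have h3 : fillA x (fun a => tw (y (τ a)) (g a)) c = x c := dif_neg hc
      have h4 : fillA x y (Perm.ofSubtype τ c) = x c := by
        rw [h2]
        exact dif_neg hc
      have h5 : gh g c = 1 := dif_neg hc
      change _ = act (gh g c) (fillA x y (Perm.ofSubtype τ c))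
      rw [h3, h4, h5, act_one]
  rw [h1, map_sum]
  have h2 : ∀ g : {a // a ∈ A} → (K s0.1 ≃ₐ[L s0.1] K s0.1),
      Pi1 s b ((∏ a, (((s0.2 (g a))⁻¹ : kˣ) : k)) • Finsupp.mapDomain (actk (gh g))
          (∑ τ ∈ permsOf A, Finsupp.single (fun c => fillA x y (τ c)) (1 : k))) =
      Pi1 s b (∑ τ ∈ permsOf A, Finsupp.single (fun c => fillA x y (τ c)) (1 : k)) := by
    intro g
    rw [map_smul, Pi1_act, smul_smul]
    have h3 : ∏ c, om (s c) (gh g c) = ∏ a, ((s0.2 (g a) : kˣ) : k) := by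
      symm
      refine Fintype.prod_of_injective (fun a : {a // a ∈ A} => (a : κ)) Subtype.val_injective _ _
        (fun c hc => ?_) fun a => ?_
      · have hc' : c ∉ A := fun h => hc ⟨⟨c, h⟩, rfl⟩
        have h5 : gh g c = 1 := dif_neg hc'
        rw [h5, om_one]
      · have h5 : gh g a = Pi.mulSingle s0.1 (g a) := dif_pos a.2
        rw [h5, hA a a.2]
        unfold om
        rw [Pi.mulSingle_eq_same]
    rw [h3, ← Finset.prod_mul_distrib]
    have h4 : ∏ a, ((((s0.2 (g a))⁻¹ : kˣ) : k) * ((s0.2 (g a) : kˣ) : k)) = 1 :=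
      Finset.prod_eq_one fun a _ => by rw [← Units.val_mul, inv_mul_cancel, Units.val_one]
    rw [h4, one_smul]
  rw [Finset.sum_congr rfl fun g _ => h2 g, Finset.sum_const, Finset.card_univ,
    Nat.cast_smul_eq_nsmul]

/-- The symmetric products of more than `H` zero-cycles of the same type. -/
theorem sym_mem {H : Ty k L K → ℕ} (hH : IsDim H) (s : κ → Ty k L K) (b : ∀ t, Place k (K t))
    (x : κ → Σ t, Place k (K t)) (hx : ∀ c, (x c).1 = (s c).1) (A : Finset κ) (s0 : Ty k L K)
    (hA : ∀ a ∈ A, s a = s0) (hcard : A.card = H s0 + 1) :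
    Pi1 s b (∑ τ ∈ permsOf A, Finsupp.single (fun c => x (τ c)) (1 : k)) ∈ RU k κ K := by
  have h1 : ∀ a : {a // a ∈ A}, ∃ v : Place k (K s0.1), x a = ⟨s0.1, v⟩ := by
    intro a
    have h2 := hx a
    rw [hA a a.2] at h2
    rcases h3 : x a with ⟨t, v⟩
    rw [h3] at h2
    change t = s0.1 at h2
    subst h2
    exact ⟨v, rfl⟩
  choose y hy using h1
  have hfill : fillA x y = x := by
    funext c
    unfold fillA
    by_cases hc : c ∈ A
    · rw [dif_pos hc]
      exact (hy ⟨c, hc⟩).symm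
    · rw [dif_neg hc]
  have hN : (Fintype.card ({a // a ∈ A} → (K s0.1 ≃ₐ[L s0.1] K s0.1)) : k) ≠ 0 := by
    exact_mod_cast Fintype.card_ne_zero
  have hmain : Pi1 s b (Finsupp.mapDomain (fillA x) (zc s0.2 y)) ∈ RU k κ K := by
    by_cases hχ : s0.2 = 1
    · obtain ⟨y', ⟨a0, ha0⟩, hy'⟩ := exists_zc_one_move (L := L s0.1) (K := K s0.1)
        (A := {a // a ∈ A}) (by rw [Fintype.card_coe, hcard, (hH s0).1 hχ]) y (b s0.1)
      rw [← hχ] at hy'
      have h2 := Pi1_mem s b (fillA_mem x hy')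
      have h3 : Finsupp.mapDomain (fillA x) (zc s0.2 y - zc s0.2 y') =
          Finsupp.mapDomain (fillA x) (zc s0.2 y) - Finsupp.mapDomain (fillA x) (zc s0.2 y') :=
        map_sub (Finsupp.mapDomain.addMonoidHom (fillA x)) _ _
      rw [h3, map_sub] at h2
      have h4 : Pi1 s b (Finsupp.mapDomain (fillA x) (zc s0.2 y')) = 0 := by
        rw [Pi1_fillA s b hA]
        unfold Pi1
        rw [LinearMap.comp_apply, map_sum]
        have h5 : ∀ τ ∈ permsOf A,
            PP1 s b (Finsupp.single (fun c => fillA x y' (τ c)) (1 : k)) = 0 := by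
          intro τ hτ
          have hinv : τ (τ.symm a0) = a0 := τ.apply_symm_apply _
          have hmem : τ.symm a0 ∈ A := by
            rw [mem_permsOf] at hτ
            by_contra hcon
            have h3 := hτ _ hcon
            rw [hinv] at h3
            rw [← h3] at hcon
            exact hcon a0.2
          refine PP1_single_eq_zero s b (c := τ.symm a0) ?_ ?_
          · rw [mem_triv, hA _ hmem]
            exact hχ
          · rw [hinv, hA _ hmem]
            have h6 : fillA x y' (a0 : κ) = ⟨s0.1, y' a0⟩ := dif_pos a0.2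
            rw [h6, ha0]
        rw [Finset.sum_eq_zero h5, map_zero, smul_zero]
      rwa [h4, sub_zero] at h2
    · exact Pi1_mem s b (fillA_mem x ((hH s0).2 hχ {a // a ∈ A} (by
        rw [Fintype.card_coe]
        exact hcard) y))
  rw [Pi1_fillA s b hA, hfill] at hmain
  have h2 := Submodule.smul_mem _ (Fintype.card ({a // a ∈ A} →
    (K s0.1 ≃ₐ[L s0.1] K s0.1)) : k)⁻¹ hmain
  rwa [smul_smul, inv_mul_cancel₀ hN, one_smul] at h2

end

section

variable {κ : Type} [Fintype κ] [DecidableEq κ] {k : Type} [Field k] [CharZero k]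

theorem anti_permK {G : (κ → κ) → k} {A : Finset κ}
    (hG : ∀ p ∈ A, ∀ p' ∈ A, p ≠ p' → ∀ X : κ → κ, G (fun c => X (swap p p' c)) = -G X)
    (τ : Perm κ) (hτ : τ ∈ permsOf A) (X : κ → κ) :
    G (fun c => X (τ c)) = ((Perm.sign τ : ℤ) : k) * G X := by
  have key : ∀ τ' : Perm {a // a ∈ A}, ∀ X : κ → κ,
      G (fun c => X (Perm.ofSubtype τ' c)) = ((Perm.sign τ' : ℤ) : k) * G X := by
    intro τ'
    induction τ' using Perm.swap_induction_on with
    | one =>
      intro X
      rw [map_one, Perm.sign_one]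
      simp
    | swap_mul f x y hxy ih =>
      intro X
      have h1 : (fun c => X (Perm.ofSubtype (swap x y * f) c)) =
          fun c => (fun d => X (swap (x : κ) (y : κ) d)) (Perm.ofSubtype f c) := by
        funext c
        rw [map_mul, Perm.ofSubtype_swap_eq]
        rfl
      rw [h1]
      refine (ih fun d => X (swap (x : κ) (y : κ) d)).trans ?_
      rw [hG _ x.2 _ y.2 (fun h => hxy (Subtype.ext h)), Perm.sign_mul, Perm.sign_swap hxy]
      push_cast
      ring
  rw [mem_permsOf] at hτ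
  have h1 := key (Perm.subtypePerm τ (p := fun c => c ∈ A) (by
    intro c
    constructor
    · intro h
      by_contra hcon
      rw [hτ c hcon] at h
      exact hcon h
    · intro h
      by_contra hcon
      have h2 := hτ _ hcon
      exact hcon (by rw [τ.injective h2]; exact h))) X
  rw [Perm.ofSubtype_subtypePerm _ (by
    intro c hc
    by_contra hcon
    exact hc (hτ c hcon))] at h1
  rw [h1]
  congr 2
  rw [← Perm.sign_ofSubtype, Perm.ofSubtype_subtypePerm _ (by
    intro c hc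
    by_contra hcon
    exact hc (hτ c hcon))]

theorem sgn_sqK (σ : Perm κ) : ((Perm.sign σ : ℤ) : k) * ((Perm.sign σ : ℤ) : k) = 1 := by
  rcases Int.units_eq_one_or (Perm.sign σ) with h | h <;> rw [h] <;> simp

/-- The linear map applying a function on permutations, twisted by the sign, to a word. -/
noncomputable def LGK {U : Type} (x : κ → U) : ((κ → κ) → k) →ₗ[k] ((κ → U) →₀ k) where
  toFun G := ∑ σ : Perm κ, (((Perm.sign σ : ℤ) : k) * G σ) •
    Finsupp.single (fun c => x (σ c)) (1 : k)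
  map_add' G H := by
    rw [← Finset.sum_add_distrib]
    refine Finset.sum_congr rfl fun σ _ => ?_
    rw [Pi.add_apply, mul_add, add_smul]
  map_smul' r G := by
    rw [Finset.smul_sum]
    refine Finset.sum_congr rfl fun σ _ => ?_
    rw [Pi.smul_apply, smul_eq_mul, RingHom.id_apply, smul_smul]
    congr 1
    ring

theorem LGK_apply {U : Type} (x : κ → U) (G : (κ → κ) → k) :
    LGK x G = ∑ σ : Perm κ, (((Perm.sign σ : ℤ) : k) * G σ) •
      Finsupp.single (fun c => x (σ c)) (1 : k) := rfl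

/-- The permuted cycle. -/
noncomputable def pmK {U : Type} (σ : Perm κ) : ((κ → U) →₀ k) →ₗ[k] ((κ → U) →₀ k) :=
  Finsupp.lmapDomain k k fun x c => x (σ c)

theorem pmK_single {U : Type} (σ : Perm κ) (x : κ → U) (r : k) :
    pmK σ (Finsupp.single x r) = Finsupp.single (fun c => x (σ c)) r :=
  Finsupp.mapDomain_single

end

section

variable {k : Type} [Field k] [CharZero k] [IsAlgClosed k] {T κ : Type} [Fintype κ]
  [DecidableEq κ] [Fintype T] [DecidableEq T]
  {L K : T → Type} [∀ t, Field (L t)] [∀ t, Field (K t)] [∀ t, Algebra k (L t)]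
  [∀ t, Algebra k (K t)] [∀ t, Algebra (L t) (K t)] [∀ t, IsScalarTower k (L t) (K t)]
  [∀ t, IsFF k (L t)] [∀ t, IsFF k (K t)] [∀ t, FiniteDimensional (L t) (K t)]
  [∀ t, IsGalois (L t) (K t)]

theorem LG_antiK {H : Ty k L K → ℕ} (hH : IsDim H) (s : κ → Ty k L K) (b : ∀ t, Place k (K t))
    (x : κ → Σ t, Place k (K t)) (hx : ∀ c, (x c).1 = (s c).1) {G : (κ → κ) → k}
    (hG : G ∈ AntiSet k s s H) : Pi1 s b (LGK x G) ∈ RU k κ K := by
  obtain ⟨s0, A, hA, hAq, hsupp, hanti⟩ := hG
  have h1 : ((permsOf A).card : k) • LGK x G = ∑ σ : Perm κ, (((Perm.sign σ : ℤ) : k) * G σ) •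
      ∑ τ ∈ permsOf A, Finsupp.single (fun c => (fun d => x (σ d)) (τ c)) (1 : k) := by
    simp only [Finset.smul_sum]
    rw [Finset.sum_comm]
    have h2 : ∀ τ ∈ permsOf A, ∑ σ : Perm κ, (((Perm.sign σ : ℤ) : k) * G σ) •
        Finsupp.single (fun c => (fun d => x (σ d)) (τ c)) (1 : k) = LGK x G := by
      intro τ hτ
      rw [LGK_apply]
      refine Fintype.sum_equiv (Equiv.mulRight τ) _ _ fun σ => ?_
      have h3 := anti_permK hanti τ hτ (σ : κ → κ)
      have h4 : (((Equiv.mulRight τ) σ : Perm κ) : κ → κ) = fun c => σ (τ c) := rfl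
      rw [h4, h3]
      have h5 : ((Perm.sign ((Equiv.mulRight τ) σ) : ℤ) : k) =
          ((Perm.sign σ : ℤ) : k) * ((Perm.sign τ : ℤ) : k) := by
        rw [Equiv.coe_mulRight, Perm.sign_mul]
        push_cast
        rfl
      rw [h5]
      congr 1
      linear_combination (-((Perm.sign σ : ℤ) : k) * G σ) * sgn_sqK (k := k) τ
    rw [Finset.sum_congr rfl h2, Finset.sum_const, Nat.cast_smul_eq_nsmul]
  have h2 : Pi1 s b (((permsOf A).card : k) • LGK x G) ∈ RU k κ K := by
    rw [h1, map_sum]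
    refine Submodule.sum_mem _ fun σ _ => ?_
    rw [map_smul]
    by_cases h0 : G σ = 0
    · rw [h0, mul_zero, zero_smul]
      exact Submodule.zero_mem _
    · refine Submodule.smul_mem _ _ (sym_mem hH s b (fun d => x (σ d)) (fun c => ?_) A s0 hAq hA)
      rw [hx, hsupp σ h0 c]
  have h3 : ((permsOf A).card : k) ≠ 0 := by
    have h4 : (1 : Perm κ) ∈ permsOf A := by
      rw [mem_permsOf]
      exact fun _ _ => rfl
    have h5 : 0 < (permsOf A).card := Finset.card_pos.2 ⟨1, h4⟩
    exact_mod_cast h5.ne'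
  have h4 := Submodule.smul_mem _ ((permsOf A).card : k)⁻¹ h2
  rwa [map_smul, smul_smul, inv_mul_cancel₀ h3, one_smul] at h4

theorem finite_chr (t : T) : Finite ((K t ≃ₐ[L t] K t) →* kˣ) := inferInstance

theorem word_memK {H : Ty k L K → ℕ} (hH : IsDim H) (s : κ → Ty k L K)
    (b : ∀ t, Place k (K t)) (z : Perm κ → k)
    (hz : ∀ σ, z σ ≠ 0 → ∀ c, s (σ c) = s c)
    (hvan : ∀ c : κ → Σ s : Ty k L K, Fin (H s), (∀ j, (c j).1 = s j) →
      ∀ Y : (Σ s : Ty k L K, Fin (H s)) → κ → k,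
        ∑ σ : Perm κ, (((Perm.sign σ : ℤ) : k) * z σ) * ∏ j, Y (c j) (σ j) = 0)
    (x : κ → Σ t, Place k (K t)) (hx : ∀ c, (x c).1 = (s c).1) :
    Pi1 s b (∑ σ : Perm κ, z σ • Finsupp.single (fun c => x (σ c)) (1 : k)) ∈ RU k κ K := by
  classical
  have hfin : ∀ t, Finite ((K t ≃ₐ[L t] K t) →* kˣ) := fun t => finite_chr t
  let _ : ∀ t, Fintype ((K t ≃ₐ[L t] K t) →* kˣ) := fun t => Fintype.ofFinite _
  let F : (κ → κ) → k := fun X => ∑ σ : Perm κ,
    if X = σ then ((Perm.sign σ : ℤ) : k) * z σ else 0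
  have hFσ : ∀ σ : Perm κ, F σ = ((Perm.sign σ : ℤ) : k) * z σ := by
    intro σ
    simp only [F]
    rw [Finset.sum_eq_single σ]
    · rw [if_pos rfl]
    · intro τ _ hne
      rw [if_neg]
      intro h
      exact hne (Equiv.coe_fn_injective h).symm
    · intro h
      exact absurd (Finset.mem_univ _) h
  have hF : F ∈ Submodule.span k (AntiSet k s s H) := by
    have hF1 : ∀ X : κ → κ, F X ≠ 0 → ∀ c, s (X c) = s c := by
      intro X hX c
      obtain ⟨σ, -, hσ⟩ := Finset.exists_ne_zero_of_sum_ne_zero hX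
      by_cases h1 : X = σ
      · rw [if_pos h1] at hσ
        rw [h1]
        exact hz σ (right_ne_zero_of_mul hσ) c
      · rw [if_neg h1] at hσ
        exact absurd rfl hσ
    have hF2 : Van (fun γ : Σ s : Ty k L K, Fin (H s) => γ.1) s F := by
      intro c hc Y
      rw [← hvan c hc Y]
      simp only [F, Finset.sum_mul]
      rw [Finset.sum_comm]
      refine Finset.sum_congr rfl fun σ _ => ?_
      rw [Finset.sum_eq_single (σ : κ → κ)]
      · rw [if_pos rfl]
      · intro X _ hX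
        rw [if_neg hX, zero_mul]
      · intro h
        exact absurd (Finset.mem_univ _) h
    have hF3 := mem_anti_of_van s (fun γ : Σ s : Ty k L K, Fin (H s) => γ.1) s F hF1 hF2
    have hF4 : H = fun s0 : Ty k L K =>
        Fintype.card {γ : Σ s : Ty k L K, Fin (H s) // γ.1 = s0} := by
      funext s0
      rw [Fintype.card_congr (Equiv.sigmaSubtype s0), Fintype.card_fin]
    rw [hF4]
    convert hF3
  have h1 : LGK x F = ∑ σ : Perm κ, z σ • Finsupp.single (fun c => x (σ c)) (1 : k) := by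
    rw [LGK_apply]
    refine Finset.sum_congr rfl fun σ _ => ?_
    rw [hFσ, ← mul_assoc, sgn_sqK, one_mul]
  rw [← h1]
  clear h1 hFσ
  clear_value F
  induction hF using Submodule.span_induction with
  | zero => rw [map_zero, map_zero]; exact Submodule.zero_mem _
  | add G H _ _ hG hH => rw [map_add, map_add]; exact Submodule.add_mem _ hG hH
  | smul r G _ hG => rw [map_smul, map_smul]; exact Submodule.smul_mem _ _ hG
  | mem G hG => exact LG_antiK hH s b x hx hG

theorem EE_pm {s : κ → Ty k L K} {σ : Perm κ} (hσ : ∀ c, s (σ c) = s c)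
    (z : (κ → Σ t, Place k (K t)) →₀ k) : EE s (pmK σ z) = pmK σ (EE s z) := by
  rw [EE_apply, EE_apply, map_sum]
  refine Fintype.sum_equiv (Equiv.arrowCongr σ (Equiv.refl _)) _ _ fun g => ?_
  rw [map_smul]
  have h1 : ∏ c, (om (s c) (g c))⁻¹ =
      ∏ c, (om (s c) ((Equiv.arrowCongr σ (Equiv.refl (∀ t, K t ≃ₐ[L t] K t))) g c))⁻¹ := by
    rw [← Equiv.prod_comp σ fun c => (om (s c)
      ((Equiv.arrowCongr σ (Equiv.refl (∀ t, K t ≃ₐ[L t] K t))) g c))⁻¹]
    refine Finset.prod_congr rfl fun c _ => ?_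
    rw [hσ c]
    congr 2
    change g c = g (σ.symm (σ c))
    rw [symm_apply_apply]
  rw [h1]
  congr 1
  unfold pmK
  rw [Finsupp.lmapDomain_apply, Finsupp.lmapDomain_apply, ← Finsupp.mapDomain_comp,
    ← Finsupp.mapDomain_comp]
  congr 1
  funext x c
  change act (g c) (x (σ c)) = act (g (σ.symm (σ c))) (x (σ c))
  rw [symm_apply_apply]

theorem PP1_pm {s : κ → Ty k L K} (b : ∀ t, Place k (K t)) {σ : Perm κ}
    (hσ : ∀ c, s (σ c) = s c) (z : (κ → Σ t, Place k (K t)) →₀ k) :
    PP1 s b (pmK σ z) = pmK σ (PP1 s b z) := by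
  rw [PP1_apply, PP1_apply, map_sum]
  refine Finset.sum_equiv (Equiv.finsetCongr σ) (fun S => ?_) fun S _ => ?_
  · rw [Finset.mem_powerset, Finset.mem_powerset, Equiv.finsetCongr_apply]
    constructor
    · intro h c hc
      rw [Finset.mem_map_equiv] at hc
      have h1 := (mem_triv s).1 (h hc)
      have h2 := hσ (σ.symm c)
      rw [apply_symm_apply] at h2
      rw [mem_triv, h2]
      exact h1
    · intro h c hc
      have h1 : σ c ∈ Finset.map σ.toEmbedding S := by
        rw [Finset.mem_map_equiv, symm_apply_apply]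
        exact hc
      have h2 := (mem_triv s).1 (h h1)
      rw [hσ c] at h2
      rw [mem_triv]
      exact h2
  · rw [map_smul, Equiv.finsetCongr_apply, Finset.card_map]
    congr 1
    unfold pmK
    rw [Finsupp.lmapDomain_apply, Finsupp.lmapDomain_apply, ← Finsupp.mapDomain_comp,
      ← Finsupp.mapDomain_comp]
    congr 1
    funext x c
    unfold rp rep
    simp only [Function.comp_apply, Finset.mem_map_equiv, symm_apply_apply]
    rw [hσ c]

theorem pmK_mem (σ : Perm κ) {z : (κ → Σ t, Place k (K t)) →₀ k} (hz : z ∈ RU k κ K) :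
    pmK σ z ∈ RU k κ K :=
  up_map (fun _ hc => RatU.push _ (fun j => Or.inr ⟨σ j, fun _ => rfl⟩) hc) hz

/-- Permutation correspondences vanishing on the top holomorphic forms kill the primitive
zero-cycles in an eigenspace. -/
theorem mainK {H : Ty k L K → ℕ} (hH : IsDim H) (s : κ → Ty k L K) (b : ∀ t, Place k (K t))
    (z : Perm κ → k) (hz : ∀ σ, z σ ≠ 0 → ∀ c, s (σ c) = s c)
    (hvan : ∀ c : κ → Σ s : Ty k L K, Fin (H s), (∀ j, (c j).1 = s j) →
      ∀ Y : (Σ s : Ty k L K, Fin (H s)) → κ → k,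
        ∑ σ : Perm κ, (((Perm.sign σ : ℤ) : k) * z σ) * ∏ j, Y (c j) (σ j) = 0)
    (a : (κ → Σ t, Place k (K t)) →₀ k) (ha : ∀ x ∈ a.support, ∀ c, (x c).1 = (s c).1)
    (hprim : ∀ c ∈ triv s, Finsupp.mapDomain (rp s b {c}) a ∈ RU k κ K) :
    ∑ σ : Perm κ, z σ • pmK σ (EE s a) ∈ RU k κ K := by
  have h1 : ∑ σ : Perm κ, z σ • pmK σ (EE s (a - PP1 s b a)) ∈ RU k κ K :=
    Submodule.sum_mem _ fun σ _ => Submodule.smul_mem _ _ (pmK_mem σ (EE_mem s
      (sub_PP1_mem s b hprim)))
  have h2 : ∑ σ : Perm κ, z σ • pmK σ (EE s (PP1 s b a)) ∈ RU k κ K := by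
    have h3 : ∑ σ : Perm κ, z σ • pmK σ (EE s (PP1 s b a)) =
        Pi1 s b (∑ σ : Perm κ, z σ • pmK σ a) := by
      rw [map_sum]
      refine Finset.sum_congr rfl fun σ _ => ?_
      rw [map_smul]
      by_cases h0 : z σ = 0
      · rw [h0, zero_smul, zero_smul]
      · unfold Pi1
        rw [LinearMap.comp_apply, PP1_pm b (hz σ h0), EE_pm (hz σ h0)]
    rw [h3]
    have h4 : ∑ σ : Perm κ, z σ • pmK σ a = ∑ x ∈ a.support, a x •
        ∑ σ : Perm κ, z σ • Finsupp.single (fun c => x (σ c)) (1 : k) := by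
      have h5 : a = ∑ x ∈ a.support, a x • Finsupp.single x (1 : k) := by
        conv_lhs => rw [← Finsupp.sum_single a]
        unfold Finsupp.sum
        exact Finset.sum_congr rfl fun x _ => by rw [Finsupp.smul_single, smul_eq_mul, mul_one]
      simp only [Finset.smul_sum]
      rw [Finset.sum_comm]
      refine Finset.sum_congr rfl fun σ _ => ?_
      conv_lhs => rw [h5]
      rw [map_sum, Finset.smul_sum]
      refine Finset.sum_congr rfl fun x _ => ?_
      rw [map_smul, pmK_single, smul_comm]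
    rw [h4, map_sum]
    refine Submodule.sum_mem _ fun x hx => ?_
    rw [map_smul]
    exact Submodule.smul_mem _ _ (word_memK hH s b z hz hvan x (ha x hx))
  have h3 := Submodule.add_mem _ h1 h2
  rw [← Finset.sum_add_distrib] at h3
  have h4 : ∑ σ : Perm κ, z σ • pmK σ (EE s a) =
      ∑ σ : Perm κ, (z σ • pmK σ (EE s (a - PP1 s b a)) + z σ • pmK σ (EE s (PP1 s b a))) := by
    refine Finset.sum_congr rfl fun σ _ => ?_
    rw [← smul_add, ← map_add, ← map_add, sub_add_cancel]
  rw [h4]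
  exact h3

end

end Pool.Agent.H833.Tw
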