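import Pool.Agent.H833.Tw.Norm

/-!
# The twisted cycles are rationally equivalent to zero
-/

set_option autoImplicit false
set_option linter.unusedSectionVars false

namespace Pool.Agent.H833.Tw

open FF Pool.Agent.Y107.VC IntermediateField Module Equiv
open Pool.Agent.W603.LV (deg_one)

section

variable {k : Type} [Field k] [CharZero k] [IsAlgClosed k] {E L K F : Type} [Field E] [Field L]
  [Field K] [Field F] [Algebra k E] [Algebra k L] [Algebra k K] [Algebra k F] [Algebra E L]
  [Algebra E K] [Algebra E F] [Algebra L K] [IsScalarTower k E L] [IsScalarTower k E K]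
  [IsScalarTower k E F] [IsScalarTower k L K] [IsScalarTower E L K]
  [IsFF k F] [IsFF k K] [IsFF k L]
  [FiniteDimensional E L] [FiniteDimensional L K] [FiniteDimensional E F] [IsGalois E F]
  [IsGalois L K] {A : Type} [Fintype A] [DecidableEq A]

/-- A relation with constant coefficients at the zeros, and nothing at the poles. -/
theorem mem_of_rel {φ : F} {w0 : Place k F} (hw0 : 0 < w0.ord φ)
    {X : Type} {R : Submodule k (X →₀ k)} (z : Place k F → X →₀ k) (z0 : X →₀ k)
    (hz : ∀ w, 0 < w.ord φ → z w = z0) (hp : ∀ w, w.ord φ < 0 → z w = 0)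
    (hrel : ∑ w ∈ (divisor k φ).support, (w.ord φ : k) • z w ∈ R) : z0 ∈ R := by
  classical
  have h1 : ∑ w ∈ (divisor k φ).support, (w.ord φ : k) • z w =
      ((∑ w ∈ (divisor k φ).support, (if 0 < w.ord φ then w.ord φ else 0) : ℤ) : k) • z0 := by
    rw [Int.cast_sum, Finset.sum_smul]
    refine Finset.sum_congr rfl fun w hw => ?_
    have hw' : w.ord φ ≠ 0 := Finsupp.mem_support_iff.1 hw
    rcases lt_or_gt_of_ne hw' with h2 | h2
    · rw [hp w h2, if_neg (by omega), Int.cast_zero, zero_smul, smul_zero]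
    · rw [hz w h2, if_pos h2]
  have h2 : (0 : ℤ) < ∑ w ∈ (divisor k φ).support, (if 0 < w.ord φ then w.ord φ else 0) := by
    have hw0s : w0 ∈ (divisor k φ).support := by
      rw [Finsupp.mem_support_iff]
      exact hw0.ne'
    have h3 := Finset.single_le_sum (f := fun w : Place k F =>
      if 0 < w.ord φ then w.ord φ else 0) (s := (divisor k φ).support)
      (fun w _ => by
        split_ifs with h2
        · exact h2.le
        · exact le_rfl) hw0s
    simp only [if_pos hw0] at h3
    omega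
  have h3 : ((∑ w ∈ (divisor k φ).support, (if 0 < w.ord φ then w.ord φ else 0) : ℤ) : k) ≠ 0 := by
    exact_mod_cast h2.ne'
  rw [h1] at hrel
  have h4 := R.smul_mem (((∑ w ∈ (divisor k φ).support,
    (if 0 < w.ord φ then w.ord φ else 0) : ℤ) : k))⁻¹ hrel
  rwa [smul_smul, inv_mul_cancel₀ h3, one_smul] at h4

theorem map_fac (t : E) (n : k →₀ ℤ) : algebraMap E F (fac t n) = fac (algebraMap E F t) n := by
  unfold fac Finsupp.prod
  rw [map_prod]
  refine Finset.prod_congr rfl fun τ _ => ?_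
  rw [map_zpow₀, map_sub, ← IsScalarTower.algebraMap_apply]

/-- The point over a ramified point has a stabilizer on which `χ` is nontrivial. -/
theorem zc_eq_zero_of_lies (χ : (K ≃ₐ[L] K) →* kˣ) {y : K} (hy : y ≠ 0)
    (hyχ : ∀ σ : K ≃ₐ[L] K, σ y = algebraMap k K (χ σ) * y) {m : ℕ} {f : L}
    (hf : algebraMap L K f = y ^ m) (x : A → Place k K) {a : A} {v : Place k L}
    (hv : dn (L := L) (x a) = v) (hvm : ¬(m : ℤ) ∣ v.ord f) : zc χ x = 0 := by
  by_contra hcon
  apply hvm
  refine dvd_of_stab χ hy hyχ hf (w := x a) (by rw [← hv]; exact lies_dn _) fun σ hσ => ?_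
  by_contra hne
  exact hcon (zc_eq_zero χ x a σ hσ hne)

theorem zc_mem_of_pencil {t : E} (ht : Transcendental k t) (htop : ∀ u : E, u ∈ k⟮t⟯)
    (i0 : K →ₐ[E] F) (χ : (K ≃ₐ[L] K) →* kˣ) {y : K} (hy : y ≠ 0)
    (hyχ : ∀ σ : K ≃ₐ[L] K, σ y = algebraMap k K (χ σ) * y) {m : ℕ} (hm : 0 < m) {f : L}
    (hf : algebraMap L K f = y ^ m) {R : Finset (Place k L)}
    (hR : ∀ v : Place k L, v ∈ R ↔ ¬(m : ℤ) ∣ v.ord f) {Q : Type} [DecidableEq Q]
    (cl : Place k L → Q) (val : Q → k) {a b : Q} (hab : a ≠ b)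
    (hb : ∃ v ∈ R, cl v = b)
    (hval : ∀ v ∈ R, 0 < v.ord (algebraMap E L t - algebraMap k L (val (cl v))))
    (hs : ∀ q, q ≠ a → q ≠ b → (m : ℤ) ∣ ∑ v ∈ R.filter fun v => cl v = q, v.ord f)
    (hsab : (m : ℤ) ∣ ∑ v ∈ R.filter (fun v => cl v = a), v.ord f +
      ∑ v ∈ R.filter (fun v => cl v = b), v.ord f)
    (x : A → Place k K)
    (hx : ∀ v : Place k L,
      max (-v.ord (algebraMap E L t)) 0 ≤ cnt (fun a => dn (L := L) (x a)) v) :
    zc χ x ∈ RatK k K A := by
  classical
  have hTt : Transcendental k (algebraMap E F t) := fun h =>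
    ht ((isAlgebraic_algebraMap_iff (algebraMap E F).injective).1 h)
  have htL : Transcendental k (algebraMap E L t) := fun h =>
    ht ((isAlgebraic_algebraMap_iff (algebraMap E L).injective).1 h)
  have hT := sub_ne_zero_of_transcendental hTt
  have hf0 : f ≠ 0 := by
    rintro rfl
    rw [map_zero] at hf
    exact pow_ne_zero _ hy hf.symm
  -- a place over infinity
  have hTi : Transcendental k (algebraMap E F t)⁻¹ := fun h1 => hTt (by simpa using h1.inv)
  obtain ⟨Z, hZ, -, hZs⟩ := zeros hTi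
  have hZ0 : Z.Nonempty := by
    by_contra hcon
    rw [Finset.not_nonempty_iff_eq_empty] at hcon
    rw [hcon, Finset.sum_empty] at hZs
    have := IsFF.finite hTi
    exact absurd hZs finrank_pos.ne
  obtain ⟨w0, hw0⟩ := hZ0
  have hw0' : w0.ord (algebraMap E F t) < 0 := by
    have := (hZ w0).1 hw0
    rw [w0.ord_inv] at this
    omega
  obtain ⟨e, ι, hι, he, hex⟩ := exists_lifts ht htop i0 x hx hw0'
  let j0 : L →ₐ[E] F := i0.comp (IsScalarTower.toAlgHom E L K)
  obtain ⟨ν, hν0, hν⟩ := exists_norm (E := E) (F := F) f hf0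
  obtain ⟨c, n, hc, hcn, -⟩ := exists_fac (F := F) ht htop hν0
  have hcn' : ∏ j : L →ₐ[E] F, j f = algebraMap k F c * fac (algebraMap E F t) n := by
    rw [← hν, hcn]
  set s : ℤ := ∑ v ∈ R.filter (fun v => cl v = a), v.ord f with hsdef
  have hdiv : ∀ τ, (m : ℤ) ∣ n τ - s * ((Finsupp.single (val a) 1 : k →₀ ℤ) τ -
      (Finsupp.single (val b) 1 : k →₀ ℤ) τ) := by
    intro τ
    have htτ : Transcendental k (algebraMap E L t - algebraMap k L τ) := by
      intro h
      have h1 := h.add (isAlgebraic_algebraMap (R := k) (A := L) τ)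
      rw [sub_add_cancel] at h1
      exact htL h1
    obtain ⟨V, hV, -, -⟩ := zeros htτ
    rw [norm_div ht htop j0 hf0 hc hcn' τ hV]
    exact class_sum htL (fun v hv => by
      by_contra h
      exact hv ((hR v).2 h)) cl val hab hval hs hsab τ hV
  obtain ⟨n', hn'⟩ := fac_eq_mul_pow hT hdiv
  have hW : (∏ j, e j y) ^ m = algebraMap k F c * ((algebraMap E F t - algebraMap k F (val a)) /
      (algebraMap E F t - algebraMap k F (val b))) ^ s * algebraMap E F (fac t n') ^ m := by
    rw [← Finset.prod_pow, map_fac, mul_assoc, ← hn', ← hcn']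
    refine Finset.prod_congr rfl fun j _ => ?_
    rw [← map_pow, ← hf, he]
  have htE := sub_ne_zero_of_transcendental ht
  obtain ⟨φ, hφ, hφ0, hφz, hφp⟩ := exists_phi ht htop hm hc (fac_ne_zero htE n') hW hw0'
  have hrel := zc_rel hφ χ (word e ι x) (isMor_word hι x)
  refine mem_of_rel hφ0 (fun w => zc χ (word e ι x w)) (zc χ x) (fun w hw => ?_)
    (fun w hw => ?_) hrel
  · obtain ⟨γ, hγ, rfl⟩ := hφz w hw
    have h1 := zc_word_comp hι he x χ hy hyχ γ hγ w0
    rw [hex] at h1
    exact h1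
  · obtain ⟨b0, hb0, hb0'⟩ := hb
    have h1 := hφp w hw
    have h2 := cntE_val ht htop j0 h1 b0
    have h3 := hval b0 hb0
    rw [hb0'] at h3
    rw [max_eq_left h3.le] at h2
    have h4 : cntE (E := E) w b0 ≠ 0 := by rw [h2]; exact h3.ne'
    obtain ⟨j, -, hj⟩ := Finset.exists_ne_zero_of_sum_ne_zero h4
    have h5 : Lies (j.restrictScalars k) w b0 := by
      by_contra h
      rw [if_neg h] at hj
      exact hj rfl
    refine zc_eq_zero_of_lies χ hy hyχ hf (word e ι x w) (a := ι j) (v := b0) ?_ ((hR b0).1 hb0)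
    rw [word_ι hι]
    exact (lies_dn_pt (k := k) (he j) w).unique h5

end

end Pool.Agent.H833.Tw
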