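import Pool.Agent.H833.Tw.Main1
import Pool.Agent.H833.Tw.Exist

/-!
# Symmetric products of the eigenspaces of zero-cycles
-/

set_option autoImplicit false
set_option linter.unusedSectionVars false

namespace Pool.Agent.H833.Tw

open FF Pool.Agent.Y107.VC IntermediateField Module Equiv
open Pool.Agent.W603.LV (deg_one)

section

variable {k : Type} [Field k] [CharZero k] [IsAlgClosed k] {L K : Type} [Field L]
  [Field K] [Algebra k L] [Algebra k K] [Algebra L K] [IsScalarTower k L K]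
  [IsFF k K] [IsFF k L] [FiniteDimensional L K] [IsGalois L K] {A : Type} [Fintype A]
  [DecidableEq A]

theorem gen_top (h : L) (u : k⟮h⟯) :
    u ∈ k⟮(⟨h, mem_adjoin_simple_self k h⟩ : k⟮h⟯)⟯ := by
  obtain ⟨r, s, hrs⟩ := (mem_adjoin_simple_iff k (u : L)).1 u.2
  rw [mem_adjoin_simple_iff]
  refine ⟨r, s, ?_⟩
  apply Subtype.ext
  rw [hrs]
  have h1 : ∀ p : Polynomial k, ((Polynomial.aeval (⟨h, mem_adjoin_simple_self k h⟩ : k⟮h⟯) p :
      k⟮h⟯) : L) = Polynomial.aeval h p := fun p =>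
    (Polynomial.aeval_algHom_apply (k⟮h⟯.val) (⟨h, mem_adjoin_simple_self k h⟩ : k⟮h⟯) p).symm
  change _ = ((_ / _ : k⟮h⟯) : L)
  rw [IntermediateField.coe_div, h1, h1]

/-- The data of the Galois closure over `k(h)`. -/
theorem exists_closure (h : L) (hh : Transcendental k h) :
    ∃ (F : Type) (_ : Field F) (_ : Algebra k F) (_ : Algebra k⟮h⟯ F)
      (_ : IsScalarTower k k⟮h⟯ F) (_ : IsFF k F) (_ : FiniteDimensional k⟮h⟯ F)
      (_ : IsGalois k⟮h⟯ F), Nonempty (K →ₐ[k⟮h⟯] F) := by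
  have hfin : FiniteDimensional k⟮h⟯ L := IsFF.finite hh
  have hfinK : FiniteDimensional k⟮h⟯ K := FiniteDimensional.trans k⟮h⟯ L K
  have hE : IsFF k k⟮h⟯ := Pool.Agent.W619.PQ.isFF_down (E := L)
  have hchar : CharZero k⟮h⟯ := charZero_of_injective_algebraMap (algebraMap k k⟮h⟯).injective
  let Ω := AlgebraicClosure k⟮h⟯
  let F := normalClosure k⟮h⟯ K Ω
  have hfin' : FiniteDimensional k⟮h⟯ F := inferInstance
  have hnor : Normal k⟮h⟯ F := inferInstance
  have hsep : Algebra.IsSeparable k⟮h⟯ F := inferInstance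
  have hgal : IsGalois k⟮h⟯ F := ⟨⟩
  have hF : IsFF k F := isFF_up (K := k⟮h⟯)
  refine ⟨F, inferInstance, inferInstance, inferInstance, inferInstance, hF, hfin', hgal, ?_⟩
  have h1 : Nonempty (K →ₐ[k⟮h⟯] Ω) := ⟨IsAlgClosed.lift⟩
  exact ⟨(normalClosure.algHomEquiv k⟮h⟯ K Ω).symm h1.some⟩

/-- The symmetric products of the eigenspace of a ramified character. -/
theorem zc_mem (χ : (K ≃ₐ[L] K) →* kˣ) {y : K} (hy : y ≠ 0)
    (hyχ : ∀ σ : K ≃ₐ[L] K, σ y = algebraMap k K (χ σ) * y) {m : ℕ} (hm : 0 < m) {f : L}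
    (hf : algebraMap L K f = y ^ m) {R : Finset (Place k L)}
    (hR : ∀ v : Place k L, v ∈ R ↔ ¬(m : ℤ) ∣ v.ord f) {Q : Type} [DecidableEq Q]
    (cl : Place k L → Q) {a b : Q} (hab : a ≠ b) (hb : ∃ v ∈ R, cl v = b)
    (hs : ∀ q, q ≠ a → q ≠ b → (m : ℤ) ∣ ∑ v ∈ R.filter fun v => cl v = q, v.ord f)
    (hsab : (m : ℤ) ∣ ∑ v ∈ R.filter (fun v => cl v = a), v.ord f +
      ∑ v ∈ R.filter (fun v => cl v = b), v.ord f)
    (ρ : Q → Place k L) (hρ : ∀ v ∈ R, ρ (cl v) ∈ R) {R' : Finset (Place k L)}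
    (hR' : ∀ v ∈ R, v ∈ R' ∨ ρ (cl v) = v) (hR'R : R' ⊆ R)
    (hcard : genus k L + R'.card + 1 ≤ Fintype.card A) (x : A → Place k K) :
    zc χ x ∈ RatK k K A := by
  by_cases hxR : ∃ a, dn (L := L) (x a) ∈ R
  · obtain ⟨a, ha⟩ := hxR
    rw [zc_eq_zero_of_lies χ hy hyχ hf x rfl ((hR _).1 ha)]
    exact Submodule.zero_mem _
  push Not at hxR
  obtain ⟨h, val, hh, hval, hx⟩ := exists_pencil_fun (fun a => dn (L := L) (x a)) hxR cl ρ hρ hR'
    hR'R rfl hcard
  have hfin : FiniteDimensional k⟮h⟯ L := IsFF.finite hh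
  obtain ⟨F, i1, i2, i3, i4, i5, i6, i7, ⟨i0⟩⟩ := exists_closure (K := K) h hh
  let t : k⟮h⟯ := ⟨h, mem_adjoin_simple_self k h⟩
  have ht : Transcendental k t := fun h1 =>
    hh ((isAlgebraic_algebraMap_iff (algebraMap k⟮h⟯ L).injective).2 h1)
  have hth : algebraMap k⟮h⟯ L t = h := rfl
  exact zc_mem_of_pencil (E := k⟮h⟯) (F := F) ht (gen_top h) i0 χ hy hyχ hm hf hR cl val hab hb
    (fun v hv => by rw [hth]; exact hval v hv) hs hsab x (fun v => by rw [hth]; exact hx v)

/-- The invariant part of the cycle depends only on the points of the base curve. -/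
theorem zc_one_congr {x x' : A → Place k K}
    (h : ∀ v, cnt (fun a => dn (L := L) (x a)) v = cnt (fun a => dn (L := L) (x' a)) v) :
    zc (1 : (K ≃ₐ[L] K) →* kˣ) x = zc (1 : (K ≃ₐ[L] K) →* kˣ) x' := by
  obtain ⟨τ, hτ⟩ := exists_perm h
  have h1 : ∀ a, ∃ σ : K ≃ₐ[L] K, x' a = tw (x (τ a)) σ := by
    intro a
    have h2 := lies_dn (L := L) (x (τ a))
    have h3 : dn (L := L) (x (τ a)) = dn (L := L) (x' a) := (congrFun hτ a).symm
    rw [h3] at h2
    exact exists_tw h2 (lies_dn (L := L) (x' a))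
  choose σ hσ using h1
  have h2 : x' = fun a => tw (x (τ a)) (σ a) := funext hσ
  rw [h2, zc_tw (1 : (K ≃ₐ[L] K) →* kˣ) (fun a => x (τ a)) σ, zc_perm]
  simp only [MonoidHom.one_apply, Units.val_one, Finset.prod_const_one, one_smul]

theorem cnt_word {E F : Type} [Field E] [Field F] [Algebra k E] [Algebra k F] [Algebra E L]
    [Algebra E K] [Algebra E F] [IsScalarTower k E L] [IsScalarTower k E K] [IsScalarTower k E F]
    [IsScalarTower E L K] [IsFF k F] [FiniteDimensional E L] [FiniteDimensional E F]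
    [IsGalois E F] {e : (L →ₐ[E] F) → (K →ₐ[E] F)} {ι : (L →ₐ[E] F) → A}
    (hι : Function.Injective ι) (he : ∀ j (x : L), e j (algebraMap L K x) = j x)
    (x : A → Place k K) (w w0 : Place k F) (v : Place k L) :
    cnt (fun a => dn (L := L) (word e ι x w a)) v - cntE (E := E) w v =
      cnt (fun a => dn (L := L) (word e ι x w0 a)) v - cntE (E := E) w0 v := by
  classical
  have key : ∀ w : Place k F, cnt (fun a => dn (L := L) (word e ι x w a)) v =
      cntE (E := E) w v + ∑ a, (if (¬∃ j, ι j = a) ∧ dn (L := L) (x a) = v then 1 else 0) := by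
    intro w
    have h1 : cntE (E := E) w v =
        ∑ a, (if (∃ j, ι j = a) ∧ dn (L := L) (word e ι x w a) = v then 1 else 0) := by
      have h2 : cntE (E := E) w v = ∑ j : L →ₐ[E] F,
          (if dn (L := L) (word e ι x w (ι j)) = v then (1 : ℤ) else 0) := by
        unfold cntE
        refine Finset.sum_congr rfl fun j _ => if_congr ?_ rfl rfl
        rw [word_ι hι]
        have h3 := lies_dn_pt (k := k) (he j) w
        constructor
        · intro h4
          exact h3.unique h4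
        · rintro rfl
          exact h3
      rw [h2, ← Finset.sum_filter, ← Finset.sum_filter, Finset.sum_const, Finset.sum_const]
      congr 1
      refine Finset.card_bij (fun i _ => ι i) ?_ ?_ ?_
      · intro i hi
        rw [Finset.mem_filter] at hi ⊢
        exact ⟨Finset.mem_univ _, ⟨i, rfl⟩, hi.2⟩
      · intro i _ i' _ hii
        exact hι hii
      · rintro a ha
        rw [Finset.mem_filter] at ha
        obtain ⟨-, ⟨i, rfl⟩, ha⟩ := ha
        exact ⟨i, Finset.mem_filter.2 ⟨Finset.mem_univ _, ha⟩, rfl⟩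
    rw [h1, ← Finset.sum_add_distrib]
    unfold cnt
    refine Finset.sum_congr rfl fun a _ => ?_
    by_cases h2 : ∃ j, ι j = a
    · simp only [h2, true_and, not_true_eq_false, false_and, if_false, add_zero]
    · simp only [h2, false_and, not_false_eq_true, true_and, if_false, zero_add]
      exact if_congr (by rw [word_of_not x w h2]) rfl rfl
  rw [key w, key w0]
  ring

/-- Moving in the invariant part. -/
theorem zc_one_move {h : L} (hh : Transcendental k h) {x x' : A → Place k K}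
    (hx : ∀ v, cnt (fun a => dn (L := L) (x' a)) v = cnt (fun a => dn (L := L) (x a)) v + v.ord h) :
    zc (1 : (K ≃ₐ[L] K) →* kˣ) x - zc (1 : (K ≃ₐ[L] K) →* kˣ) x' ∈ RatK k K A := by
  classical
  have hfin : FiniteDimensional k⟮h⟯ L := IsFF.finite hh
  obtain ⟨F, i1, i2, i3, i4, i5, i6, i7, ⟨i0⟩⟩ := exists_closure (K := K) h hh
  let t : k⟮h⟯ := ⟨h, mem_adjoin_simple_self k h⟩
  have ht : Transcendental k t := fun h1 =>
    hh ((isAlgebraic_algebraMap_iff (algebraMap k⟮h⟯ L).injective).2 h1)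
  have hth : algebraMap k⟮h⟯ L t = h := rfl
  have htop := gen_top (k := k) h
  have hTt : Transcendental k (algebraMap k⟮h⟯ F t) := fun h1 =>
    ht ((isAlgebraic_algebraMap_iff (algebraMap k⟮h⟯ F).injective).1 h1)
  have hTi : Transcendental k (algebraMap k⟮h⟯ F t)⁻¹ := fun h1 => hTt (by simpa using h1.inv)
  obtain ⟨Z, hZ, -, hZs⟩ := zeros hTi
  have hZ0 : Z.Nonempty := by
    by_contra hcon
    rw [Finset.not_nonempty_iff_eq_empty] at hcon
    rw [hcon, Finset.sum_empty] at hZs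
    have := IsFF.finite hTi
    exact absurd hZs finrank_pos.ne
  obtain ⟨w0, hw0⟩ := hZ0
  have hw0' : w0.ord (algebraMap k⟮h⟯ F t) < 0 := by
    have := (hZ w0).1 hw0
    rw [w0.ord_inv] at this
    omega
  obtain ⟨e, ι, hι, he, hex⟩ := exists_lifts ht htop i0 x (fun v => by
    rw [hth]
    have h1 := hx v
    have h2 : (0 : ℤ) ≤ cnt (fun a => dn (L := L) (x a)) v := by
      unfold cnt
      exact Finset.sum_nonneg fun a _ => by split_ifs <;> omega
    have h3 : (0 : ℤ) ≤ cnt (fun a => dn (L := L) (x' a)) v := by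
      unfold cnt
      exact Finset.sum_nonneg fun a _ => by split_ifs <;> omega
    exact max_le (by omega) h2) hw0'
  let j0 : L →ₐ[k⟮h⟯] F := i0.comp (IsScalarTower.toAlgHom k⟮h⟯ L K)
  have hφ : algebraMap k⟮h⟯ F t ≠ 0 := by
    intro h1
    rw [h1] at hTt
    exact hTt isAlgebraic_zero
  have hrel := zc_rel hφ (1 : (K ≃ₐ[L] K) →* kˣ) (word e ι x) (isMor_word hι x)
  -- the degree of the divisor
  have hdeg : ∑ w ∈ (divisor k (algebraMap k⟮h⟯ F t)).support,
      (w.ord (algebraMap k⟮h⟯ F t) : k) = 0 := by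
    have h1 := ddeg_divisor (k := k) (algebraMap k⟮h⟯ F t)
    unfold ddeg Finsupp.sum at h1
    have h2 : ∑ w ∈ (divisor k (algebraMap k⟮h⟯ F t)).support,
        w.ord (algebraMap k⟮h⟯ F t) = 0 := by
      rw [← h1]
      refine Finset.sum_congr rfl fun w _ => ?_
      change w.ord (algebraMap k⟮h⟯ F t) = w.ord (algebraMap k⟮h⟯ F t) * (w.deg : ℤ)
      rw [deg_one]
      push_cast
      rw [mul_one]
    exact_mod_cast h2
  have hpol : ∀ w : Place k F, w.ord (algebraMap k⟮h⟯ F t) < 0 →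
      zc (1 : (K ≃ₐ[L] K) →* kˣ) (word e ι x w) = zc (1 : (K ≃ₐ[L] K) →* kˣ) x := by
    intro w hw
    refine zc_one_congr fun v => ?_
    have h1 := cnt_word hι he x w w0 v
    rw [hex, cntE_pole ht htop j0 hw v, cntE_pole ht htop j0 hw0' v] at h1
    linarith
  have hzer : ∀ w : Place k F, 0 < w.ord (algebraMap k⟮h⟯ F t) →
      zc (1 : (K ≃ₐ[L] K) →* kˣ) (word e ι x w) = zc (1 : (K ≃ₐ[L] K) →* kˣ) x' := by
    intro w hw
    refine zc_one_congr fun v => ?_
    have h1 := cnt_word hι he x w w0 v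
    have h2 := cntE_val ht htop j0 (τ := 0) (w := w) (by rw [map_zero, sub_zero]; exact hw) v
    rw [map_zero, sub_zero, hth] at h2
    rw [hex, h2, cntE_pole ht htop j0 hw0' v, hth] at h1
    have h3 := hx v
    rcases le_total (v.ord h) 0 with h4 | h4
    · rw [max_eq_right h4, max_eq_left (by omega)] at h1
      linarith
    · rw [max_eq_left h4, max_eq_right (by omega)] at h1
      linarith
  let φ : F := (algebraMap k⟮h⟯ F t)⁻¹
  have hφw0 : 0 < w0.ord φ := by
    simp only [φ]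
    rw [w0.ord_inv]
    omega
  have hsupp : (divisor k φ).support = (divisor k (algebraMap k⟮h⟯ F t)).support := by
    ext w
    rw [Finsupp.mem_support_iff, Finsupp.mem_support_iff, divisor_apply, divisor_apply]
    simp only [φ]
    rw [w.ord_inv, neg_ne_zero]
  have hmain : ∑ w ∈ (divisor k φ).support, (w.ord φ : k) •
      (zc (1 : (K ≃ₐ[L] K) →* kˣ) (word e ι x w) - zc (1 : (K ≃ₐ[L] K) →* kˣ) x') ∈
        RatK k K A := by
    rw [hsupp]
    have h1 : ∑ w ∈ (divisor k (algebraMap k⟮h⟯ F t)).support, (w.ord φ : k) •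
        (zc (1 : (K ≃ₐ[L] K) →* kˣ) (word e ι x w) - zc (1 : (K ≃ₐ[L] K) →* kˣ) x') =
        -(∑ w ∈ (divisor k (algebraMap k⟮h⟯ F t)).support,
          (w.ord (algebraMap k⟮h⟯ F t) : k) • zc (1 : (K ≃ₐ[L] K) →* kˣ) (word e ι x w)) := by
      have h2 : ∀ w ∈ (divisor k (algebraMap k⟮h⟯ F t)).support, (w.ord φ : k) •
          (zc (1 : (K ≃ₐ[L] K) →* kˣ) (word e ι x w) - zc (1 : (K ≃ₐ[L] K) →* kˣ) x') =
          -((w.ord (algebraMap k⟮h⟯ F t) : k) • zc (1 : (K ≃ₐ[L] K) →* kˣ) (word e ι x w)) +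
          (w.ord (algebraMap k⟮h⟯ F t) : k) • zc (1 : (K ≃ₐ[L] K) →* kˣ) x' := by
        intro w _
        have h3 : w.ord φ = -w.ord (algebraMap k⟮h⟯ F t) := w.ord_inv _
        rw [h3, Int.cast_neg, neg_smul, smul_sub]
        abel
      rw [Finset.sum_congr rfl h2, Finset.sum_add_distrib, ← Finset.sum_smul, hdeg, zero_smul,
        add_zero, Finset.sum_neg_distrib]
    rw [h1]
    exact Submodule.neg_mem _ hrel
  refine mem_of_rel hφw0 (fun w => zc (1 : (K ≃ₐ[L] K) →* kˣ) (word e ι x w) -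
    zc (1 : (K ≃ₐ[L] K) →* kˣ) x') _ (fun w hw => ?_) (fun w hw => ?_) hmain
  · simp only [φ] at hw
    rw [w.ord_inv] at hw
    change zc 1 (word e ι x w) - zc 1 x' = _
    rw [hpol w (by omega)]
  · simp only [φ] at hw
    rw [w.ord_inv] at hw
    change zc 1 (word e ι x w) - zc 1 x' = _
    rw [hzer w (by omega), sub_self]

theorem exists_above (v : Place k L) : ∃ w : Place k K, dn (L := L) w = v := by
  obtain ⟨S, hS, hSs⟩ := sum_over (IsScalarTower.toAlgHom k L K) v
  obtain ⟨u, hu0, hu⟩ := v.surj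
  have hfin : 0 < @finrank L K _ _ (IsScalarTower.toAlgHom k L K).toRingHom.toAlgebra.toModule := by
    let _ : Algebra L K := (IsScalarTower.toAlgHom k L K).toRingHom.toAlgebra
    have : FiniteDimensional L K := finite_of_hom (IsScalarTower.toAlgHom k L K)
    exact finrank_pos
  have hne : S.Nonempty := by
    by_contra hcon
    rw [Finset.not_nonempty_iff_eq_empty] at hcon
    have h1 := hSs u
    rw [hcon, Finset.sum_empty, hu, mul_one] at h1
    have h2 : (0 : ℤ) < (@finrank L K _ _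
      (IsScalarTower.toAlgHom k L K).toRingHom.toAlgebra.toModule : ℤ) := by exact_mod_cast hfin
    omega
  obtain ⟨w, hw⟩ := hne
  exact ⟨w, (lies_dn w).unique ((hS w).1 hw)⟩

/-- The invariant part: a word of more than `g` points can be moved to contain a given point. -/
theorem exists_zc_one_move (hA : genus k L + 1 ≤ Fintype.card A) (x : A → Place k K)
    (x0 : Place k K) :
    ∃ x' : A → Place k K, (∃ a, x' a = x0) ∧
      zc (1 : (K ≃ₐ[L] K) →* kˣ) x - zc (1 : (K ≃ₐ[L] K) →* kˣ) x' ∈ RatK k K A := by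
  classical
  obtain ⟨y, f, hf0, ⟨a0, ha0⟩, hyf⟩ := exists_move_fun (L := L) hA
    (fun a => dn (L := L) (x a)) (dn (L := L) x0)
  choose up hup using exists_above (k := k) (L := L) (K := K)
  let x' : A → Place k K := fun a => if a = a0 then x0 else up (y a)
  have hx' : (fun a => dn (L := L) (x' a)) = y := by
    funext a
    simp only [x']
    split_ifs with h
    · rw [h, ha0]
    · exact hup _
  refine ⟨x', ⟨a0, if_pos rfl⟩, ?_⟩
  by_cases hf : Transcendental k f
  · refine zc_one_move hf fun v => ?_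
    rw [hx']
    exact hyf v
  · have h1 : zc (1 : (K ≃ₐ[L] K) →* kˣ) x = zc (1 : (K ≃ₐ[L] K) →* kˣ) x' := by
      refine zc_one_congr fun v => ?_
      rw [hx', hyf v, v.ord_eq_zero_of_isAlgebraic hf0 (by simpa [Transcendental] using hf),
        add_zero]
    rw [h1, sub_self]
    exact Submodule.zero_mem _

end

end Pool.Agent.H833.Tw
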