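import Pool.Agent.H833.Tw.Pencil

/-!
# The norm of a Kummer generator
-/

set_option autoImplicit false
set_option linter.unusedSectionVars false

namespace Pool.Agent.H833.Tw

open FF Pool.Agent.Y107.VC IntermediateField Module Equiv
open Pool.Agent.W603.LV (deg_one)

section

variable {k : Type} [Field k] [CharZero k] [IsAlgClosed k] {E L F : Type} [Field E] [Field L]
  [Field F] [Algebra k E] [Algebra k L] [Algebra k F] [Algebra E L]
  [Algebra E F] [IsScalarTower k E L] [IsScalarTower k E F]
  [IsFF k F] [IsFF k L] [FiniteDimensional E L] [FiniteDimensional E F] [IsGalois E F]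

theorem exists_norm (f : L) (hf : f ≠ 0) :
    ∃ ν : E, ν ≠ 0 ∧ algebraMap E F ν = ∏ j : L →ₐ[E] F, j f := by
  obtain ⟨ν, hν⟩ : (∏ j : L →ₐ[E] F, j f) ∈ Set.range (algebraMap E F) := by
    rw [IsGalois.mem_range_algebraMap_iff_fixed]
    intro γ
    let π0 : (L →ₐ[E] F) ≃ (L →ₐ[E] F) :=
      { toFun := fun i => γ.toAlgHom.comp i
        invFun := fun i => γ.symm.toAlgHom.comp i
        left_inv := fun i => AlgHom.ext fun x => γ.symm_apply_apply _
        right_inv := fun i => AlgHom.ext fun x => γ.apply_symm_apply _ }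
    rw [map_prod]
    exact Equiv.prod_comp π0 fun j => j f
  refine ⟨ν, ?_, hν⟩
  rintro rfl
  rw [map_zero] at hν
  exact Finset.prod_ne_zero_iff.2 (fun j _ => (map_ne_zero_iff _ j.injective).2 hf) hν.symm

/-- The order of the norm at a point of the line. -/
theorem norm_div {t : E} (ht : Transcendental k t) (htop : ∀ u : E, u ∈ k⟮t⟯)
    (j0 : L →ₐ[E] F) {f : L} (hf : f ≠ 0) {c : k} (hc : c ≠ 0) {n : k →₀ ℤ}
    (hn : ∏ j : L →ₐ[E] F, j f = algebraMap k F c * fac (algebraMap E F t) n) (τ : k)
    {V : Finset (Place k L)} (hV : ∀ v, v ∈ V ↔ 0 < v.ord (algebraMap E L t - algebraMap k L τ)) :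
    n τ = ∑ v ∈ V, v.ord f := by
  classical
  have hTt : Transcendental k (algebraMap E F t) := fun h =>
    ht ((isAlgebraic_algebraMap_iff (algebraMap E F).injective).1 h)
  have hT := sub_ne_zero_of_transcendental hTt
  have hTτ : Transcendental k (algebraMap E F t - algebraMap k F τ) := by
    intro h
    have h1 := h.add (isAlgebraic_algebraMap (R := k) (A := F) τ)
    rw [sub_add_cancel] at h1
    exact hTt h1
  obtain ⟨Z, hZ, -, hZs⟩ := zeros hTτ
  have hZ0 : Z.Nonempty := by
    by_contra hcon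
    rw [Finset.not_nonempty_iff_eq_empty] at hcon
    rw [hcon, Finset.sum_empty] at hZs
    have := IsFF.finite hTτ
    exact absurd hZs finrank_pos.ne
  obtain ⟨w, hw⟩ := hZ0
  have hw' := (hZ w).1 hw
  have h1 : w.ord (∏ j : L →ₐ[E] F, j f) =
      n τ * w.ord (algebraMap E F t - algebraMap k F τ) := by
    rw [hn]
    exact ord_fac hT hw' hc n
  rw [ord_prod _ _ _ fun j _ => (map_ne_zero_iff _ j.injective).2 hf] at h1
  have hjt : ∀ j : L →ₐ[E] F, j (algebraMap E L t - algebraMap k L τ) =
      algebraMap E F t - algebraMap k F τ := by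
    intro j
    rw [map_sub, j.commutes]
    congr 1
    exact (j.restrictScalars k).commutes τ
  have h2 : ∀ j : L →ₐ[E] F, w.ord (j f) =
      ∑ v ∈ V, (if Lies (j.restrictScalars k) w v then w.ord (j f) else 0) := by
    intro j
    obtain ⟨v0, hv0⟩ := exists_lies (j.restrictScalars k) w
    have hv0V : v0 ∈ V := by
      rw [hV]
      obtain ⟨m, hm, hm'⟩ := hv0
      have h5 := hm' (algebraMap E L t - algebraMap k L τ)
      change w.ord (j (algebraMap E L t - algebraMap k L τ)) = _ at h5
      rw [hjt] at h5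
      rw [h5] at hw'
      have h6 : (0 : ℤ) < m := by exact_mod_cast hm
      by_contra hcon
      push Not at hcon
      nlinarith
    rw [Finset.sum_eq_single v0]
    · rw [if_pos hv0]
    · intro v' _ hne
      rw [if_neg fun h => hne (h.unique hv0)]
    · intro h
      exact absurd hv0V h
  have h3 : ∀ v ∈ V, ∑ j : L →ₐ[E] F,
      (if Lies (j.restrictScalars k) w v then w.ord (j f) else 0) =
      w.ord (algebraMap E F t - algebraMap k F τ) * v.ord f := by
    intro v hv
    have hv' := (hV v).1 hv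
    refine mul_left_cancel₀ hv'.ne' ?_
    have h4 : v.ord (algebraMap E L t - algebraMap k L τ) * ∑ j : L →ₐ[E] F,
        (if Lies (j.restrictScalars k) w v then w.ord (j f) else 0) =
        ∑ j : L →ₐ[E] F, (if Lies (j.restrictScalars k) w v then (1 : ℤ) else 0) *
          (w.ord (algebraMap E F t - algebraMap k F τ) * v.ord f) := by
      rw [Finset.mul_sum]
      refine Finset.sum_congr rfl fun j _ => ?_
      split_ifs with h
      · obtain ⟨m, hm, hm'⟩ := h
        have h5 := hm' (algebraMap E L t - algebraMap k L τ)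
        have h6 := hm' f
        change w.ord (j (algebraMap E L t - algebraMap k L τ)) = _ at h5
        change w.ord (j f) = _ at h6
        rw [hjt] at h5
        rw [h5, h6]
        ring
      · ring
    rw [h4, ← Finset.sum_mul]
    have h5 := cntE_val ht htop j0 hw' v
    unfold cntE at h5
    rw [h5, max_eq_left hv'.le]
  have h4 : ∑ j : L →ₐ[E] F, w.ord (j f) =
      (∑ v ∈ V, v.ord f) * w.ord (algebraMap E F t - algebraMap k F τ) := by
    rw [Finset.sum_congr rfl fun j _ => h2 j, Finset.sum_comm, Finset.sum_congr rfl h3,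
      Finset.sum_mul]
    exact Finset.sum_congr rfl fun v _ => mul_comm _ _
  rw [h4] at h1
  exact (mul_right_cancel₀ hw'.ne' h1).symm

end

section

variable {k : Type} [Field k] [CharZero k] [IsAlgClosed k] {L : Type} [Field L] [Algebra k L]
  [IsFF k L]

/-- The value of a function at a point is unique. -/
theorem val_unique {v : Place k L} {h : L} (hh : Transcendental k h) {τ τ' : k}
    (h1 : 0 < v.ord (h - algebraMap k L τ)) (h2 : 0 < v.ord (h - algebraMap k L τ')) : τ = τ' := by
  by_contra hne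
  have h3 : algebraMap k L (τ' - τ) ≠ 0 := by
    rw [Ne, map_eq_zero]
    exact sub_ne_zero.2 (Ne.symm hne)
  have h4 := sub_ne_zero_of_transcendental hh τ
  have h5 := sub_ne_zero_of_transcendental hh τ'
  have h6 : (h - algebraMap k L τ) - (h - algebraMap k L τ') = algebraMap k L (τ' - τ) := by
    rw [map_sub]
    ring
  have h7 := v.ord_sub h4 h5 (by rw [h6]; exact h3)
  rw [h6, v.ord_const (sub_ne_zero.2 (Ne.symm hne))] at h7
  omega

/-- The divisor of the norm modulo `m`. -/
theorem class_sum {h f : L} (hh : Transcendental k h) {m : ℕ} {R : Finset (Place k L)}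
    (hR : ∀ v : Place k L, v ∉ R → (m : ℤ) ∣ v.ord f) {Q : Type} [DecidableEq Q]
    (cl : Place k L → Q) (val : Q → k) {a b : Q} (hab : a ≠ b)
    (hval : ∀ v ∈ R, 0 < v.ord (h - algebraMap k L (val (cl v))))
    (hs : ∀ q, q ≠ a → q ≠ b → (m : ℤ) ∣ ∑ v ∈ R.filter fun v => cl v = q, v.ord f)
    (hsab : (m : ℤ) ∣ ∑ v ∈ R.filter (fun v => cl v = a), v.ord f +
      ∑ v ∈ R.filter (fun v => cl v = b), v.ord f)
    (τ : k) {V : Finset (Place k L)} (hV : ∀ v, v ∈ V ↔ 0 < v.ord (h - algebraMap k L τ)) :
    (m : ℤ) ∣ ∑ v ∈ V, v.ord f - (∑ v ∈ R.filter (fun v => cl v = a), v.ord f) *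
      ((Finsupp.single (val a) 1 : k →₀ ℤ) τ - (Finsupp.single (val b) 1 : k →₀ ℤ) τ) := by
  classical
  have h1 : ∑ v ∈ V, v.ord f = ∑ v ∈ V \ R, v.ord f + ∑ v ∈ V ∩ R, v.ord f := by
    rw [add_comm]
    exact (Finset.sum_inter_add_sum_sdiff V R _).symm
  have h2 : V ∩ R = R.filter fun v => val (cl v) = τ := by
    ext v
    rw [Finset.mem_inter, Finset.mem_filter, hV]
    constructor
    · rintro ⟨h3, h4⟩
      exact ⟨h4, val_unique hh (hval v h4) h3⟩
    · rintro ⟨h3, h4⟩
      refine ⟨?_, h3⟩
      rw [← h4]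
      exact hval v h3
  have h3 : ∑ v ∈ R.filter (fun v => val (cl v) = τ), v.ord f =
      ∑ q ∈ insert a (insert b (R.image cl)), if val q = τ then
        ∑ v ∈ R.filter (fun v => cl v = q), v.ord f else 0 := by
    rw [← Finset.sum_fiberwise_of_maps_to (g := cl) (t := insert a (insert b (R.image cl)))
      (s := R.filter fun v => val (cl v) = τ) (fun v hv => Finset.mem_insert_of_mem
        (Finset.mem_insert_of_mem (Finset.mem_image_of_mem _ (Finset.mem_of_mem_filter v hv))))]
    refine Finset.sum_congr rfl fun q _ => ?_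
    split_ifs with h4
    · congr 1
      ext v
      rw [Finset.mem_filter, Finset.mem_filter, Finset.mem_filter]
      constructor
      · rintro ⟨⟨h5, h6⟩, h7⟩
        exact ⟨h5, h7⟩
      · rintro ⟨h5, h6⟩
        exact ⟨⟨h5, by rw [h6, h4]⟩, h6⟩
    · refine Finset.sum_eq_zero fun v hv => ?_
      rw [Finset.mem_filter, Finset.mem_filter] at hv
      exfalso
      apply h4
      rw [← hv.2]
      exact hv.1.2
  have h4 : (m : ℤ) ∣ ∑ v ∈ V \ R, v.ord f := by
    refine Finset.dvd_sum fun v hv => hR v ?_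
    exact (Finset.mem_sdiff.1 hv).2
  have h5 : ∑ q ∈ insert a (insert b (R.image cl)), (if val q = τ then
      ∑ v ∈ R.filter (fun v => cl v = q), v.ord f else 0) =
      (if val a = τ then ∑ v ∈ R.filter (fun v => cl v = a), v.ord f else 0) +
      ((if val b = τ then ∑ v ∈ R.filter (fun v => cl v = b), v.ord f else 0) +
      ∑ q ∈ ((insert a (insert b (R.image cl))).erase a).erase b, (if val q = τ then
        ∑ v ∈ R.filter (fun v => cl v = q), v.ord f else 0)) := by
    rw [← Finset.add_sum_erase _ _ (Finset.mem_insert_self a (insert b (R.image cl)))]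
    congr 1
    rw [← Finset.add_sum_erase _ _ (Finset.mem_erase.2 ⟨hab.symm, Finset.mem_insert_of_mem
      (Finset.mem_insert_self b (R.image cl))⟩)]
  have h6 : (m : ℤ) ∣ ∑ q ∈ ((insert a (insert b (R.image cl))).erase a).erase b,
      (if val q = τ then ∑ v ∈ R.filter (fun v => cl v = q), v.ord f else 0) := by
    refine Finset.dvd_sum fun q hq => ?_
    split_ifs
    · refine hs q ?_ ?_
      · exact Finset.ne_of_mem_erase (Finset.mem_of_mem_erase hq)
      · exact Finset.ne_of_mem_erase hq
    · exact dvd_zero _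
  rw [h1, h2, h3, h5, Finsupp.single_apply, Finsupp.single_apply]
  obtain ⟨x, hx⟩ := h4
  obtain ⟨y, hy⟩ := h6
  obtain ⟨z, hz⟩ := hsab
  rw [hx, hy]
  have hz' : ∑ v ∈ R.filter (fun v => cl v = b), v.ord f =
    m * z - ∑ v ∈ R.filter (fun v => cl v = a), v.ord f := by linarith
  rw [hz']
  split_ifs
  · exact ⟨x + (z + y), by ring⟩
  · exact ⟨x + y, by ring⟩
  · exact ⟨x + (z + y), by ring⟩
  · exact ⟨x + y, by ring⟩

end

end Pool.Agent.H833.Tw
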