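import Pool.Agent.H833.Tw.Emb

/-!
# The twisted cycles in a pencil
-/

set_option autoImplicit false
set_option linter.unusedSectionVars false

namespace Pool.Agent.H833.Tw

open FF Pool.Agent.Y107.VC IntermediateField Module Equiv
open Pool.Agent.W603.LV (deg_one)

section

variable {k : Type} [Field k] [CharZero k] [IsAlgClosed k] {E L K F : Type} [Field E] [Field L]
  [Field K] [Field F] [Algebra k E] [Algebra k L] [Algebra k K] [Algebra k F] [Algebra E L]
  [Algebra E K] [Algebra E F] [Algebra L K] [IsScalarTower k E L] [IsScalarTower k E K]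
  [IsScalarTower k E F] [IsScalarTower k L K] [IsScalarTower E L K]
  [IsFF k F] [IsFF k K] [IsFF k L]

/-- The point of the base curve below a point. -/
noncomputable def dn (w : Place k K) : Place k L := mor (IsScalarTower.toAlgHom k L K) w

theorem lies_dn (w : Place k K) :
    Lies (IsScalarTower.toAlgHom k L K) w (dn (L := L) w) := mor_spec _ _

/-- The point given by an embedding. -/
noncomputable def pt (φ : K →ₐ[E] F) (w : Place k F) : Place k K := mor (φ.restrictScalars k) w

theorem pt_eq {φ : K →ₐ[E] F} {w : Place k F} {v : Place k K}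
    (h : Lies (φ.restrictScalars k) w v) : pt φ w = v :=
  (mor_spec (φ.restrictScalars k) w).unique h

theorem pt_comp (φ ψ : K →ₐ[E] F) (γ : F ≃ₐ[E] F) (σ : K ≃ₐ[L] K) (w : Place k F)
    (h : ∀ x, γ (φ x) = ψ (σ x)) : pt φ (w.comp (γ.restrictScalars k)) = tw (pt ψ w) σ := by
  apply pt_eq
  obtain ⟨m, hm, h1⟩ := mor_spec (ψ.restrictScalars k) w
  refine ⟨m, hm, fun f => ?_⟩
  change w.ord (γ (φ f)) = m * (pt ψ w).ord (σ f)
  rw [h f]
  exact h1 (σ f)

theorem lies_dn_pt {φ : K →ₐ[E] F} {j : L →ₐ[E] F} (h : ∀ x : L, φ (algebraMap L K x) = j x)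
    (w : Place k F) : Lies (j.restrictScalars k) w (dn (L := L) (pt φ w)) := by
  have h1 := (mor_spec (φ.restrictScalars k) w).trans (lies_dn (L := L) (pt φ w))
  have h2 : (φ.restrictScalars k).comp (IsScalarTower.toAlgHom k L K) = j.restrictScalars k :=
    AlgHom.ext fun x => h x
  rwa [h2] at h1

variable {A : Type}

open Classical in
/-- The words of the pencil. -/
noncomputable def word (e : (L →ₐ[E] F) → (K →ₐ[E] F)) (ι : (L →ₐ[E] F) → A) (x : A → Place k K)
    (w : Place k F) : A → Place k K :=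
  fun a => if h : ∃ j, ι j = a then pt (e h.choose) w else x a

theorem word_ι {e : (L →ₐ[E] F) → (K →ₐ[E] F)} {ι : (L →ₐ[E] F) → A} (hι : Function.Injective ι)
    (x : A → Place k K) (w : Place k F) (j : L →ₐ[E] F) :
    word e ι x w (ι j) = pt (e j) w := by
  classical
  have h1 : ∃ j', ι j' = ι j := ⟨j, rfl⟩
  have h2 : word e ι x w (ι j) = pt (e h1.choose) w := dif_pos h1
  rw [h2, hι h1.choose_spec]

theorem word_of_not {e : (L →ₐ[E] F) → (K →ₐ[E] F)} {ι : (L →ₐ[E] F) → A}
    (x : A → Place k K) (w : Place k F) {a : A} (ha : ¬∃ j, ι j = a) :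
    word e ι x w a = x a := dif_neg ha

theorem isMor_word {e : (L →ₐ[E] F) → (K →ₐ[E] F)} {ι : (L →ₐ[E] F) → A}
    (hι : Function.Injective ι) (x : A → Place k K) (a : A) :
    IsMor fun w : Place k F => word e ι x w a := by
  by_cases ha : ∃ j, ι j = a
  · obtain ⟨j, rfl⟩ := ha
    have h3 : (fun w : Place k F => word e ι x w (ι j)) = mor ((e j).restrictScalars k) :=
      funext fun w => word_ι hι x w j
    rw [h3]
    exact isMor_mor _
  · have h3 : (fun w : Place k F => word e ι x w a) = fun _ => x a :=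
      funext fun w => word_of_not x w ha
    rw [h3]
    exact isMor_const _

variable [FiniteDimensional E L] [FiniteDimensional L K] [FiniteDimensional E F] [IsGalois E F]
  [IsGalois L K] [Fintype A] [DecidableEq A]

/-- The twisted cycles at conjugate places agree, if the automorphism fixes the product of the
conjugates of the Kummer generator. -/
theorem zc_word_comp {e : (L →ₐ[E] F) → (K →ₐ[E] F)} {ι : (L →ₐ[E] F) → A}
    (hι : Function.Injective ι) (he : ∀ j (x : L), e j (algebraMap L K x) = j x)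
    (x : A → Place k K) (χ : (K ≃ₐ[L] K) →* kˣ) {y : K} (hy : y ≠ 0)
    (hyχ : ∀ σ : K ≃ₐ[L] K, σ y = algebraMap k K (χ σ) * y) (γ : F ≃ₐ[E] F)
    (hγ : γ (∏ j, e j y) = ∏ j, e j y) (w : Place k F) :
    zc χ (word e ι x (w.comp (γ.restrictScalars k))) = zc χ (word e ι x w) := by
  classical
  let π0 : (L →ₐ[E] F) ≃ (L →ₐ[E] F) :=
    { toFun := fun i => γ.toAlgHom.comp i
      invFun := fun i => γ.symm.toAlgHom.comp i
      left_inv := fun i => AlgHom.ext fun x => γ.symm_apply_apply _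
      right_inv := fun i => AlgHom.ext fun x => γ.apply_symm_apply _ }
  have h1 : ∀ j, ∃ σ : K ≃ₐ[L] K, ∀ x, γ (e j x) = e (π0 j) (σ x) := by
    intro j
    refine exists_torsor (γ.toAlgHom.comp (e j)) (e (π0 j)) fun x => ?_
    rw [he]
    change γ (e j (algebraMap L K x)) = γ (j x)
    rw [he]
  choose σ hσ using h1
  let π : Perm A := Perm.viaFintypeEmbedding (π0 : Perm (L →ₐ[E] F)) ⟨ι, hι⟩
  let h : A → (K ≃ₐ[L] K) := fun a => if ha : ∃ j, ι j = a then σ ha.choose else 1
  have hh : ∀ j, h (ι j) = σ j := by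
    intro j
    have h1 : ∃ j', ι j' = ι j := ⟨j, rfl⟩
    have h2 : h (ι j) = σ h1.choose := dif_pos h1
    rw [h2, hι h1.choose_spec]
  have hword : word e ι x (w.comp (γ.restrictScalars k)) =
      fun a => tw (word e ι x w (π a)) (h a) := by
    funext a
    by_cases ha : ∃ j, ι j = a
    · obtain ⟨j, rfl⟩ := ha
      have h2 : π (ι j) = ι (π0 j) :=
        Perm.viaFintypeEmbedding_apply_image (π0 : Perm (L →ₐ[E] F)) ⟨ι, hι⟩ j
      rw [word_ι hι, h2, word_ι hι, hh]
      exact pt_comp (e j) (e (π0 j)) γ (σ j) w (hσ j)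
    · have h2 : π a = a :=
        Perm.viaFintypeEmbedding_apply_notMem_range (π0 : Perm (L →ₐ[E] F)) ⟨ι, hι⟩ (by
          rintro ⟨j, hj⟩
          exact ha ⟨j, hj⟩)
      have h3 : h a = 1 := dif_neg ha
      rw [h2, word_of_not x _ ha, word_of_not x _ ha, h3, tw_one]
  have hprod : ∏ a, ((χ (h a) : kˣ) : k) = ∏ j, ((χ (σ j) : kˣ) : k) := by
    symm
    refine Fintype.prod_of_injective ι hι _ _ (fun a ha => ?_) fun j => ?_
    · have h3 : h a = 1 := dif_neg fun h => ha h
      rw [h3, map_one, Units.val_one]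
    · rw [hh]
  have hW0 : ∏ j, e j y ≠ 0 := Finset.prod_ne_zero_iff.2 fun j _ =>
    (map_ne_zero_iff _ (e j).injective).2 hy
  have h2 : γ (∏ j, e j y) = algebraMap k F (∏ j, ((χ (σ j) : kˣ) : k)) * ∏ j, e j y := by
    rw [map_prod, map_prod]
    have h3 : ∀ j, γ (e j y) = algebraMap k F ((χ (σ j) : kˣ) : k) * e (π0 j) y := by
      intro j
      rw [hσ, hyχ, map_mul]
      congr 1
      exact ((e (π0 j)).restrictScalars k).commutes _
    rw [Finset.prod_congr rfl fun j _ => h3 j, Finset.prod_mul_distrib]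
    congr 1
    exact Equiv.prod_comp π0 fun j => e j y
  have h3 : ∏ j, ((χ (σ j) : kˣ) : k) = 1 := by
    rw [hγ] at h2
    have h4 : algebraMap k F (∏ j, ((χ (σ j) : kˣ) : k)) = 1 := by
      have h5 : algebraMap k F (∏ j, ((χ (σ j) : kˣ) : k)) * ∏ j, e j y = 1 * ∏ j, e j y := by
        rw [← h2, one_mul]
      exact mul_right_cancel₀ hW0 h5
    have h5 := (algebraMap k F).injective (h4.trans (map_one _).symm)
    exact h5
  rw [hword, zc_tw, zc_perm, hprod, h3, one_smul]

/-- The lifts of the embeddings. -/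
theorem exists_lifts {t : E} (ht : Transcendental k t) (htop : ∀ u : E, u ∈ k⟮t⟯)
    (i0 : K →ₐ[E] F) (x : A → Place k K)
    (hx : ∀ v : Place k L, max (-v.ord (algebraMap E L t)) 0 ≤ cnt (fun a => dn (L := L) (x a)) v)
    {w0 : Place k F} (hw0 : w0.ord (algebraMap E F t) < 0) :
    ∃ (e : (L →ₐ[E] F) → (K →ₐ[E] F)) (ι : (L →ₐ[E] F) → A), Function.Injective ι ∧
      (∀ j (x : L), e j (algebraMap L K x) = j x) ∧ word e ι x w0 = x := by
  classical
  let j0 : L →ₐ[E] F := i0.comp (IsScalarTower.toAlgHom E L K)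
  obtain ⟨ι, hι, hιx⟩ := exists_inj (x := fun a => dn (L := L) (x a))
    (t := fun j : L →ₐ[E] F => mor (j.restrictScalars k) w0) (fun v => by
      rw [cnt_mor (fun j : L →ₐ[E] F => j.restrictScalars k) w0 v]
      have h1 := cntE_pole ht htop j0 hw0 v
      unfold cntE at h1
      rw [h1]
      exact hx v)
  have h1 : ∀ j, ∃ φ : K →ₐ[E] F, (∀ x : L, φ (algebraMap L K x) = j x) ∧
      pt φ w0 = x (ι j) := by
    intro j
    obtain ⟨φ, hφ⟩ := exists_lift_emb i0 j
    have h2 := lies_dn_pt (k := k) hφ w0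
    have h3 : dn (L := L) (pt φ w0) = dn (L := L) (x (ι j)) := by
      rw [hιx j]
      exact h2.unique (mor_spec _ _)
    have h4 := lies_dn (L := L) (pt φ w0)
    rw [h3] at h4
    obtain ⟨σ, hσ⟩ := exists_tw h4 (lies_dn (L := L) (x (ι j)))
    refine ⟨φ.comp (σ.restrictScalars E : K ≃ₐ[E] K).toAlgHom, fun u => ?_, ?_⟩
    · change φ (σ (algebraMap L K u)) = j u
      rw [σ.commutes, hφ]
    · rw [hσ]
      have h5 := pt_comp (k := k) (φ.comp (σ.restrictScalars E : K ≃ₐ[E] K).toAlgHom) φ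
        (AlgEquiv.refl : F ≃ₐ[E] F) σ w0 fun _ => rfl
      rw [← h5]
      rfl
  choose e he he' using h1
  refine ⟨e, ι, hι, he, ?_⟩
  funext a
  by_cases ha : ∃ j, ι j = a
  · obtain ⟨j, rfl⟩ := ha
    rw [word_ι hι, he']
  · exact word_of_not x w0 ha

end

end Pool.Agent.H833.Tw
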