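import Pool.Agent.H833.Tw.Stab

/-!
# Rational functions, and functions on cyclic covers of the line with two branch points
-/

set_option autoImplicit false
set_option linter.unusedSectionVars false

namespace Pool.Agent.H833.Tw

open FF Pool.Agent.W619.PQ Pool.Agent.Y107.VC IntermediateField
open Pool.Agent.W603.LV

section

variable {k : Type} [Field k] [IsAlgClosed k] {F : Type} [Field F] [Algebra k F]

/-- The function with the divisor `n` on the affine line. -/
noncomputable def fac (T : F) (n : k →₀ ℤ) : F := n.prod fun τ i => (T - algebraMap k F τ) ^ i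

theorem fac_add {T : F} (hT : ∀ τ : k, T - algebraMap k F τ ≠ 0) (n n' : k →₀ ℤ) :
    fac T (n + n') = fac T n * fac T n' :=
  Finsupp.prod_add_index' (fun _ => zpow_zero _) fun τ i j => zpow_add₀ (hT τ) i j

theorem fac_zero (T : F) : fac T (0 : k →₀ ℤ) = 1 := Finsupp.prod_zero_index

theorem fac_single {T : F} (τ : k) (i : ℤ) :
    fac T (Finsupp.single τ i) = (T - algebraMap k F τ) ^ i :=
  Finsupp.prod_single_index (zpow_zero _)

theorem fac_ne_zero {T : F} (hT : ∀ τ : k, T - algebraMap k F τ ≠ 0) (n : k →₀ ℤ) :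
    fac T n ≠ 0 :=
  Finset.prod_ne_zero_iff.2 fun τ _ => zpow_ne_zero _ (hT τ)

theorem fac_nsmul {T : F} (hT : ∀ τ : k, T - algebraMap k F τ ≠ 0) (n : k →₀ ℤ) (m : ℕ) :
    fac T (m • n) = fac T n ^ m := by
  induction m with
  | zero => rw [zero_smul, fac_zero, pow_zero]
  | succ m ih => rw [succ_nsmul, fac_add hT, ih, pow_succ]

theorem fac_neg {T : F} (hT : ∀ τ : k, T - algebraMap k F τ ≠ 0) (n : k →₀ ℤ) :
    fac T (-n) = (fac T n)⁻¹ := by
  refine eq_inv_of_mul_eq_one_left ?_
  rw [← fac_add hT, neg_add_cancel, fac_zero]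

open Polynomial in
theorem aeval_eq_fac {T : F} (hT : ∀ τ : k, T - algebraMap k F τ ≠ 0) (N : ℕ) :
    ∀ r : k[X], r ≠ 0 → r.natDegree = N →
      ∃ (c : k) (n : k →₀ ℤ), c ≠ 0 ∧ aeval T r = algebraMap k F c * fac T n := by
  induction N with
  | zero =>
    intro r hr h
    rw [eq_C_of_natDegree_eq_zero h] at hr ⊢
    refine ⟨r.coeff 0, 0, ?_, ?_⟩
    · rintro h0
      rw [h0, map_zero] at hr
      exact hr rfl
    · rw [aeval_C, fac_zero, mul_one]
  | succ N ih =>
    intro r hr h
    obtain ⟨a, ha⟩ := IsAlgClosed.exists_root r (by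
      rw [degree_eq_natDegree hr, h]
      exact_mod_cast Nat.succ_ne_zero N)
    obtain ⟨s, hs⟩ := dvd_iff_isRoot.2 ha
    have hs0 : s ≠ 0 := by
      rintro rfl
      rw [mul_zero] at hs
      exact hr hs
    have hd : s.natDegree = N := by
      have h1 : r.natDegree = (X - C a).natDegree + s.natDegree := by
        rw [hs, natDegree_mul (X_sub_C_ne_zero a) hs0]
      rw [natDegree_X_sub_C, h] at h1
      omega
    obtain ⟨c, n, hc, hcn⟩ := ih s hs0 hd
    refine ⟨c, Finsupp.single a 1 + n, hc, ?_⟩
    rw [hs, map_mul, hcn, fac_add hT, fac_single, zpow_one, map_sub, aeval_X, aeval_C]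
    ring

theorem sub_ne_zero_of_transcendental {T : F} (hT : Transcendental k T) (τ : k) :
    T - algebraMap k F τ ≠ 0 := by
  intro h
  rw [sub_eq_zero] at h
  rw [h] at hT
  exact hT (isAlgebraic_algebraMap τ)

/-- The factorisation of the rational functions. -/
theorem exists_fac {E : Type} [Field E] [Algebra k E] [Algebra E F] [IsScalarTower k E F] {t : E}
    (ht : Transcendental k t) (htop : ∀ u : E, u ∈ k⟮t⟯) {ν : E} (hν : ν ≠ 0) :
    ∃ (c : k) (n : k →₀ ℤ), c ≠ 0 ∧
      algebraMap E F ν = algebraMap k F c * fac (algebraMap E F t) n ∧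
      ν = algebraMap k E c * fac t n := by
  have hT := sub_ne_zero_of_transcendental ht
  obtain ⟨r, s, hrs⟩ := (mem_adjoin_simple_iff k ν).1 (htop ν)
  have hr : r ≠ 0 := by
    rintro rfl
    rw [map_zero, zero_div] at hrs
    exact hν hrs
  have hs : s ≠ 0 := by
    rintro rfl
    rw [map_zero, div_zero] at hrs
    exact hν hrs
  obtain ⟨c, n, hc, hcn⟩ := aeval_eq_fac hT _ r hr rfl
  obtain ⟨c', n', hc', hcn'⟩ := aeval_eq_fac hT _ s hs rfl
  have h1 : ν = algebraMap k E (c / c') * fac t (n - n') := by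
    rw [hrs, hcn, hcn', sub_eq_add_neg, fac_add hT, fac_neg hT, map_div₀]
    field_simp
  refine ⟨c / c', n - n', div_ne_zero hc hc', ?_, h1⟩
  conv_lhs => rw [h1]
  rw [map_mul, ← IsScalarTower.algebraMap_apply]
  congr 1
  unfold fac Finsupp.prod
  rw [map_prod]
  refine Finset.prod_congr rfl fun τ _ => ?_
  rw [map_zpow₀, map_sub, ← IsScalarTower.algebraMap_apply]

/-- The order at a point over `τ`. -/
theorem ord_fac {T : F} (hT : ∀ τ : k, T - algebraMap k F τ ≠ 0) {w : Place k F} {τ : k}
    (hw : 0 < w.ord (T - algebraMap k F τ)) {c : k} (hc : c ≠ 0) (n : k →₀ ℤ) :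
    w.ord (algebraMap k F c * fac T n) = n τ * w.ord (T - algebraMap k F τ) := by
  classical
  have hc' : algebraMap k F c ≠ 0 := by rw [Ne, map_eq_zero]; exact hc
  rw [w.ord_mul hc' (fac_ne_zero hT n), w.ord_const hc, zero_add]
  unfold fac Finsupp.prod
  rw [ord_prod _ _ _ fun τ _ => zpow_ne_zero _ (hT τ)]
  have h1 : ∀ τ' ∈ n.support, w.ord ((T - algebraMap k F τ') ^ n τ') =
      if τ' = τ then n τ * w.ord (T - algebraMap k F τ) else 0 := by
    intro τ' _
    rw [w.ord_zpow]
    split_ifs with h
    · rw [h]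
    · have h2 : T - algebraMap k F τ' = algebraMap k F (τ - τ') + (T - algebraMap k F τ) := by
        rw [map_sub]
        ring
      have h3 : τ - τ' ≠ 0 := sub_ne_zero.2 (Ne.symm h)
      have h4 : algebraMap k F (τ - τ') ≠ 0 := by rw [Ne, map_eq_zero]; exact h3
      rw [h2, (w.ord_add_eq h4 (hT τ) (by rw [w.ord_const h3]; exact hw)).2, w.ord_const h3,
        mul_zero]
  rw [Finset.sum_congr rfl h1, Finset.sum_ite_eq']
  split_ifs with h
  · rfl
  · rw [Finsupp.notMem_support_iff.1 h, zero_mul]

/-- A divisor which is divisible by `m` up to two points. -/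
theorem fac_eq_mul_pow {T : F} (hT : ∀ τ : k, T - algebraMap k F τ ≠ 0) {n : k →₀ ℤ} {m : ℕ}
    {e : ℤ} {α β : k}
    (h : ∀ τ, (m : ℤ) ∣ n τ - e * ((Finsupp.single α 1 : k →₀ ℤ) τ -
      (Finsupp.single β 1 : k →₀ ℤ) τ)) :
    ∃ n' : k →₀ ℤ, fac T n =
      ((T - algebraMap k F α) / (T - algebraMap k F β)) ^ e * fac T n' ^ m := by
  classical
  obtain ⟨d, hd0, hd⟩ : ∃ d : k →₀ ℤ, d = Finsupp.single α e + -Finsupp.single β e ∧
      ∀ τ, d τ = e * ((Finsupp.single α 1 : k →₀ ℤ) τ - (Finsupp.single β 1 : k →₀ ℤ) τ) := by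
    refine ⟨_, rfl, fun τ => ?_⟩
    simp only [Finsupp.add_apply, Finsupp.neg_apply, Finsupp.single_apply]
    split_ifs <;> ring
  refine ⟨(n - d).mapRange (fun i => i / (m : ℤ)) (by simp), ?_⟩
  rw [← fac_nsmul hT]
  have h1 : n = d + m • (n - d).mapRange (fun i => i / (m : ℤ)) (by simp) := by
    ext τ
    rw [Finsupp.add_apply, Finsupp.smul_apply, Finsupp.mapRange_apply, Finsupp.sub_apply,
      nsmul_eq_mul, Int.mul_ediv_cancel' (by rw [hd]; exact h τ)]
    ring
  have h2 : fac T d = ((T - algebraMap k F α) / (T - algebraMap k F β)) ^ e := by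
    rw [hd0, fac_add hT, fac_neg hT, fac_single, fac_single, div_zpow, div_eq_mul_inv]
  conv_lhs => rw [h1]
  rw [fac_add hT, h2]

/-- Roots of constants are constants. -/
theorem const_of_pow {z : F} {g : ℕ} (hg : 0 < g) {c : k} (h : z ^ g = algebraMap k F c) :
    ∃ c' : k, z = algebraMap k F c' := by
  have h1 : IsIntegral k z := IsIntegral.of_pow hg (by rw [h]; exact isIntegral_algebraMap)
  obtain ⟨c', hc'⟩ := minpoly.mem_range_of_degree_eq_one k z
    (IsAlgClosed.degree_eq_one_of_irreducible k (minpoly.irreducible h1))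
  exact ⟨c', hc'.symm⟩

/-- The generator of a cyclic cover of the line with two branch points. -/
theorem exists_root_generator {τ q : F} (hτ : τ ≠ 0) (hq : q ≠ 0) {m : ℕ} (hm : 0 < m) {e : ℤ}
    {c : k} (h : τ ^ m = algebraMap k F c * q ^ e) :
    ∃ (s : F) (c1 c2 : k) (e' : ℤ) (m' : ℕ), s ≠ 0 ∧ c1 ≠ 0 ∧ c2 ≠ 0 ∧ 0 < m' ∧
      s ^ m' = algebraMap k F c2 * q ∧ τ = algebraMap k F c1 * s ^ e' := by
  have hmz : (m : ℤ) ≠ 0 := by exact_mod_cast hm.ne'
  let g : ℕ := Int.gcd e m
  have hg : 0 < g := Int.gcd_pos_of_ne_zero_right _ hmz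
  obtain ⟨e', he'⟩ : (g : ℤ) ∣ e := Int.gcd_dvd_left _ _
  obtain ⟨m', hm'⟩ : g ∣ m := by
    have h1 : (g : ℤ) ∣ m := Int.gcd_dvd_right _ _
    exact_mod_cast h1
  have hm'0 : 0 < m' := by
    rcases Nat.eq_zero_or_pos m' with h1 | h1
    · rw [h1, mul_zero] at hm'
      omega
    · exact h1
  obtain ⟨a, b, hab⟩ : ∃ a b : ℤ, a * e' + b * m' = 1 := by
    have h1 := Int.gcd_eq_gcd_ab e m
    refine ⟨Int.gcdA e m, Int.gcdB e m, ?_⟩
    have h2 : (g : ℤ) * (Int.gcdA e m * e' + Int.gcdB e m * m') = g * 1 := by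
      rw [mul_one]
      have h3 : (m : ℤ) = g * m' := by exact_mod_cast hm'
      calc (g : ℤ) * (Int.gcdA e m * e' + Int.gcdB e m * m') =
          (g * e') * Int.gcdA e m + (g * m') * Int.gcdB e m := by ring
        _ = e * Int.gcdA e m + m * Int.gcdB e m := by rw [← he', ← h3]
        _ = g := h1.symm
    exact mul_left_cancel₀ (by exact_mod_cast hg.ne') h2
  have h1 : (τ ^ m' / q ^ e') ^ g = algebraMap k F c := by
    rw [div_pow, ← pow_mul, mul_comm m' g, ← hm', h, ← zpow_natCast (q ^ e') g, ← zpow_mul,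
      mul_comm e' g, ← he', mul_div_assoc, div_self (zpow_ne_zero _ hq), mul_one]
  obtain ⟨c', hc'⟩ := const_of_pow hg h1
  have hc'F : algebraMap k F c' ≠ 0 := by
    rw [← hc']
    exact div_ne_zero (pow_ne_zero _ hτ) (zpow_ne_zero _ hq)
  have hc'0 : c' ≠ 0 := by
    rintro rfl
    exact hc'F (map_zero _)
  have h2 : τ ^ m' = algebraMap k F c' * q ^ e' := by
    rw [← hc', div_mul_cancel₀ _ (zpow_ne_zero _ hq)]
  have h2' : τ ^ (m' : ℤ) = algebraMap k F c' * q ^ e' := by rw [zpow_natCast, h2]
  refine ⟨τ ^ a * q ^ b, c' ^ b, c' ^ a, e', m', mul_ne_zero (zpow_ne_zero _ hτ)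
    (zpow_ne_zero _ hq), zpow_ne_zero _ hc'0, zpow_ne_zero _ hc'0, hm'0, ?_, ?_⟩
  · rw [← zpow_natCast, mul_zpow, ← zpow_mul, ← zpow_mul, mul_comm a, zpow_mul, h2', mul_zpow,
      ← zpow_mul, map_zpow₀, mul_assoc, ← zpow_add₀ hq, mul_comm e' a, hab, zpow_one]
  · rw [mul_zpow, ← zpow_mul, ← zpow_mul, map_zpow₀]
    have h3 : q ^ (b * e') = (τ ^ (m' : ℤ) / algebraMap k F c') ^ b := by
      rw [h2', mul_div_cancel_left₀ _ hc'F, ← zpow_mul, mul_comm]
    rw [h3, div_zpow, ← zpow_mul, mul_comm (m' : ℤ) b]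
    have h4 : τ ^ (a * e') * τ ^ (b * m') = τ := by
      rw [← zpow_add₀ hτ, hab, zpow_one]
    field_simp
    exact h4.symm

end

section

variable {k : Type} [Field k] [IsAlgClosed k] [CharZero k] {F : Type} [Field F] [Algebra k F]

theorem ord_sub_const_of_neg {w : Place k F} {T : F} (hw : w.ord T < 0) (α : k) :
    w.ord (T - algebraMap k F α) = w.ord T := by
  have hT0 : T ≠ 0 := by
    rintro rfl
    rw [w.ord_zero] at hw
    exact lt_irrefl _ hw
  by_cases hα : α = 0
  · rw [hα, map_zero, sub_zero]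
  · have h1 : algebraMap k F (-α) ≠ 0 := by
      rw [Ne, map_eq_zero]
      exact neg_ne_zero.2 hα
    have h2 := (w.ord_add_eq hT0 h1 (by rw [w.ord_const (neg_ne_zero.2 hα)]; exact hw)).2
    rw [← h2, map_neg, sub_eq_add_neg]

theorem ord_nonneg_of_pos {w : Place k F} {T : F} {β : k}
    (hw : 0 ≤ w.ord (T - algebraMap k F β)) : 0 ≤ w.ord T := by
  by_contra h
  push Not at h
  rw [ord_sub_const_of_neg h] at hw
  omega

variable {E : Type} [Field E] [Algebra k E] [Algebra E F] [IsScalarTower k E F]
  [FiniteDimensional E F] [IsGalois E F] [IsFF k F]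

/-- A function whose zeros are conjugate to the place `w0` over infinity, by automorphisms which
fix `W`, and whose poles lie over `β`. -/
theorem exists_phi {t : E} (ht : Transcendental k t) (htop : ∀ u : E, u ∈ k⟮t⟯) {W : F}
    {m : ℕ} (hm : 0 < m) {e : ℤ} {α β c : k} (hc : c ≠ 0) {R : E} (hR : R ≠ 0)
    (hW : W ^ m = algebraMap k F c * ((algebraMap E F t - algebraMap k F α) /
      (algebraMap E F t - algebraMap k F β)) ^ e * algebraMap E F R ^ m)
    {w0 : Place k F} (hw0 : w0.ord (algebraMap E F t) < 0) :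
    ∃ φ : F, φ ≠ 0 ∧ 0 < w0.ord φ ∧
      (∀ w : Place k F, 0 < w.ord φ →
        ∃ γ : F ≃ₐ[E] F, γ W = W ∧ w = w0.comp (γ.restrictScalars k)) ∧
      ∀ w : Place k F, w.ord φ < 0 → 0 < w.ord (algebraMap E F t - algebraMap k F β) := by
  set T : F := algebraMap E F t with hTdef
  have hTt : Transcendental k T := fun h =>
    ht ((isAlgebraic_algebraMap_iff (algebraMap E F).injective).1 h)
  have hT := sub_ne_zero_of_transcendental hTt
  have hRF : algebraMap E F R ≠ 0 := by rw [Ne, map_eq_zero]; exact hR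
  have hW0 : W ≠ 0 := by
    rintro rfl
    rw [zero_pow hm.ne'] at hW
    refine absurd hW.symm ?_
    refine mul_ne_zero (mul_ne_zero ?_ (zpow_ne_zero _ (div_ne_zero (hT α) (hT β))))
      (pow_ne_zero _ hRF)
    rw [Ne, map_eq_zero]
    exact hc
  have hτ0 : W / algebraMap E F R ≠ 0 := div_ne_zero hW0 hRF
  have hτ : (W / algebraMap E F R) ^ m = algebraMap k F c *
      ((T - algebraMap k F α) / (T - algebraMap k F β)) ^ e := by
    rw [div_pow, hW, mul_div_assoc, div_self (pow_ne_zero _ hRF), mul_one]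
  by_cases hαβ : α = β
  · subst hαβ
    rw [div_self (hT α), one_zpow, mul_one] at hτ
    obtain ⟨c', hc'⟩ := const_of_pow hm hτ
    have hW' : W = algebraMap E F (algebraMap k E c' * R) := by
      rw [map_mul, ← IsScalarTower.algebraMap_apply, ← hc', div_mul_cancel₀ _ hRF]
    refine ⟨(T - algebraMap k F α)⁻¹, inv_ne_zero (hT α), ?_, fun w hw => ?_, fun w hw => ?_⟩
    · rw [w0.ord_inv, ord_sub_const_of_neg hw0]
      omega
    · have hw' : w.ord T < 0 := by
        rw [w.ord_inv] at hw
        by_contra h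
        push Not at h
        have h1 : w.ord (T - algebraMap k F α) < 0 := by omega
        have h2 : (T - algebraMap k F α) - algebraMap k F (-α) = T := by rw [map_neg]; ring
        have h3 := ord_sub_const_of_neg h1 (-α)
        rw [h2] at h3
        omega
      obtain ⟨γ, hγ⟩ := exists_conj' (E := E) w0 w fun u hu => by
        by_cases hu0 : u = 0
        · rw [hu0, map_zero, w.ord_zero]
        obtain ⟨c, n, hc, hcn, -⟩ := exists_fac (F := F) ht htop hu0
        have h1 : ∀ w : Place k F, w.ord T < 0 →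
            w.ord (algebraMap E F u) = (∑ τ ∈ n.support, n τ) * w.ord T := by
          intro w hw
          rw [hcn, w.ord_mul (by rw [Ne, map_eq_zero]; exact hc) (fac_ne_zero hT n),
            w.ord_const hc, zero_add]
          unfold fac Finsupp.prod
          rw [ord_prod _ _ _ fun τ _ => zpow_ne_zero _ (hT τ), Finset.sum_mul]
          refine Finset.sum_congr rfl fun τ _ => ?_
          rw [w.ord_zpow, ord_sub_const_of_neg hw]
        rw [h1 w0 hw0] at hu
        rw [h1 w hw', (mul_eq_zero.1 hu).resolve_right (by omega), zero_mul]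
      exact ⟨γ, by rw [hW', γ.commutes], hγ⟩
    · rw [w.ord_inv] at hw
      omega
  · obtain ⟨s, c1, c2, e', m', hs0, hc1, hc2, hm', hs, hτs⟩ :=
      exists_root_generator hτ0 (div_ne_zero (hT α) (hT β)) hm hτ
    have hc2F : algebraMap k F c2 ≠ 0 := by rw [Ne, map_eq_zero]; exact hc2
    have hW' : W = algebraMap k F c1 * s ^ e' * algebraMap E F R := by
      rw [← hτs, div_mul_cancel₀ _ hRF]
    have hordq : ∀ w : Place k F, (m' : ℤ) * w.ord s =
        w.ord (T - algebraMap k F α) - w.ord (T - algebraMap k F β) := by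
      intro w
      rw [← w.ord_pow, hs, w.ord_mul hc2F (div_ne_zero (hT α) (hT β)), w.ord_const hc2, zero_add,
        w.ord_div (hT α) (hT β)]
    have hm'z : (m' : ℤ) ≠ 0 := by exact_mod_cast hm'.ne'
    have hs0ord : w0.ord s = 0 := by
      have h1 := hordq w0
      rw [ord_sub_const_of_neg hw0, ord_sub_const_of_neg hw0, sub_self] at h1
      exact (mul_eq_zero.1 h1).resolve_left hm'z
    obtain ⟨s0, hs0'⟩ := exists_const w0 (f := s) (Or.inr hs0ord.ge)
    -- `T` is a function of `s - s0`
    have hmemT : ∀ M : IntermediateField k F, s - algebraMap k F s0 ∈ M → s ∈ M ∧ T ∈ M := by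
      intro M hM
      have h1 : s ∈ M := by
        have h2 : s = (s - algebraMap k F s0) + algebraMap k F s0 := by ring
        rw [h2]
        exact M.add_mem hM (M.algebraMap_mem s0)
      refine ⟨h1, ?_⟩
      have hq : (T - algebraMap k F α) / (T - algebraMap k F β) = s ^ m' / algebraMap k F c2 := by
        rw [hs, mul_div_cancel_left₀ _ hc2F]
      have hqM : (T - algebraMap k F α) / (T - algebraMap k F β) ∈ M := by
        rw [hq]
        exact M.div_mem (pow_mem h1 _) (M.algebraMap_mem c2)
      have hq1 : (T - algebraMap k F α) / (T - algebraMap k F β) - 1 =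
          algebraMap k F (β - α) / (T - algebraMap k F β) := by
        rw [div_sub_one (hT β), map_sub]
        congr 1
        ring
      have h2 : algebraMap k F (β - α) ≠ 0 := by
        rw [Ne, map_eq_zero]
        exact sub_ne_zero.2 (Ne.symm hαβ)
      have h3 : T = algebraMap k F (β - α) /
          ((T - algebraMap k F α) / (T - algebraMap k F β) - 1) + algebraMap k F β := by
        rw [hq1, div_div_cancel₀ h2]
        ring
      rw [h3]
      exact M.add_mem (M.div_mem (M.algebraMap_mem _) (M.sub_mem hqM M.one_mem))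
        (M.algebraMap_mem _)
    have hφ0 : s - algebraMap k F s0 ≠ 0 := by
      intro h
      have h1 := (hmemT ⊥ (by rw [h]; exact IntermediateField.zero_mem _)).2
      rw [IntermediateField.mem_bot] at h1
      obtain ⟨c, hc⟩ := h1
      exact hTt (hc ▸ isAlgebraic_algebraMap c)
    have hφpos : 0 < w0.ord (s - algebraMap k F s0) := by
      have := hs0'.resolve_left hφ0
      omega
    refine ⟨s - algebraMap k F s0, hφ0, hφpos, fun w hw => ?_, fun w hw => ?_⟩
    · let M : IntermediateField E F := IntermediateField.adjoin E {s}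
      have hmem : ∀ u : M, (u : F) ∈ k⟮s - algebraMap k F s0⟯ := by
        intro u
        have hgen := hmemT _ (mem_adjoin_simple_self k (s - algebraMap k F s0))
        have hE : ∀ z : E, algebraMap E F z ∈ k⟮s - algebraMap k F s0⟯ := by
          intro z
          by_cases hz : z = 0
          · rw [hz, map_zero]
            exact IntermediateField.zero_mem _
          obtain ⟨c, n, -, hcn, -⟩ := exists_fac (F := F) ht htop hz
          rw [hcn]
          refine IntermediateField.mul_mem _ (IntermediateField.algebraMap_mem _ _) ?_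
          unfold fac Finsupp.prod
          refine IntermediateField.prod_mem _ fun τ _ => ?_
          exact zpow_mem (IntermediateField.sub_mem _ hgen.2
            (IntermediateField.algebraMap_mem _ _)) (n τ)
        refine IntermediateField.adjoin_induction E (s := {s})
          (p := fun x _ => x ∈ k⟮s - algebraMap k F s0⟯) ?_ ?_ ?_ ?_ ?_ u.2
        · intro x hx
          rw [Set.mem_singleton_iff] at hx
          rw [hx]
          exact hgen.1
        · intro x
          exact hE x
        · intro x y _ _ hx hy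
          exact IntermediateField.add_mem _ hx hy
        · intro x _ hx
          exact IntermediateField.inv_mem _ hx
        · intro x y _ _ hx hy
          exact IntermediateField.mul_mem _ hx hy
      have hgal : IsGalois M F := inferInstance
      have hsc : IsScalarTower k M F := IsScalarTower.of_algebraMap_eq fun c => by
        rw [IsScalarTower.algebraMap_apply k E F, IsScalarTower.algebraMap_apply k E M]
        rfl
      obtain ⟨γ, hγ⟩ := exists_conj' (k := k) (E := M) w0 w fun u hu => by
        obtain ⟨c, hc⟩ := ord_adjoin (AlgHom.id k F) (f := s - algebraMap k F s0)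
          (u := (u : F)) (hmem u)
        have h1 := hc w0 hφpos
        have h2 := hc w hw
        have h3 : w0.ord (u : F) = 0 := hu
        simp only [AlgHom.coe_id, id_eq] at h1 h2
        rw [h3] at h1
        have h4 : c = 0 := (mul_eq_zero.1 h1.symm).resolve_right hφpos.ne'
        change w.ord (u : F) = 0
        rw [h2, h4, zero_mul]
      refine ⟨γ.restrictScalars E, ?_, ?_⟩
      · have h1 : γ s = s := γ.commutes ⟨s, mem_adjoin_simple_self E s⟩
        change γ W = W
        rw [hW', map_mul, map_mul, map_zpow₀, h1]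
        have h2 : ∀ z : E, γ (algebraMap E F z) = algebraMap E F z := fun z => by
          have := γ.commutes (algebraMap E M z)
          exact this
        rw [h2, IsScalarTower.algebraMap_apply k E F, h2]
      · rw [hγ]
        rfl
    · have hs1 : w.ord s < 0 := by
        by_contra h
        push Not at h
        have h1 : 0 ≤ w.ord s := h
        have h2 : w.Reg (s - algebraMap k F s0) := by
          rw [sub_eq_add_neg, ← map_neg]
          exact w.reg_add (Or.inr h1) (w.reg_const _)
        rw [w.reg_iff hφ0] at h2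
        omega
      have h1 := hordq w
      have h2 : w.ord (T - algebraMap k F α) < w.ord (T - algebraMap k F β) := by
        have h3 : (m' : ℤ) * w.ord s < 0 := mul_neg_of_pos_of_neg (by exact_mod_cast hm') hs1
        omega
      by_contra h3
      push Not at h3
      have h4 : w.ord (T - algebraMap k F α) < 0 := by omega
      have h5 := ord_sub_const_of_neg h4 (β - α)
      have h6 : T - algebraMap k F α - algebraMap k F (β - α) = T - algebraMap k F β := by
        rw [map_sub]
        ring
      rw [h6] at h5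
      omega

end

end Pool.Agent.H833.Tw
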