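import Pool.Graph.R_pool_sql_team_seeded_1acbe0a2.Y107.VC.Key

/-!
# Places in Galois extensions: conjugacy and stabilizers
-/

set_option autoImplicit false

namespace Pool.Agent.H833.Tw

open FF Pool.Agent.W619.PQ Pool.Agent.Y107.VC
open Pool.Agent.W603.LV

section

variable {k : Type} [Field k] {E F : Type} [Field E] [Field F] [Algebra k E] [Algebra k F]
  [Algebra E F] [IsScalarTower k E F]

/-- The Galois group acts transitively on the places with the same restriction. -/
theorem exists_conj' [FiniteDimensional E F] [IsGalois E F] (w w' : Place k F)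
    (hu : ∀ u : E, w.ord (algebraMap E F u) = 0 → w'.ord (algebraMap E F u) = 0) :
    ∃ σ : F ≃ₐ[E] F, w' = w.comp (σ.restrictScalars k) := by
  classical
  by_contra hcon
  push Not at hcon
  let S : Finset (Place k F) := ((Finset.univ.image fun σ : F ≃ₐ[E] F =>
    w.comp (σ.restrictScalars k)) ∪ (Finset.univ.image fun σ : F ≃ₐ[E] F =>
    w'.comp (σ.restrictScalars k))).erase w'
  obtain ⟨z, hz0, hz1, hz2⟩ := sep_many S w' (Finset.notMem_erase w' _)
  have hy0 : (1 + z : F) ≠ 0 := (ord_one_add_of_neg hz0 hz1).1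
  have hy' : w'.ord (1 + z) = w'.ord z := (ord_one_add_of_neg hz0 hz1).2
  have hyS : ∀ Q ∈ S, Q.ord (1 + z) = 0 := fun Q hQ => (ord_one_add_of_pos hz0 (hz2 Q hQ)).2
  have hN : algebraMap E F (Algebra.norm E (1 + z)) = ∏ σ : F ≃ₐ[E] F, σ (1 + z) :=
    Algebra.norm_eq_prod_automorphisms E (1 + z)
  have hne : ∀ σ ∈ (Finset.univ : Finset (F ≃ₐ[E] F)), σ (1 + z) ≠ 0 := fun σ _ =>
    (map_ne_zero_iff _ σ.injective).2 hy0
  have h1 : w.ord (algebraMap E F (Algebra.norm E (1 + z))) = 0 := by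
    rw [hN, ord_prod _ _ _ hne]
    refine Finset.sum_eq_zero fun σ _ => ?_
    have h2 : w.ord (σ (1 + z)) = (w.comp (σ.restrictScalars k)).ord (1 + z) := rfl
    rw [h2]
    refine hyS _ (Finset.mem_erase.2 ⟨(hcon σ).symm, Finset.mem_union_left _
      (Finset.mem_image.2 ⟨σ, Finset.mem_univ _, rfl⟩)⟩)
  have h2 : w'.ord (algebraMap E F (Algebra.norm E (1 + z))) < 0 := by
    rw [hN, ord_prod _ _ _ hne]
    refine Finset.sum_neg' (fun σ _ => ?_) ⟨1, Finset.mem_univ _, ?_⟩
    · have h2 : w'.ord (σ (1 + z)) = (w'.comp (σ.restrictScalars k)).ord (1 + z) := rfl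
      rw [h2]
      by_cases h3 : w'.comp (σ.restrictScalars k) = w'
      · rw [h3, hy']
        exact hz1.le
      · exact (hyS _ (Finset.mem_erase.2 ⟨h3, Finset.mem_union_right _
          (Finset.mem_image.2 ⟨σ, Finset.mem_univ _, rfl⟩)⟩)).le
    · have h3 : (1 : F ≃ₐ[E] F) (1 + z) = 1 + z := rfl
      rw [h3, hy']
      exact hz1
  rw [hu _ h1] at h2
  exact lt_irrefl _ h2

end

section

variable {k : Type} [Field k] [CharZero k] {L K : Type} [Field L] [Field K] [Algebra k L]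
  [Algebra k K] [Algebra L K] [IsScalarTower k L K]

/-- The action of the Galois group on the points. -/
noncomputable def tw (w : Place k K) (σ : K ≃ₐ[L] K) : Place k K := w.comp (σ.restrictScalars k)

theorem tw_ord (w : Place k K) (σ : K ≃ₐ[L] K) (f : K) : (tw w σ).ord f = w.ord (σ f) := rfl

theorem tw_one (w : Place k K) : tw w (1 : K ≃ₐ[L] K) = w := by
  ext f
  rfl

theorem tw_mul (w : Place k K) (σ τ : K ≃ₐ[L] K) : tw w (σ * τ) = tw (tw w σ) τ := by
  ext f
  rfl

theorem ge_tw {w : Place k K} {σ : K ≃ₐ[L] K} {N : ℤ} {f : K} (h : Ge (tw w σ) N f) :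
    Ge w N (σ f) := by
  rcases h with h | h
  · left
    rw [h, map_zero]
  · right
    exact h

theorem lies_tw {w : Place k K} {v : Place k L} (h : Lies (IsScalarTower.toAlgHom k L K) w v)
    (σ : K ≃ₐ[L] K) : Lies (IsScalarTower.toAlgHom k L K) (tw w σ) v := by
  obtain ⟨m, hm, h⟩ := h
  refine ⟨m, hm, fun f => ?_⟩
  rw [← h f, tw_ord]
  congr 1
  exact σ.commutes f

variable [FiniteDimensional L K] [IsGalois L K]

/-- The Galois group acts transitively on the points over a given point. -/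
theorem exists_tw {w w' : Place k K} {v : Place k L}
    (h : Lies (IsScalarTower.toAlgHom k L K) w v) (h' : Lies (IsScalarTower.toAlgHom k L K) w' v) :
    ∃ σ : K ≃ₐ[L] K, w' = tw w σ := by
  refine exists_conj' (E := L) w w' fun u hu => ?_
  obtain ⟨m, hm, h⟩ := h
  obtain ⟨m', hm', h'⟩ := h'
  have h1 : w.ord (algebraMap L K u) = m * v.ord u := h u
  have h2 : w'.ord (algebraMap L K u) = m' * v.ord u := h' u
  rw [h1] at hu
  have hm0 : (m : ℤ) ≠ 0 := by exact_mod_cast hm.ne'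
  rw [h2, (mul_eq_zero.1 hu).resolve_left hm0, mul_zero]

/-- If the character `χ` is trivial on the stabilizer of a point, then the orders of the Kummer
generators are divisible by `m`. -/
theorem dvd_of_stab (χ : (K ≃ₐ[L] K) →* kˣ) {y : K} (hy : y ≠ 0)
    (hyχ : ∀ σ : K ≃ₐ[L] K, σ y = algebraMap k K (χ σ) * y) {m : ℕ} {f : L}
    (hf : algebraMap L K f = y ^ m) {w : Place k K} {v : Place k L}
    (hwv : Lies (IsScalarTower.toAlgHom k L K) w v)
    (hst : ∀ σ : K ≃ₐ[L] K, tw w σ = w → χ σ = 1) : (m : ℤ) ∣ v.ord f := by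
  classical
  let S : Finset (Place k K) := (Finset.univ.image fun σ : K ≃ₐ[L] K => tw w σ).erase w
  obtain ⟨z, hz1, hz2⟩ := approx_one S w (Finset.notMem_erase w _) 1 1
  let y' : K := ∑ σ : K ≃ₐ[L] K, algebraMap k K ((χ σ)⁻¹ : kˣ) * σ z
  let c : ℕ := (Finset.univ.filter fun σ : K ≃ₐ[L] K => tw w σ = w).card
  have hc0 : 0 < c := Finset.card_pos.2 ⟨1, Finset.mem_filter.2 ⟨Finset.mem_univ _, tw_one w⟩⟩
  have h1 : Ge w 1 (y' - (c : K)) := by
    have h2 : y' - (c : K) = ∑ σ : K ≃ₐ[L] K, (algebraMap k K ((χ σ)⁻¹ : kˣ) * σ z -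
        if tw w σ = w then 1 else 0) := by
      rw [Finset.sum_sub_distrib, Finset.sum_boole]
    rw [h2]
    refine Ge.sum _ _ fun σ _ => ?_
    by_cases h3 : tw w σ = w
    · rw [if_pos h3, hst σ h3, inv_one, Units.val_one, map_one, one_mul]
      have h4 : σ z - 1 = σ (z - 1) := by rw [map_sub, map_one]
      rw [h4]
      exact ge_tw (by rw [h3]; exact hz1)
    · rw [if_neg h3, sub_zero]
      have h4 : Ge w 1 (σ z) := ge_tw (hz2 _ (Finset.mem_erase.2 ⟨h3,
        Finset.mem_image.2 ⟨σ, Finset.mem_univ _, rfl⟩⟩))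
      have h5 := (Ge.const (P := w) (((χ σ)⁻¹ : kˣ) : k)).mul h4
      rwa [zero_add] at h5
  have hcK : (c : K) = algebraMap k K (c : k) := by rw [map_natCast]
  have hck : (c : k) ≠ 0 := by exact_mod_cast hc0.ne'
  have hc1 : (c : K) ≠ 0 := by rw [hcK, Ne, map_eq_zero]; exact hck
  have hcord : w.ord (c : K) = 0 := by rw [hcK]; exact w.ord_const hck
  have hy' : y' ≠ 0 ∧ w.ord y' = 0 := by
    rcases h1 with h1 | h1
    · rw [sub_eq_zero] at h1
      rw [h1]
      exact ⟨hc1, hcord⟩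
    · by_cases h2 : y' - (c : K) = 0
      · rw [sub_eq_zero] at h2
        rw [h2]
        exact ⟨hc1, hcord⟩
      · have h3 := w.ord_add_eq hc1 h2 (by rw [hcord]; omega)
        rw [add_sub_cancel, hcord] at h3
        exact h3
  have hy'χ : ∀ τ : K ≃ₐ[L] K, τ y' = algebraMap k K (χ τ) * y' := by
    intro τ
    simp only [y']
    rw [map_sum, Finset.mul_sum]
    refine Fintype.sum_equiv (Equiv.mulLeft τ) _ _ fun σ => ?_
    rw [map_mul, Equiv.coe_mulLeft, map_mul]
    have h2 : τ (algebraMap k K (((χ σ)⁻¹ : kˣ) : k)) = algebraMap k K (((χ σ)⁻¹ : kˣ) : k) := by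
      rw [IsScalarTower.algebraMap_apply k L K, τ.commutes]
    rw [h2]
    have h3 : (τ * σ) z = τ (σ z) := rfl
    rw [h3, mul_inv, Units.val_mul, map_mul]
    have h4 : algebraMap k K ((χ τ : kˣ) : k) * algebraMap k K (((χ τ)⁻¹ : kˣ) : k) = 1 := by
      rw [← map_mul, ← Units.val_mul, mul_inv_cancel, Units.val_one, map_one]
    linear_combination (-(algebraMap k K (((χ σ)⁻¹ : kˣ) : k) * τ (σ z))) * h4
  obtain ⟨u, hu⟩ : y / y' ∈ Set.range (algebraMap L K) := by
    rw [IsGalois.mem_range_algebraMap_iff_fixed]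
    intro τ
    rw [map_div₀, hyχ, hy'χ, mul_div_mul_left]
    rw [Ne, map_eq_zero]
    exact (χ τ).ne_zero
  have hu' : y = y' * algebraMap L K u := by
    rw [hu, mul_div_cancel₀ _ hy'.1]
  have hu0 : algebraMap L K u ≠ 0 := by
    intro h
    rw [h, mul_zero] at hu'
    exact hy hu'
  obtain ⟨e, he, hwv⟩ := hwv
  have h2 : w.ord (algebraMap L K f) = e * v.ord f := hwv f
  have h3 : w.ord (algebraMap L K u) = e * v.ord u := hwv u
  rw [hf, w.ord_pow, hu', w.ord_mul hy'.1 hu0, hy'.2, h3, zero_add] at h2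
  have he0 : (e : ℤ) ≠ 0 := by exact_mod_cast he.ne'
  refine ⟨v.ord u, ?_⟩
  refine mul_left_cancel₀ he0 ?_
  linear_combination -h2

end

end Pool.Agent.H833.Tw
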