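import Pool.Agent.H833.Tw.Dec
import Pool.Graph.R_pool_sql_team_seeded_1acbe0a2.Y107.VC.Voi

/-!
# Voisin's conjecture for quotients of products of abelian covers
-/

set_option autoImplicit false
set_option linter.unusedSectionVars false
set_option maxHeartbeats 1000000

namespace Pool.Agent.H833.Tw

open FF Pool.Agent.Y107.VC Module Equiv
open Pool.Agent.H204R3.SP (permsOf mem_permsOf)
open Pool.Agent.TH131.GHC (one_mem_permsOf inv_mem_permsOf)

section

variable {k : Type} [Field k] [CharZero k] [IsAlgClosed k] {T : Type} [Fintype T]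
  [DecidableEq T]
  {L K : T → Type} [∀ t, Field (L t)] [∀ t, Field (K t)] [∀ t, Algebra k (L t)]
  [∀ t, Algebra k (K t)] [∀ t, Algebra (L t) (K t)] [∀ t, IsScalarTower k (L t) (K t)]
  [∀ t, IsFF k (L t)] [∀ t, IsFF k (K t)] [∀ t, FiniteDimensional (L t) (K t)]
  [∀ t, IsGalois (L t) (K t)]

/-- The action of the product of the Galois groups on the product of the curves. -/
noncomputable def actX (g : ∀ t, K t ≃ₐ[L t] K t) (x : ∀ t, Place k (K t)) :
    ∀ t, Place k (K t) := fun t => tw (x t) (g t)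

theorem actX_injective (g : ∀ t, K t ≃ₐ[L t] K t) :
    Function.Injective (actX (k := k) (K := K) g) := by
  intro x y h
  funext t
  have h1 := congrFun h t
  have h2 : tw (tw (x t) (g t)) (g t)⁻¹ = tw (tw (y t) (g t)) (g t)⁻¹ := by
    change tw (x t) (g t) = tw (y t) (g t) at h1
    rw [h1]
  rwa [← tw_mul, ← tw_mul, mul_inv_cancel, tw_one, tw_one] at h2

/-- The word cycle of a family of cycles on the product of the curves. -/
noncomputable def AA {n : ℕ} (a : Fin n → (∀ t, Place k (K t)) →₀ ℚ) :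
    (Fin n × T → Σ t, Place k (K t)) →₀ k :=
  toK k (Finsupp.mapDomain (psi (k := k) (K := K) (q := fun p : Fin n × T => p.2))
    (ext (P := fun t => Place k (K t)) a))

theorem AA_supp {n : ℕ} (a : Fin n → (∀ t, Place k (K t)) →₀ ℚ) :
    ∀ x ∈ (AA a).support, ∀ c, (x c).1 = c.2 := by
  classical
  intro x hx c
  have h1 : x ∈ (Finsupp.mapDomain (psi (k := k) (K := K) (q := fun p : Fin n × T => p.2))
    (ext (P := fun t => Place k (K t)) a)).support := by
    rw [Finsupp.mem_support_iff] at hx ⊢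
    intro h
    apply hx
    unfold AA
    rw [toK_apply, h, map_zero]
  obtain ⟨y, -, rfl⟩ := Finset.mem_image.1 (Finsupp.mapDomain_support h1)
  rfl

theorem AA_prim {n : ℕ} (a : Fin n → (∀ t, Place k (K t)) →₀ ℚ)
    (hprim : ∀ (j : Fin n) (e : T),
      Finsupp.mapDomain (fun x (t : {t // t ≠ e}) => x t.1) (a j) ∈
        Rat k fun t : {t // t ≠ e} => K t.1) (b : ∀ t, Place k (K t)) (c : Fin n × T) :
    Finsupp.mapDomain (rep (fun p : Fin n × T => p.2) b {c}) (AA a) ∈ RU k (Fin n × T) K := by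
  classical
  obtain ⟨j, e⟩ := c
  unfold AA
  rw [← toK_mapDomain]
  refine toK_mem_up ?_
  have h2 : ext (P := fun t => Place k (K t)) a = _ :=
    ext_eq_ins (P := fun t => Place k (K t)) a j
  rw [h2, Finsupp.mapDomain_finsetSum, Finsupp.mapDomain_finsetSum]
  refine Submodule.sum_mem _ fun y _ => ?_
  rw [Finsupp.mapDomain_smul, Finsupp.mapDomain_smul]
  refine Submodule.smul_mem _ _ ?_
  rw [← Finsupp.mapDomain_comp, ← Finsupp.mapDomain_comp]
  let Φ : (∀ t : {t // t ≠ e}, Place k (K t.1)) → Fin n × T → Σ t, Place k (K t) := fun u p =>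
    if h : p.1 ≠ j then ⟨p.2, y ⟨p.1, h⟩ p.2⟩ else
      if h' : p.2 ≠ e then ⟨p.2, u ⟨p.2, h'⟩⟩ else ⟨e, b e⟩
  have h2 : (rep (fun p : Fin n × T => p.2) b {((j, e) : Fin n × T)} ∘
      psi (k := k) (K := K) (q := fun p : Fin n × T => p.2)) ∘
      ins (P := fun t => Place k (K t)) j y =
      Φ ∘ fun x (t : {t // t ≠ e}) => x t.1 := by
    funext x p
    rcases p with ⟨p1, p2⟩
    simp only [Function.comp_apply, rep, psi, ins, Φ, Finset.mem_singleton, Prod.mk.injEq]
    by_cases hp1 : p1 ≠ j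
    · rw [if_neg (fun h => hp1 h.1), dif_pos hp1, dif_pos hp1]
    · rw [dif_neg hp1, dif_neg hp1]
      push Not at hp1
      subst hp1
      by_cases hp2 : p2 ≠ e
      · rw [if_neg (fun h => hp2 h.2), dif_pos hp2]
      · rw [dif_neg hp2]
        push Not at hp2
        subst hp2
        rw [if_pos ⟨rfl, rfl⟩]
  rw [h2, Finsupp.mapDomain_comp]
  refine Rat.toU (k := k) (K := K) (q := fun t : {t // t ≠ e} => t.1) Φ ?_ (hprim j e)
  rintro ⟨p1, p2⟩
  by_cases hp1 : p1 ≠ j
  · exact Or.inl ⟨⟨p2, y ⟨p1, hp1⟩ p2⟩, fun u => dif_pos hp1⟩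
  · by_cases hp2 : p2 ≠ e
    · refine Or.inr ⟨⟨p2, hp2⟩, fun u => ?_⟩
      simp only [Φ]
      rw [dif_neg hp1, dif_pos hp2]
    · refine Or.inl ⟨⟨e, b e⟩, fun u => ?_⟩
      simp only [Φ]
      rw [dif_neg hp1, dif_neg hp2]

/-- The permutation of the factors. -/
def Pf {n : ℕ} (T : Type) (σ : Perm (Fin n)) : Perm (Fin n × T) :=
  Equiv.prodCongrLeft fun _ : T => σ

theorem Pf_apply {n : ℕ} (σ : Perm (Fin n)) (p : Fin n × T) : Pf T σ p = (σ p.1, p.2) := rfl

theorem sign_Pf {n : ℕ} (σ : Perm (Fin n)) :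
    Perm.sign (Pf T σ) = Perm.sign σ ^ Fintype.card T := by
  unfold Pf
  rw [Perm.sign_prodCongrLeft, Finset.prod_const, Finset.card_univ]

theorem pm_AA {n : ℕ} (a : Fin n → (∀ t, Place k (K t)) →₀ ℚ) (σ : Perm (Fin n)) :
    pmK (Pf T σ) (AA a) = AA fun j => a (σ j) := by
  unfold AA pmK
  rw [Finsupp.lmapDomain_apply, ← toK_mapDomain, ← Finsupp.mapDomain_comp]
  congr 1
  let Ps : (∀ p : Fin n × T, Place k (K p.2)) → ∀ p : Fin n × T, Place k (K p.2) := fun x p =>
    x (σ p.1, p.2)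
  have hPs : Function.Surjective Ps := by
    intro x
    refine ⟨fun p => x (σ.symm p.1, p.2), ?_⟩
    funext p
    rcases p with ⟨p1, p2⟩
    change x (σ.symm (σ p1), p2) = x (p1, p2)
    rw [symm_apply_apply]
  have hPi : Function.Injective Ps := by
    intro x y hxy
    funext p
    rcases p with ⟨p1, p2⟩
    have h3 := congrFun hxy (σ.symm p1, p2)
    change x (σ (σ.symm p1), p2) = y (σ (σ.symm p1), p2) at h3
    rwa [apply_symm_apply] at h3
  have h3 : Finsupp.mapDomain Ps (ext (P := fun t => Place k (K t)) a) =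
      ext (P := fun t => Place k (K t)) (fun j => a (σ j)) := by
    ext z
    obtain ⟨x, rfl⟩ := hPs z
    rw [Finsupp.mapDomain_apply hPi]
    change ∏ j, a j (fun t => x (j, t)) = ∏ j, a (σ j) (fun t => x (σ j, t))
    exact (Equiv.prod_comp σ fun j => a j fun t => x (j, t)).symm
  rw [← h3, ← Finsupp.mapDomain_comp]
  rfl

theorem AA_inv {n : ℕ} (a : Fin n → (∀ t, Place k (K t)) →₀ ℚ) (j : Fin n)
    (g : ∀ t, K t ≃ₐ[L t] K t) (hg : Finsupp.mapDomain (actX g) (a j) = a j) :
    Finsupp.mapDomain (actk fun p : Fin n × T => if p.1 = j then g else 1) (AA a) = AA a := by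
  unfold AA
  rw [← toK_mapDomain, ← Finsupp.mapDomain_comp]
  congr 1
  let Φ : (∀ p : Fin n × T, Place k (K p.2)) → ∀ p : Fin n × T, Place k (K p.2) := fun x p =>
    tw (x p) ((if p.1 = j then g else 1 : ∀ t, K t ≃ₐ[L t] K t) p.2)
  have h1 : (actk fun p : Fin n × T => (if p.1 = j then g else 1 : ∀ t, K t ≃ₐ[L t] K t)) ∘
      psi (k := k) (K := K) (q := fun p : Fin n × T => p.2) =
      psi (k := k) (K := K) (q := fun p : Fin n × T => p.2) ∘ Φ := rfl
  rw [h1, Finsupp.mapDomain_comp]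
  congr 1
  have hΦi : Function.Injective Φ := by
    intro x y h
    funext p
    have h1 := congrFun h p
    change tw (x p) _ = tw (y p) _ at h1
    have h2 : tw (tw (x p) ((if p.1 = j then g else 1 : ∀ t, K t ≃ₐ[L t] K t) p.2))
        ((if p.1 = j then g else 1 : ∀ t, K t ≃ₐ[L t] K t) p.2)⁻¹ =
        tw (tw (y p) ((if p.1 = j then g else 1 : ∀ t, K t ≃ₐ[L t] K t) p.2))
        ((if p.1 = j then g else 1 : ∀ t, K t ≃ₐ[L t] K t) p.2)⁻¹ := by rw [h1]
    rwa [← tw_mul, ← tw_mul, mul_inv_cancel, tw_one, tw_one] at h2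
  have hΦs : Function.Surjective Φ := by
    intro x
    refine ⟨fun p => tw (x p) ((if p.1 = j then g else 1 : ∀ t, K t ≃ₐ[L t] K t) p.2)⁻¹, ?_⟩
    funext p
    change tw (tw (x p) _) _ = x p
    rw [← tw_mul, inv_mul_cancel, tw_one]
  ext z
  obtain ⟨x, rfl⟩ := hΦs z
  rw [Finsupp.mapDomain_apply hΦi, ext_apply, ext_apply]
  refine Finset.prod_congr rfl fun i _ => ?_
  by_cases hi : i = j
  · have h2 : (fun t => Φ x (i, t)) = actX g fun t => x (i, t) := by
      funext t
      change tw (x (i, t)) ((if i = j then g else 1 : ∀ t, K t ≃ₐ[L t] K t) t) = _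
      rw [if_pos hi]
      rfl
    rw [h2, hi]
    conv_rhs => rw [← hg]
    rw [Finsupp.mapDomain_apply (actX_injective g)]
  · have h2 : (fun t => Φ x (i, t)) = fun t => x (i, t) := by
      funext t
      change tw (x (i, t)) ((if i = j then g else 1 : ∀ t, K t ≃ₐ[L t] K t) t) = _
      rw [if_neg hi]
      exact tw_one _
    rw [h2]

/-- The characters of the product of the groups. -/
abbrev Chs (k : Type) [Field k] {T : Type} (L K : T → Type) [∀ t, Field (L t)]
    [∀ t, Field (K t)] [∀ t, Algebra (L t) (K t)] : Type :=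
  ∀ t, ((K t ≃ₐ[L t] K t) →* kˣ)

/-- The characters which are trivial on the subgroup `Γ`. -/
def TrivOn (Γ : Subgroup (∀ t, K t ≃ₐ[L t] K t)) (η : Chs k L K) : Prop :=
  ∀ γ ∈ Γ, ∏ t, η t (γ t) = 1

theorem EE_eq_zero {n : ℕ} (a : Fin n → (∀ t, Place k (K t)) →₀ ℚ)
    {Γ : Subgroup (∀ t, K t ≃ₐ[L t] K t)}
    (hinv : ∀ (j : Fin n), ∀ γ ∈ Γ, Finsupp.mapDomain (actX γ) (a j) = a j)
    (S : ∀ c : Fin n × T, ((K c.2 ≃ₐ[L c.2] K c.2) →* kˣ)) (j : Fin n)
    (hj : ¬TrivOn Γ (k := k) fun t => S (j, t)) :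
    EE (ty (fun p : Fin n × T => p.2) S) (AA a) = 0 := by
  unfold TrivOn at hj
  push Not at hj
  obtain ⟨γ, hγ, hne⟩ := hj
  have h1 := EE_act (ty (fun p : Fin n × T => p.2) S)
    (fun p : Fin n × T => if p.1 = j then γ else 1) (AA a)
  rw [AA_inv a j γ (hinv j γ hγ)] at h1
  have h2 : ∏ c, om (ty (fun p : Fin n × T => p.2) S c)
      (if c.1 = j then γ else 1 : ∀ t, K t ≃ₐ[L t] K t) = ((∏ t, S (j, t) (γ t) : kˣ) : k) := by
    rw [Fintype.prod_prod_type, Finset.prod_eq_single j]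
    · rw [Units.coe_prod]
      refine Finset.prod_congr rfl fun t _ => ?_
      rw [if_pos rfl]
      rfl
    · intro i _ hi
      refine Finset.prod_eq_one fun t _ => ?_
      rw [if_neg hi, om_one]
    · intro h
      exact absurd (Finset.mem_univ _) h
  rw [h2] at h1
  have h3 : (1 - ((∏ t, S (j, t) (γ t) : kˣ) : k)) •
      EE (ty (fun p : Fin n × T => p.2) S) (AA a) = 0 := by
    rw [sub_smul, one_smul, ← h1, sub_self]
  refine (smul_eq_zero.1 h3).resolve_left fun h4 => hne ?_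
  rw [sub_eq_zero] at h4
  exact Units.ext h4.symm

/-- Two equal rows. -/
theorem sum_perms_zero {n : ℕ} (B : Finset (Fin n)) {j j' : Fin n} (hj : j ∈ B) (hj' : j' ∈ B)
    (hne : j ≠ j') (M : Fin n → Fin n → k) (hM : M j = M j') :
    ∑ τ ∈ permsOf B, ((Perm.sign τ : ℤ) : k) * ∏ i, M i (τ i) = 0 := by
  have h1 : ∑ τ ∈ permsOf B, ((Perm.sign τ : ℤ) : k) * ∏ i, M i (τ i) =
      ∑ τ ∈ permsOf B, -(((Perm.sign τ : ℤ) : k) * ∏ i, M i (τ i)) := by
    refine Finset.sum_equiv (Equiv.mulRight (swap j j')) (fun τ => ?_) fun τ _ => ?_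
    · rw [mem_permsOf, mem_permsOf]
      have h2 : ∀ i, i ∉ B → swap j j' i = i := fun i hi =>
        swap_apply_of_ne_of_ne (fun h => hi (h ▸ hj)) (fun h => hi (h ▸ hj'))
      constructor
      · intro h i hi
        rw [Equiv.coe_mulRight, Perm.mul_apply, h2 i hi, h i hi]
      · intro h i hi
        have h3 := h i hi
        rwa [Equiv.coe_mulRight, Perm.mul_apply, h2 i hi] at h3
    · rw [Equiv.coe_mulRight, Perm.sign_mul, Perm.sign_swap hne]
      have h2 : ∏ i, M i ((τ * swap j j') i) = ∏ i, M i (τ i) := by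
        rw [← Equiv.prod_comp (swap j j')]
        refine Finset.prod_congr rfl fun i _ => ?_
        rw [Perm.mul_apply, swap_apply_self]
        have h3 : M (swap j j' i) = M i := by
          by_cases hi : i = j
          · rw [hi, swap_apply_left, hM]
          · by_cases hi' : i = j'
            · rw [hi', swap_apply_right, hM]
            · rw [swap_apply_of_ne_of_ne hi hi']
        rw [h3]
      rw [h2]
      push_cast
      ring
  rw [Finset.sum_neg_distrib] at h1
  exact self_eq_neg.1 h1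

theorem part_mem {H : Ty k L K → ℕ} (hH : IsDim H) (b : ∀ t, Place k (K t)) {n : ℕ}
    (a : Fin n → (∀ t, Place k (K t)) →₀ ℚ)
    (hprim : ∀ (j : Fin n) (e : T),
      Finsupp.mapDomain (fun x (t : {t // t ≠ e}) => x t.1) (a j) ∈
        Rat k fun t : {t // t ≠ e} => K t.1)
    (S : ∀ c : Fin n × T, ((K c.2 ≃ₐ[L c.2] K c.2) →* kˣ)) (η : Chs k L K)
    (B : Finset (Fin n)) (hB : ∀ j ∈ B, ∀ t, S (j, t) = η t)
    (hcard : ∏ t, H ⟨t, η t⟩ < B.card) :
    ∑ σ : Perm (Fin n), ((Perm.sign σ : ℤ) : k) ^ (Fintype.card T + 1) •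
      EE (ty (fun p : Fin n × T => p.2) S) (pmK (Pf T σ) (AA a)) ∈ RU k (Fin n × T) K := by
  classical
  let s := ty (fun p : Fin n × T => p.2) S
  have hs : ∀ τ ∈ permsOf B, ∀ c, s (Pf T τ c) = s c := by
    rintro τ hτ ⟨j, t⟩
    change (⟨t, S (τ j, t)⟩ : Ty k L K) = ⟨t, S (j, t)⟩
    by_cases hj : j ∈ B
    · have h1 : τ j ∈ B := by
        by_contra hcon
        have h2 := (mem_permsOf.1 hτ) _ hcon
        rw [τ.injective h2] at hcon
        exact hcon hj
      rw [hB _ h1, hB _ hj]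
    · rw [(mem_permsOf.1 hτ) _ hj]
  have hsgn : ∀ σ : Perm (Fin n), ((Perm.sign σ : ℤ) : k) ^ (Fintype.card T + 1) *
      ((Perm.sign σ : ℤ) : k) ^ Fintype.card T = ((Perm.sign σ : ℤ) : k) := by
    intro σ
    have h2 : ((Perm.sign σ : ℤ) : k) ^ (Fintype.card T) *
        ((Perm.sign σ : ℤ) : k) ^ (Fintype.card T) = 1 := by
      rw [← mul_pow, sgn_sqK, one_pow]
    rw [pow_succ]
    linear_combination ((Perm.sign σ : ℤ) : k) * h2
  -- the inner sums
  have hinner : ∀ σ : Perm (Fin n), ∑ τ ∈ permsOf B,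
      ((Perm.sign τ : ℤ) : k) ^ (Fintype.card T + 1) •
        pmK (Pf T τ) (EE s (pmK (Pf T σ) (AA a))) ∈ RU k (Fin n × T) K := by
    intro σ
    rw [pm_AA]
    refine mainIK hH (permsOf B) (fun τ => Pf T τ)
      (fun τ => ((Perm.sign τ : ℤ) : k) ^ (Fintype.card T + 1)) s b hs (fun c hc Y => ?_)
      (AA fun j => a (σ j)) (AA_supp _) (fun c _ => AA_prim _ (fun j e => hprim (σ j) e) b c)
    have h1 : ∀ j ∈ B, ∀ t, ∃ r : Fin (H ⟨t, η t⟩), c (j, t) = ⟨⟨t, η t⟩, r⟩ := by
      intro j hj t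
      have h2 := hc (j, t)
      have h3 : s (j, t) = ⟨t, η t⟩ := by
        change (⟨t, S (j, t)⟩ : Ty k L K) = ⟨t, η t⟩
        rw [hB j hj t]
      rw [h3] at h2
      rcases h4 : c (j, t) with ⟨s0, r⟩
      rw [h4] at h2
      change s0 = _ at h2
      subst h2
      exact ⟨r, rfl⟩
    choose col hcol using h1
    have h2 : ∃ j ∈ B, ∃ j' ∈ B, j ≠ j' ∧ ∀ t, c (j, t) = c (j', t) := by
      have h3 : Fintype.card (∀ t, Fin (H ⟨t, η t⟩)) < Fintype.card {j // j ∈ B} := by
        rw [Fintype.card_pi, Fintype.card_coe]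
        simp only [Fintype.card_fin]
        exact hcard
      obtain ⟨j, j', hjj, hcc⟩ := Fintype.exists_ne_map_eq_of_card_lt
        (fun (j : {j // j ∈ B}) (t : T) => col j.1 j.2 t) h3
      refine ⟨j, j.2, j', j'.2, fun h => hjj (Subtype.ext h), fun t => ?_⟩
      rw [hcol j.1 j.2 t, hcol j'.1 j'.2 t, congrFun hcc t]
    obtain ⟨j, hj, j', hj', hne, hjj⟩ := h2
    have h3 := sum_perms_zero (k := k) B hj hj' hne (fun j l => ∏ t, Y (c (j, t)) (l, t)) (by
      funext l
      refine Finset.prod_congr rfl fun t _ => ?_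
      rw [hjj t])
    rw [← h3]
    refine Finset.sum_congr rfl fun τ _ => ?_
    rw [sign_Pf]
    push_cast
    rw [mul_comm (((Perm.sign τ : ℤ) : k) ^ Fintype.card T), hsgn, Fintype.prod_prod_type]
    rfl
  have h1 : ((permsOf B).card : k) •
      ∑ σ : Perm (Fin n), ((Perm.sign σ : ℤ) : k) ^ (Fintype.card T + 1) •
        EE s (pmK (Pf T σ) (AA a)) =
      ∑ σ : Perm (Fin n), ((Perm.sign σ : ℤ) : k) ^ (Fintype.card T + 1) •
        ∑ τ ∈ permsOf B, ((Perm.sign τ : ℤ) : k) ^ (Fintype.card T + 1) •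
          pmK (Pf T τ) (EE s (pmK (Pf T σ) (AA a))) := by
    simp only [Finset.smul_sum]
    rw [Finset.sum_comm, ← Finset.smul_sum, Nat.cast_smul_eq_nsmul, ← Finset.sum_const]
    refine Finset.sum_congr rfl fun τ hτ => ?_
    refine (Fintype.sum_equiv (Equiv.mulRight τ) _ _ fun σ => ?_).symm
    rw [Equiv.coe_mulRight, smul_smul]
    congr 1
    · rw [Perm.sign_mul]
      push_cast
      rw [mul_pow]
    · rw [← EE_pm (hs τ hτ)]
      congr 1
      unfold pmK
      rw [Finsupp.lmapDomain_apply, Finsupp.lmapDomain_apply, Finsupp.lmapDomain_apply,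
        ← Finsupp.mapDomain_comp]
      rfl
  have h2 : ((permsOf B).card : k) ≠ 0 := by
    have h5 : 0 < (permsOf B).card := Finset.card_pos.2 ⟨1, one_mem_permsOf B⟩
    exact_mod_cast h5.ne'
  have h3 : ((permsOf B).card : k) •
      ∑ σ : Perm (Fin n), ((Perm.sign σ : ℤ) : k) ^ (Fintype.card T + 1) •
        EE s (pmK (Pf T σ) (AA a)) ∈ RU k (Fin n × T) K := by
    rw [h1]
    exact Submodule.sum_mem _ fun σ _ => Submodule.smul_mem _ _ (hinner σ)
  have h4 := Submodule.smul_mem _ ((permsOf B).card : k)⁻¹ h3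
  rwa [smul_smul, inv_mul_cancel₀ h2, one_smul] at h4

open Classical in
/-- The generalised Voisin conjecture for the quotient of the product of the curves by `Γ`. -/
theorem voisin_quotient [∀ t, Fintype ((K t ≃ₐ[L t] K t) →* kˣ)]
    (hcomm : ∀ t, ∀ σ τ : K t ≃ₐ[L t] K t, σ * τ = τ * σ) {H : Ty k L K → ℕ} (hH : IsDim H)
    (Γ : Subgroup (∀ t, K t ≃ₐ[L t] K t)) {n : ℕ}
    (hn : ∑ η : Chs k L K, (if TrivOn Γ η then ∏ t, H ⟨t, η t⟩ else 0) < n)
    (a : Fin n → (∀ t, Place k (K t)) →₀ ℚ)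
    (hinv : ∀ (j : Fin n), ∀ γ ∈ Γ, Finsupp.mapDomain (actX γ) (a j) = a j)
    (hprim : ∀ (j : Fin n) (e : T),
      Finsupp.mapDomain (fun x (t : {t // t ≠ e}) => x t.1) (a j) ∈
        Rat k fun t : {t // t ≠ e} => K t.1) :
    ∑ σ : Perm (Fin n), ((Perm.sign σ : ℤ) : ℚ) ^ (Fintype.card T + 1) •
      ext (P := fun t => Place k (K t)) (fun j => a (σ j)) ∈
        Rat k fun p : Fin n × T => K p.2 := by
  have hb : ∀ t, ∃ P : Place k (K t), True := fun t => exists_place
  choose b _ using hb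
  let q : Fin n × T → T := fun p => p.2
  let Z : (Fin n × T → Σ t, Place k (K t)) →₀ k :=
    ∑ σ : Perm (Fin n), ((Perm.sign σ : ℤ) : k) ^ (Fintype.card T + 1) • pmK (Pf T σ) (AA a)
  obtain ⟨N, hN, hsum⟩ := sum_EE (k := k) (L := L) (K := K) q hcomm
  have hZsupp : ∀ x ∈ Z.support, ∀ c, (x c).1 = q c := by
    intro x hx c
    simp only [Z] at hx
    have h1 := Finsupp.support_finsetSum hx
    rw [Finset.mem_biUnion] at h1
    obtain ⟨σ, -, hσ⟩ := h1
    have h2 := Finsupp.support_smul hσ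
    rw [pm_AA] at h2
    exact AA_supp _ x h2 c
  have hZ : N • Z ∈ RU k (Fin n × T) K := by
    rw [← hsum Z hZsupp]
    refine Submodule.sum_mem _ fun S _ => ?_
    have h1 : EE (ty q S) Z = ∑ σ : Perm (Fin n),
        ((Perm.sign σ : ℤ) : k) ^ (Fintype.card T + 1) •
          EE (ty q S) (pmK (Pf T σ) (AA a)) := by
      simp only [Z]
      rw [map_sum]
      exact Finset.sum_congr rfl fun σ _ => map_smul _ _ _
    rw [h1]
    by_cases hS : ∀ j, TrivOn Γ (k := k) fun t => S (j, t)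
    · have h2 : ∃ η : Chs k L K, ∏ t, H ⟨t, η t⟩ <
          (Finset.univ.filter fun j : Fin n => (fun t => S (j, t)) = η).card := by
        by_contra hcon
        push Not at hcon
        have h3 : n = ∑ η ∈ Finset.univ.filter (fun η : Chs k L K => TrivOn Γ η),
            (Finset.univ.filter fun j : Fin n => (fun t => S (j, t)) = η).card := by
          have h4 := Finset.card_eq_sum_card_fiberwise (s := (Finset.univ : Finset (Fin n)))
            (t := Finset.univ.filter (fun η : Chs k L K => TrivOn Γ η))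
            (f := fun j => (fun t => S (j, t) : Chs k L K))
            (fun j _ => by
              rw [Finset.coe_filter]
              exact ⟨Finset.mem_univ _, hS j⟩)
          rw [Finset.card_univ, Fintype.card_fin] at h4
          exact h4
        have h5 : n ≤ ∑ η ∈ Finset.univ.filter (fun η : Chs k L K => TrivOn Γ η),
            ∏ t, H ⟨t, η t⟩ := by
          conv_lhs => rw [h3]
          exact Finset.sum_le_sum fun η _ => hcon η
        rw [Finset.sum_filter] at h5
        omega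
      obtain ⟨η, hη⟩ := h2
      refine part_mem hH b a hprim S η _ (fun j hj t => ?_) hη
      exact congrFun (Finset.mem_filter.1 hj).2 t
    · push Not at hS
      obtain ⟨j, hj⟩ := hS
      refine Submodule.sum_mem _ fun σ _ => Submodule.smul_mem _ _ ?_
      rw [pm_AA, EE_eq_zero (fun j => a (σ j)) (fun j γ hγ => hinv (σ j) γ hγ) S j hj]
      exact Submodule.zero_mem _
  have hZ' : Z ∈ RU k (Fin n × T) K := by
    have h4 := Submodule.smul_mem _ N⁻¹ hZ
    rwa [smul_smul, inv_mul_cancel₀ hN, one_smul] at h4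
  have h1 : Z = toK k (Finsupp.mapDomain (psi (q := q)) (∑ σ : Perm (Fin n),
      ((Perm.sign σ : ℤ) : ℚ) ^ (Fintype.card T + 1) •
        ext (P := fun t => Place k (K t)) (fun j => a (σ j)))) := by
    simp only [Z]
    rw [Finsupp.mapDomain_finsetSum, map_sum]
    refine Finset.sum_congr rfl fun σ _ => ?_
    rw [pm_AA, Finsupp.mapDomain_smul]
    unfold AA
    ext x
    rw [Finsupp.smul_apply, toK_apply, toK_apply, Finsupp.smul_apply, smul_eq_mul, smul_eq_mul,
      map_mul, map_pow, map_intCast]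
  rw [h1] at hZ'
  have h2 := RatU.comp q (mem_of_up hZ')
  rw [compq_psi] at h2
  exact h2

end

end Pool.Agent.H833.Tw
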